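import Mathlib

/-!
Sweep bound: a set of pairwise non-crossing straight edges on `n ≥ 2` points with distinct abscissae
has at most `3 n - h - 3` edges, where `h` is the number of vertices of the convex hull.
-/

namespace Pool.Agent.X51.GK

variable {ι : Type*}

/-- slope of the line through `P v` and `P a` -/
noncomputable def sl (P : ι → ℝ × ℝ) (v a : ι) : ℝ :=
  ((P a).2 - (P v).2) / ((P a).1 - (P v).1)

/-- height of the line through `P v`, `P a` at abscissa `t` -/
noncomputable def L (P : ι → ℝ × ℝ) (v a : ι) (t : ℝ) : ℝ :=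
  (P v).2 + sl P v a * (t - (P v).1)

lemma L_left (P : ι → ℝ × ℝ) (v a : ι) : L P v a (P v).1 = (P v).2 := by simp [L]

lemma L_right {P : ι → ℝ × ℝ} {v a : ι} (h : (P v).1 < (P a).1) :
    L P v a (P a).1 = (P a).2 := by
  unfold L sl
  have : (P a).1 - (P v).1 ≠ 0 := by linarith
  field_simp
  ring

lemma mem_os {P : ι → ℝ × ℝ} {v a : ι} {t : ℝ} (h1 : (P v).1 < t) (h2 : t < (P a).1) :
    ((t, L P v a t) : ℝ × ℝ) ∈ openSegment ℝ (P v) (P a) := by
  have hpos : 0 < (P a).1 - (P v).1 := by linarith
  refine ⟨((P a).1 - t) / ((P a).1 - (P v).1), (t - (P v).1) / ((P a).1 - (P v).1),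
    div_pos (by linarith) hpos, div_pos (by linarith) hpos, ?_, ?_⟩
  · rw [← add_div]; rw [div_eq_one_iff_eq (ne_of_gt hpos)]; ring
  · ext
    · simp only [Prod.fst_add, Prod.smul_fst, smul_eq_mul]
      field_simp
      ring
    · simp only [Prod.snd_add, Prod.smul_snd, smul_eq_mul, L, sl]
      field_simp
      ring

lemma L_comb (P : ι → ℝ × ℝ) (v a : ι) (t0 t1 p q : ℝ) (hpq : p + q ≠ 0) :
    L P v a ((q * t0 + p * t1) / (p + q)) = (q * L P v a t0 + p * L P v a t1) / (p + q) := by
  unfold L
  field_simp
  ring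

lemma cmp {P : ι → ℝ × ℝ} {v a w b : ι}
    (hd : ∀ z, z ∈ openSegment ℝ (P v) (P a) → z ∉ openSegment ℝ (P w) (P b))
    {t0 t1 : ℝ} (h0 : (P v).1 ≤ t0 ∧ t0 ≤ (P a).1 ∧ (P w).1 ≤ t0 ∧ t0 ≤ (P b).1)
    (h1 : (P v).1 ≤ t1 ∧ t1 ≤ (P a).1 ∧ (P w).1 ≤ t1 ∧ t1 ≤ (P b).1)
    (h : L P v a t0 < L P w b t0) : L P v a t1 ≤ L P w b t1 := by
  by_contra hcon
  have hcon : L P w b t1 < L P v a t1 := not_le.mp hcon
  obtain ⟨p, hp⟩ : ∃ p, p = L P w b t0 - L P v a t0 := ⟨_, rfl⟩
  obtain ⟨q, hq⟩ : ∃ q, q = L P v a t1 - L P w b t1 := ⟨_, rfl⟩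
  have hp0 : 0 < p := by linarith
  have hq0 : 0 < q := by linarith
  have hne : t0 ≠ t1 := by
    rintro rfl
    linarith
  obtain ⟨t, ht⟩ : ∃ t, t = (q * t0 + p * t1) / (p + q) := ⟨_, rfl⟩
  have hs : 0 < p + q := by linarith
  have hL : L P v a t = L P w b t := by
    rw [ht, L_comb _ _ _ _ _ _ _ hs.ne', L_comb _ _ _ _ _ _ _ hs.ne']
    congr 1
    rw [hp, hq]; ring
  have htt : t * (p + q) = q * t0 + p * t1 := by
    rw [ht]; field_simp
  -- strictly between
  have hb : (min t0 t1 < t) ∧ (t < max t0 t1) := by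
    rcases lt_or_gt_of_ne hne with hlt | hlt
    · rw [min_eq_left hlt.le, max_eq_right hlt.le]
      constructor <;> nlinarith
    · rw [min_eq_right hlt.le, max_eq_left hlt.le]
      constructor <;> nlinarith
  have m1 : (P v).1 ≤ min t0 t1 := le_min h0.1 h1.1
  have m2 : (P w).1 ≤ min t0 t1 := le_min h0.2.2.1 h1.2.2.1
  have m3 : max t0 t1 ≤ (P a).1 := max_le h0.2.1 h1.2.1
  have m4 : max t0 t1 ≤ (P b).1 := max_le h0.2.2.2 h1.2.2.2
  have z1 : ((t, L P v a t) : ℝ × ℝ) ∈ openSegment ℝ (P v) (P a) :=
    mem_os (by linarith [hb.1]) (by linarith [hb.2])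
  have z2 : ((t, L P w b t) : ℝ × ℝ) ∈ openSegment ℝ (P w) (P b) :=
    mem_os (by linarith [hb.1]) (by linarith [hb.2])
  rw [← hL] at z2
  exact hd _ z1 z2

/-- A wedge: two consecutive right edges at `v`, with first vertex `m` between them. -/
structure W (P : ι → ℝ × ℝ) (E : Finset (ι × ι)) (v a b m : ι) : Prop where
  ea : (v, a) ∈ E
  eb : (v, b) ∈ E
  sab : sl P v a < sl P v b
  cons : ∀ c, (v, c) ∈ E → sl P v c ≤ sl P v a ∨ sl P v b ≤ sl P v c
  vm : (P v).1 < (P m).1
  ma : (P m).1 ≤ (P a).1
  mb : (P m).1 ≤ (P b).1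
  la : L P v a (P m).1 ≤ (P m).2
  lb : (P m).2 ≤ L P v b (P m).1
  mn : ∀ k, (P v).1 < (P k).1 → (P k).1 < (P m).1 → L P v a (P k).1 ≤ (P k).2 →
    (P k).2 ≤ L P v b (P k).1 → False

section
variable {P : ι → ℝ × ℝ} {E : Finset (ι × ι)}
  (hx : Function.Injective fun i => (P i).1)
  (hE : ∀ e ∈ E, (P e.1).1 < (P e.2).1)
  (hd : ∀ e ∈ E, ∀ f ∈ E, e ≠ f → ∀ z, z ∈ openSegment ℝ (P e.1) (P e.2) →
    z ∉ openSegment ℝ (P f.1) (P f.2))
  (hv : ∀ e ∈ E, ∀ k, P k ∉ openSegment ℝ (P e.1) (P e.2))

include hE hd in
lemma slope_inj {v a b : ι} (ha : (v, a) ∈ E) (hb : (v, b) ∈ E) (h : sl P v a = sl P v b) :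
    a = b := by
  by_contra hne
  have h1 := hE _ ha
  have h2 := hE _ hb
  obtain ⟨t, ht1, ht2⟩ : ∃ t, (P v).1 < t ∧ t < min (P a).1 (P b).1 :=
    exists_between (lt_min h1 h2)
  have z1 : ((t, L P v a t) : ℝ × ℝ) ∈ openSegment ℝ (P v) (P a) :=
    mem_os ht1 (lt_of_lt_of_le ht2 (min_le_left _ _))
  have z2 : ((t, L P v b t) : ℝ × ℝ) ∈ openSegment ℝ (P v) (P b) :=
    mem_os ht1 (lt_of_lt_of_le ht2 (min_le_right _ _))
  have : L P v a t = L P v b t := by simp [L, h]
  rw [← this] at z2
  exact hd _ ha _ hb (by simpa using hne) _ z1 z2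

include hE hd in
lemma succ_unique {v a b b' : ι} {m m' : ι} (h : W P E v a b m) (h' : W P E v a b' m') : b = b' := by
  apply slope_inj hE hd h.eb h'.eb
  rcases h.cons b' h'.eb with h1 | h1
  · exact absurd h'.sab (not_lt.mpr h1)
  rcases h'.cons b h.eb with h2 | h2
  · exact absurd h.sab (not_lt.mpr h2)
  exact le_antisymm h1 h2

include hx hE hd hv in
lemma down_aux {v a b v' a' b' m : ι} (h : W P E v a b m) (h' : W P E v' a' b' m)
    (hm : m ≠ a) (hm' : m ≠ a') (hlt : L P v a (P m).1 < L P v' a' (P m).1) : False := by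
  have xma : (P m).1 < (P a).1 := lt_of_le_of_ne h.ma (fun h => hm (hx h))
  have xma' : (P m).1 < (P a').1 := lt_of_le_of_ne h'.ma (fun h => hm' (hx h))
  have hf : L P v' a' (P m).1 < (P m).2 := by
    apply lt_of_le_of_ne h'.la
    intro he
    apply hv _ h'.ea m
    have := mem_os (P := P) (v := v') (a := a') h'.vm xma'
    rw [he] at this
    exact this
  have hfg : L P v' a' (P m).1 < L P v b (P m).1 := lt_of_lt_of_le hf h.lb
  have hef : (v, a) ≠ (v', a') := by
    rintro ⟨⟩
    exact lt_irrefl _ hlt
  have hfgne : (v', a') ≠ (v, b) := by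
    intro he
    obtain ⟨h1, h2⟩ := Prod.mk.inj he
    subst h1; subst h2
    exact lt_irrefl _ hfg
  have eb := hE _ h.eb
  have ea := hE _ h.ea
  have ea' := hE _ h'.ea
  simp only at eb ea ea'
  have vm := h.vm
  have vm' := h'.vm
  have mb := h.mb
  rcases lt_trichotomy (P v).1 (P v').1 with hvv | hvv | hvv
  · have c1 := cmp (hd _ h.ea _ h'.ea hef) (t0 := (P m).1) (t1 := (P v').1)
      ⟨by linarith, by linarith, by linarith, by linarith⟩
      ⟨by linarith, by linarith, by linarith, by linarith⟩ hlt
    have c2 := cmp (hd _ h'.ea _ h.eb hfgne) (t0 := (P m).1) (t1 := (P v').1)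
      ⟨by linarith, by linarith, by linarith, by linarith⟩
      ⟨by linarith, by linarith, by linarith, by linarith⟩ hfg
    rw [L_left] at c1 c2
    exact h.mn v' hvv vm' c1 c2
  · have : v = v' := hx hvv
    subst this
    have s1 : sl P v a < sl P v a' := by
      unfold L at hlt
      have : sl P v a * ((P m).1 - (P v).1) < sl P v a' * ((P m).1 - (P v).1) := by linarith
      exact lt_of_mul_lt_mul_right this (by linarith)
    have s2 : sl P v a' < sl P v b := by
      unfold L at hfg
      have : sl P v a' * ((P m).1 - (P v).1) < sl P v b * ((P m).1 - (P v).1) := by linarith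
      exact lt_of_mul_lt_mul_right this (by linarith)
    rcases h.cons a' h'.ea with h1 | h1
    · linarith
    · linarith
  · have c1 := cmp (hd _ h.ea _ h'.ea hef) (t0 := (P m).1) (t1 := (P v).1)
      ⟨by linarith, by linarith, by linarith, by linarith⟩
      ⟨by linarith, by linarith, by linarith, by linarith⟩ hlt
    have c2 := cmp (hd _ h'.ea _ h.eb hfgne) (t0 := (P m).1) (t1 := (P v).1)
      ⟨by linarith, by linarith, by linarith, by linarith⟩
      ⟨by linarith, by linarith, by linarith, by linarith⟩ hfg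
    rw [L_left] at c1 c2
    have he : L P v' a' (P v).1 = (P v).2 := le_antisymm c2 c1
    apply hv _ h'.ea v
    have := mem_os (P := P) (v := v') (a := a') (t := (P v).1) hvv (by linarith)
    rw [he] at this
    exact this

include hx hE hd hv in
lemma down_unique {v a b v' a' b' m : ι} (h : W P E v a b m) (h' : W P E v' a' b' m)
    (hm : m ≠ a) (hm' : m ≠ a') : v = v' ∧ b = b' := by
  rcases lt_trichotomy (L P v a (P m).1) (L P v' a' (P m).1) with hlt | heq | hlt
  · exact (down_aux hx hE hd hv h h' hm hm' hlt).elim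
  · have xma : (P m).1 < (P a).1 := lt_of_le_of_ne h.ma (fun h => hm (hx h))
    have xma' : (P m).1 < (P a').1 := lt_of_le_of_ne h'.ma (fun h => hm' (hx h))
    have hee : (v, a) = (v', a') := by
      by_contra hne
      have z1 := mem_os (P := P) (v := v) (a := a) h.vm xma
      have z2 := mem_os (P := P) (v := v') (a := a') h'.vm xma'
      rw [← heq] at z2
      exact hd _ h.ea _ h'.ea hne _ z1 z2
    obtain ⟨h1, h2⟩ := Prod.mk.inj hee
    subst h1; subst h2
    exact ⟨rfl, succ_unique hE hd h h'⟩
  · exact (down_aux hx hE hd hv h' h hm' hm hlt).elim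

include hx hE hd hv in
lemma up_aux {v a b v' b' : ι} (h : W P E v a b a) (h' : W P E v' a b' a)
    (hlt : (P v).1 < (P v').1) : False := by
  have ea := hE _ h.ea
  have eb := hE _ h.eb
  have ea' := hE _ h'.ea
  have eb' := hE _ h'.eb
  simp only at ea eb ea' eb'
  have hvne : v ≠ v' := by rintro rfl; exact lt_irrefl _ hlt
  have ga : (P a).2 < L P v b (P a).1 := by
    apply lt_of_le_of_ne h.lb
    intro he
    have hab : (P a).1 < (P b).1 := by
      apply lt_of_le_of_ne h.mb
      intro hh
      have : a = b := hx hh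
      subst this
      exact lt_irrefl _ h.sab
    apply hv _ h.eb a
    have := mem_os (P := P) (v := v) (a := b) (t := (P a).1) h.vm hab
    rw [← he] at this
    exact this
  have ga' : (P a).2 < L P v' b' (P a).1 := by
    apply lt_of_le_of_ne h'.lb
    intro he
    have hab : (P a).1 < (P b').1 := by
      apply lt_of_le_of_ne h'.mb
      intro hh
      have : a = b' := hx hh
      subst this
      exact lt_irrefl _ h'.sab
    apply hv _ h'.eb a
    have := mem_os (P := P) (v := v') (a := b') (t := (P a).1) h'.vm hab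
    rw [← he] at this
    exact this
  have mb := h.mb
  have mb' := h'.mb
  rcases lt_or_ge (P v').2 (L P v a (P v').1) with hy | hy
  · -- v' below the edge va : edge v'b' crosses va
    have c := cmp (hd _ h'.eb _ h.ea (by simpa using fun h => absurd h.symm hvne))
      (t0 := (P v').1) (t1 := (P a).1)
      ⟨by linarith, by linarith, by linarith, by linarith⟩
      ⟨by linarith, by linarith, by linarith, by linarith⟩ (by rw [L_left]; exact hy)
    rw [L_right ea] at c
    linarith
  · rcases le_or_gt (P v').2 (L P v b (P v').1) with hy2 | hy2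
    · exact h.mn v' hlt ea' hy hy2
    · have c := cmp (hd _ h.eb _ h'.ea (by simpa using fun h => absurd h hvne))
        (t0 := (P v').1) (t1 := (P a).1)
        ⟨by linarith, by linarith, by linarith, by linarith⟩
        ⟨by linarith, by linarith, by linarith, by linarith⟩ (by rw [L_left]; exact hy2)
      rw [L_right ea'] at c
      linarith

include hx hE hd hv in
lemma up_unique {v a b v' b' : ι} (h : W P E v a b a) (h' : W P E v' a b' a) :
    v = v' ∧ b = b' := by
  rcases lt_trichotomy (P v).1 (P v').1 with hlt | heq | hlt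
  · exact (up_aux hx hE hd hv h h' hlt).elim
  · have : v = v' := hx heq
    subst this
    exact ⟨rfl, succ_unique hE hd h h'⟩
  · exact (up_aux hx hE hd hv h' h hlt).elim

include hE hd in
lemma wedge_exists [Fintype ι] {v b : ι} (hb : (v, b) ∈ E)
    (hl : ¬ ∀ c, (v, c) ∈ E → sl P v b ≤ sl P v c) : ∃ a m, W P E v a b m := by
  classical
  push Not at hl
  obtain ⟨c, hc, hcl⟩ := hl
  obtain ⟨e, he, hmax⟩ := Finset.exists_max_image
    (E.filter fun e => e.1 = v ∧ sl P v e.2 < sl P v b) (fun e => sl P v e.2)
    ⟨(v, c), by simp [hc, hcl]⟩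
  obtain ⟨v', a⟩ := e
  simp only [Finset.mem_filter] at he
  obtain ⟨hea, rfl, hab⟩ := he
  have ea := hE _ hea
  have eb := hE _ hb
  simp only at ea eb
  have hne : (Finset.univ.filter fun k => (P v').1 < (P k).1 ∧ (P k).1 ≤ (P a).1 ∧
      (P k).1 ≤ (P b).1 ∧ L P v' a (P k).1 ≤ (P k).2 ∧ (P k).2 ≤ L P v' b (P k).1).Nonempty := by
    rcases le_total (P a).1 (P b).1 with h | h
    · refine ⟨a, Finset.mem_filter.mpr ⟨Finset.mem_univ _, ea, le_rfl, h, (L_right ea).le, ?_⟩⟩
      unfold L
      have : sl P v' a * ((P a).1 - (P v').1) ≤ sl P v' b * ((P a).1 - (P v').1) :=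
        mul_le_mul_of_nonneg_right hab.le (by linarith)
      have h3 : (P v').2 + sl P v' a * ((P a).1 - (P v').1) = (P a).2 := L_right ea
      linarith
    · refine ⟨b, Finset.mem_filter.mpr ⟨Finset.mem_univ _, eb, h, le_rfl, ?_, (L_right eb).ge⟩⟩
      have h3 : (P v').2 + sl P v' b * ((P b).1 - (P v').1) = (P b).2 := L_right eb
      unfold L
      have : sl P v' a * ((P b).1 - (P v').1) ≤ sl P v' b * ((P b).1 - (P v').1) :=
        mul_le_mul_of_nonneg_right hab.le (by linarith)
      linarith
  obtain ⟨m, hm, hmin⟩ := Finset.exists_min_image _ (fun k => (P k).1) hne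
  simp only [Finset.mem_filter, Finset.mem_univ, true_and] at hm hmin
  refine ⟨a, m, hea, hb, hab, ?_, hm.1, hm.2.1, hm.2.2.1, hm.2.2.2.1, hm.2.2.2.2, ?_⟩
  · intro c' hc'
    by_contra hcon
    push Not at hcon
    have := hmax (v', c') (by simp [hc', hcon.2])
    simp only at this
    linarith [hcon.1]
  · intro k h1 h2 h3 h4
    have := hmin k ⟨h1, by linarith [hm.2.1], by linarith [hm.2.2.1], h3, h4⟩
    linarith

include hx hE hd hv in
theorem sweep [Fintype ι] [DecidableEq ι] (hn : 2 ≤ Fintype.card ι)
    (H : Finset ι) (hH : ∀ i ∈ H, P i ∈ (convexHull ℝ (Set.range P)).extremePoints ℝ) :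
    E.card + H.card + 3 ≤ 3 * Fintype.card ι := by
  classical
  have : Nonempty ι := Fintype.card_pos_iff.mp (by omega)
  obtain ⟨r, -, hr⟩ := Finset.exists_max_image (Finset.univ : Finset ι) (fun i => (P i).1)
    Finset.univ_nonempty
  obtain ⟨l, -, hl⟩ := Finset.exists_min_image (Finset.univ : Finset ι) (fun i => (P i).1)
    Finset.univ_nonempty
  have hlr : l ≠ r := by
    rintro rfl
    have : ∀ i j : ι, i = j := fun i j =>
      hx (le_antisymm ((hr i (Finset.mem_univ _)).trans (hl j (Finset.mem_univ _)))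
        ((hr j (Finset.mem_univ _)).trans (hl i (Finset.mem_univ _))))
    have : Subsingleton ι := ⟨this⟩
    have := Fintype.card_le_one_iff_subsingleton.mpr this
    omega
  let Low : ι × ι → Prop := fun e => ∀ c, (e.1, c) ∈ E → sl P e.1 e.2 ≤ sl P e.1 c
  have hsplit := Finset.card_filter_add_card_filter_not (s := E) Low
  -- lowest edges
  have h1 : (E.filter Low).card ≤ Fintype.card ι - 1 := by
    have : (E.filter Low).card ≤ (Finset.univ.erase r : Finset ι).card := by
      apply Finset.card_le_card_of_injOn Prod.fst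
      · intro e he
        have he' : e ∈ E := (Finset.mem_filter.mp he).1
        have := hE e he'
        simp only [Finset.coe_erase, Finset.coe_univ, Set.mem_sdiff, Set.mem_univ,
          Set.mem_singleton_iff, true_and]
        intro h
        rw [h] at this
        exact absurd (hr e.2 (Finset.mem_univ _)) (not_le.mpr this)
      · rintro ⟨v, a⟩ ha ⟨v', b⟩ hb hvv
        simp only at hvv
        subst hvv
        have ha' := Finset.mem_filter.mp ha
        have hb' := Finset.mem_filter.mp hb
        have : a = b := slope_inj hE hd ha'.1 hb'.1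
          (le_antisymm (ha'.2 b hb'.1) (hb'.2 a ha'.1))
        rw [this]
    rw [Finset.card_erase_of_mem (Finset.mem_univ _), Finset.card_univ] at this
    exact this
  -- slots
  let Up : Finset ι := Finset.univ.filter fun m => ∃ p q, (P p).1 < (P m).1 ∧ (P m).1 < (P q).1 ∧
    (P m).2 < L P p q (P m).1
  let Dn : Finset ι := Finset.univ.filter fun m => ∃ p q, (P p).1 < (P m).1 ∧ (P m).1 < (P q).1 ∧
    L P p q (P m).1 < (P m).2
  have h2 : (E.filter fun e => ¬ Low e).card ≤ Up.card + Dn.card := by
    have hw : ∀ e : ι × ι, e ∈ E.filter (fun e => ¬ Low e) → ∃ am : ι × ι,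
        W P E e.1 am.1 e.2 am.2 := by
      rintro ⟨v, b⟩ he
      have he' := Finset.mem_filter.mp he
      obtain ⟨a, m, h⟩ := wedge_exists hE hd he'.1 he'.2
      exact ⟨(a, m), h⟩
    choose! am ham using hw
    have hcard : (E.filter fun e => ¬ Low e).card ≤
        (Up.image (fun m => (true, m)) ∪ Dn.image (fun m => (false, m))).card := by
      apply Finset.card_le_card_of_injOn (fun e => (decide ((am e).2 = (am e).1), (am e).2))
      · rintro ⟨v, b⟩ he
        have hW := ham _ he
        show (decide ((am (v, b)).2 = (am (v, b)).1), (am (v, b)).2) ∈ _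
        generalize am (v, b) = x at hW ⊢
        obtain ⟨a, m⟩ := x
        simp only at hW ⊢
        rw [Finset.mem_coe, Finset.mem_union]
        by_cases hma : m = a
        · left
          subst hma
          rw [Finset.mem_image]
          refine ⟨m, ?_, by simp⟩
          rw [Finset.mem_filter]
          have hmb : (P m).1 < (P b).1 := by
            apply lt_of_le_of_ne hW.mb
            intro hh
            have : m = b := hx hh
            subst this
            exact lt_irrefl _ hW.sab
          refine ⟨Finset.mem_univ _, v, b, hW.vm, hmb, ?_⟩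
          apply lt_of_le_of_ne hW.lb
          intro he
          apply hv _ hW.eb m
          have := mem_os (P := P) (v := v) (a := b) (t := (P m).1) hW.vm hmb
          rw [← he] at this
          exact this
        · right
          rw [Finset.mem_image]
          refine ⟨m, ?_, by simp [hma]⟩
          rw [Finset.mem_filter]
          have xma : (P m).1 < (P a).1 := lt_of_le_of_ne hW.ma (fun h => hma (hx h))
          refine ⟨Finset.mem_univ _, v, a, hW.vm, xma, ?_⟩
          apply lt_of_le_of_ne hW.la
          intro he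
          apply hv _ hW.ea m
          have := mem_os (P := P) (v := v) (a := a) (t := (P m).1) hW.vm xma
          rw [he] at this
          exact this
      · rintro ⟨v, b⟩ he ⟨v', b'⟩ he' heq
        have hW := ham _ he
        have hW' := ham _ he'
        simp only [Prod.mk.injEq] at heq
        obtain ⟨hdec, hm⟩ := heq
        generalize am (v, b) = x at hW hdec hm
        generalize am (v', b') = x' at hW' hdec hm
        obtain ⟨a, m⟩ := x
        obtain ⟨a', m'⟩ := x'
        simp only at hW hW' hdec hm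
        subst hm
        by_cases hma : m = a
        · have hma' : m = a' := by
            rw [decide_eq_true hma] at hdec
            exact of_decide_eq_true hdec.symm
          subst hma
          subst hma'
          obtain ⟨h1, h2⟩ := up_unique hx hE hd hv hW hW'
          rw [h1, h2]
        · have hma' : m ≠ a' := by
            rw [decide_eq_false hma] at hdec
            exact of_decide_eq_false hdec.symm
          obtain ⟨h1, h2⟩ := down_unique hx hE hd hv hW hW' hma hma'
          rw [h1, h2]
    refine hcard.trans ((Finset.card_union_le _ _).trans ?_)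
    exact add_le_add Finset.card_image_le Finset.card_image_le
  have h3 : (Up ∪ Dn).card ≤ Fintype.card ι - 2 := by
    have hsub : Up ∪ Dn ⊆ (Finset.univ.erase l).erase r := by
      intro m hm
      rw [Finset.mem_erase, Finset.mem_erase]
      have : ∃ p q, (P p).1 < (P m).1 ∧ (P m).1 < (P q).1 := by
        rcases Finset.mem_union.mp hm with h | h
        · obtain ⟨p, q, h1, h2, -⟩ := (Finset.mem_filter.mp h).2
          exact ⟨p, q, h1, h2⟩
        · obtain ⟨p, q, h1, h2, -⟩ := (Finset.mem_filter.mp h).2
          exact ⟨p, q, h1, h2⟩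
      obtain ⟨p, q, h1, h2⟩ := this
      refine ⟨?_, ?_, Finset.mem_univ _⟩
      · rintro rfl
        exact absurd (hr q (Finset.mem_univ _)) (not_le.mpr h2)
      · rintro rfl
        exact absurd (hl p (Finset.mem_univ _)) (not_le.mpr h1)
    have := Finset.card_le_card hsub
    rw [Finset.card_erase_of_mem (by simp [hlr.symm]), Finset.card_erase_of_mem (Finset.mem_univ _),
      Finset.card_univ] at this
    omega
  have h4 : (Up ∩ Dn).card + H.card ≤ Fintype.card ι := by
    rw [← Finset.card_union_of_disjoint, ← Finset.card_univ]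
    · exact Finset.card_le_card (Finset.subset_univ _)
    · rw [Finset.disjoint_left]
      intro m hm hmH
      obtain ⟨hmU, hmD⟩ := Finset.mem_inter.mp hm
      obtain ⟨p, q, u1, u2, u3⟩ := (Finset.mem_filter.mp hmU).2
      obtain ⟨p', q', d1, d2, d3⟩ := (Finset.mem_filter.mp hmD).2
      have z1 := mem_os (P := P) (v := p) (a := q) (t := (P m).1) u1 u2
      have z2 := mem_os (P := P) (v := p') (a := q') (t := (P m).1) d1 d2
      have c1 : (((P m).1, L P p q (P m).1) : ℝ × ℝ) ∈ convexHull ℝ (Set.range P) :=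
        (convex_convexHull ℝ _).openSegment_subset
          (subset_convexHull ℝ _ (Set.mem_range_self p)) (subset_convexHull ℝ _ (Set.mem_range_self q)) z1
      have c2 : (((P m).1, L P p' q' (P m).1) : ℝ × ℝ) ∈ convexHull ℝ (Set.range P) :=
        (convex_convexHull ℝ _).openSegment_subset
          (subset_convexHull ℝ _ (Set.mem_range_self p')) (subset_convexHull ℝ _ (Set.mem_range_self q')) z2
      have hext := hH m hmH
      have hseg : P m ∈ openSegment ℝ (((P m).1, L P p q (P m).1) : ℝ × ℝ)
          (((P m).1, L P p' q' (P m).1) : ℝ × ℝ) := by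
        obtain ⟨A, hA⟩ : ∃ A, A = L P p q (P m).1 - (P m).2 := ⟨_, rfl⟩
        obtain ⟨B, hB⟩ : ∃ B, B = (P m).2 - L P p' q' (P m).1 := ⟨_, rfl⟩
        have hA0 : 0 < A := by linarith
        have hB0 : 0 < B := by linarith
        refine ⟨B / (A + B), A / (A + B), by positivity, by positivity, by field_simp; ring, ?_⟩
        have e1 : L P p q (P m).1 = (P m).2 + A := by linarith
        have e2 : L P p' q' (P m).1 = (P m).2 - B := by linarith
        rw [e1, e2]
        ext
        · simp only [Prod.fst_add, Prod.smul_fst, smul_eq_mul]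
          field_simp
          ring
        · simp only [Prod.snd_add, Prod.smul_snd, smul_eq_mul]
          field_simp
          ring
      have := hext.2 c1 c2 hseg
      have h5 := congrArg Prod.snd this
      simp only at h5
      linarith
  have h5 := Finset.card_union_add_card_inter Up Dn
  omega

end

end Pool.Agent.X51.GK
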