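import Mathlib

/-!
Peeling: planar point sets in general position, visible points, existence of large plane edge sets.
-/

namespace Pool.Agent.X51.GK

variable {ι : Type*}

/-- the open segments `ab` and `cd` meet -/
def X (P : ι → ℝ × ℝ) (a b c d : ι) : Prop :=
  ∃ z, z ∈ openSegment ℝ (P a) (P b) ∧ z ∈ openSegment ℝ (P c) (P d)

/-- three distinct points are affinely independent -/
def GP (P : ι → ℝ × ℝ) : Prop :=
  ∀ i j k, i ≠ j → i ≠ k → j ≠ k → ∀ α β γ : ℝ, α + β + γ = 0 →
    α • P i + β • P j + γ • P k = 0 → α = 0 ∧ β = 0 ∧ γ = 0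

lemma gp_of_not_collinear {p q r : ℝ × ℝ} (h : ¬ Collinear ℝ ({p, q, r} : Set (ℝ × ℝ)))
    (α β γ : ℝ) (hs : α + β + γ = 0) (h0 : α • p + β • q + γ • r = 0) :
    α = 0 ∧ β = 0 ∧ γ = 0 := by
  by_contra hcon
  apply h
  have hα : α = -β - γ := by linarith
  have e1 : β • (q - p) + γ • (r - p) = 0 := by
    rw [← h0, hα]; module
  rw [collinear_iff_of_mem (p₀ := p) (by simp)]
  by_cases hγ : γ = 0
  · have hβ : β ≠ 0 := by
      intro hb
      apply hcon
      refine ⟨by rw [hα, hb, hγ]; ring, hb, hγ⟩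
    have : q = p := by
      rw [hγ, zero_smul, add_zero] at e1
      rcases smul_eq_zero.mp e1 with h1 | h1
      · exact absurd h1 hβ
      · exact sub_eq_zero.mp h1
    refine ⟨r - p, ?_⟩
    intro s hs'
    simp only [Set.mem_insert_iff, Set.mem_singleton_iff] at hs'
    rcases hs' with rfl | rfl | rfl
    · exact ⟨0, by simp⟩
    · exact ⟨0, by simp [this]⟩
    · exact ⟨1, by simp⟩
  · refine ⟨q - p, ?_⟩
    intro s hs'
    simp only [Set.mem_insert_iff, Set.mem_singleton_iff] at hs'
    rcases hs' with rfl | rfl | rfl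
    · exact ⟨0, by simp⟩
    · exact ⟨1, by simp⟩
    · refine ⟨-(β / γ), ?_⟩
      have h2 : γ • (s - p) = -(β • (q - p)) := by
        rw [eq_neg_iff_add_eq_zero, add_comm]; exact e1
      have h3 : s - p = γ⁻¹ • (-(β • (q - p))) := by
        rw [← h2, smul_smul, inv_mul_cancel₀ hγ, one_smul]
      rw [vadd_eq_add]
      have h4 : s = (s - p) + p := by abel
      rw [h4, h3]
      rw [div_eq_mul_inv]
      module

/-- extreme in `S` -/
def Ext (P : ι → ℝ × ℝ) [DecidableEq ι] (S : Finset ι) (i : ι) : Prop :=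
  P i ∉ convexHull ℝ (P '' ((S.erase i : Finset ι) : Set ι))

/-- `u` is a tangent point from `x` -/
def Tan (P : ι → ℝ × ℝ) (S : Finset ι) (x u : ι) : Prop :=
  ∃ α β γ : ℝ, α * (P x).1 + β * (P x).2 + γ = 0 ∧ α * (P u).1 + β * (P u).2 + γ = 0 ∧
    ∀ s ∈ S, s ≠ u → 0 < α * (P s).1 + β * (P s).2 + γ

lemma tan_vis {P : ι → ℝ × ℝ} {S : Finset ι} {x u : ι} (h : Tan P S x u) {p q : ι}
    (hp : p ∈ S) (hq : q ∈ S) (hpu : p ≠ u) (hqu : q ≠ u) : ¬ X P x u p q := by
  obtain ⟨α, β, γ, h1, h2, h3⟩ := h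
  rintro ⟨z, ⟨a, b, ha, hb, hab, hz⟩, ⟨c, d, hc, hd, hcd, hz'⟩⟩
  have z1 : z.1 = a * (P x).1 + b * (P u).1 := by rw [← hz]; simp
  have z2 : z.2 = a * (P x).2 + b * (P u).2 := by rw [← hz]; simp
  have w1 : z.1 = c * (P p).1 + d * (P q).1 := by rw [← hz']; simp
  have w2 : z.2 = c * (P p).2 + d * (P q).2 := by rw [← hz']; simp
  have f1 : α * z.1 + β * z.2 + γ = 0 := by
    rw [z1, z2]
    have : γ = (a + b) * γ := by rw [hab, one_mul]
    rw [this]
    linear_combination a * h1 + b * h2
  have f2 : α * z.1 + β * z.2 + γ > 0 := by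
    rw [w1, w2]
    have : γ = (c + d) * γ := by rw [hcd, one_mul]
    rw [this]
    have := mul_pos hc (h3 p hp hpu)
    have := mul_pos hd (h3 q hq hqu)
    nlinarith
  linarith

lemma tan_ext [DecidableEq ι] {P : ι → ℝ × ℝ} (hinj : Function.Injective P) {S : Finset ι} {x u : ι}
    (h : Tan P S x u) (hxu : x ≠ u) : Ext P (insert x S) u := by
  obtain ⟨α, β, γ, h1, h2, h3⟩ := h
  intro hmem
  have hconv : Convex ℝ ({z : ℝ × ℝ | 0 < α * z.1 + β * z.2 + γ} ∪ {P x}) := by
    intro z hz w hw a b ha hb hab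
    have key : α * (a • z + b • w).1 + β * (a • z + b • w).2 + γ =
        a * (α * z.1 + β * z.2 + γ) + b * (α * w.1 + β * w.2 + γ) := by
      have : γ = (a + b) * γ := by rw [hab, one_mul]
      simp only [Prod.fst_add, Prod.smul_fst, Prod.snd_add, Prod.smul_snd, smul_eq_mul]
      linear_combination this
    rcases hz with hz | hz
    · rcases hw with hw | hw
      · left
        simp only [Set.mem_ofPred_eq] at hz hw ⊢
        rw [key]
        rcases eq_or_lt_of_le ha with h0 | h0
        · rw [← h0] at hab ⊢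
          have : b = 1 := by linarith
          rw [this]; linarith
        · have := mul_pos h0 hz
          have := mul_nonneg hb hw.le
          linarith
      · simp only [Set.mem_ofPred_eq] at hz
        rw [Set.mem_singleton_iff] at hw
        subst hw
        rcases eq_or_lt_of_le ha with h0 | h0
        · right
          rw [← h0] at hab ⊢
          have : b = 1 := by linarith
          rw [this]; simp
        · left
          simp only [Set.mem_ofPred_eq]
          rw [key, h1]
          have := mul_pos h0 hz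
          linarith
    · rw [Set.mem_singleton_iff] at hz
      subst hz
      rcases hw with hw | hw
      · simp only [Set.mem_ofPred_eq] at hw
        rcases eq_or_lt_of_le hb with h0 | h0
        · right
          rw [← h0] at hab ⊢
          have : a = 1 := by linarith
          rw [this]; simp
        · left
          simp only [Set.mem_ofPred_eq]
          rw [key, h1]
          have := mul_pos h0 hw
          linarith
      · right
        rw [Set.mem_singleton_iff] at hw ⊢
        rw [hw, ← add_smul, hab, one_smul]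
  have hsub : P '' (((insert x S).erase u : Finset ι) : Set ι) ⊆
      {z : ℝ × ℝ | 0 < α * z.1 + β * z.2 + γ} ∪ {P x} := by
    rintro _ ⟨s, hs, rfl⟩
    have hs' := Finset.mem_erase.mp (Finset.mem_coe.mp hs)
    rcases Finset.mem_insert.mp hs'.2 with rfl | hsS
    · right; rfl
    · left; exact h3 s hsS hs'.1
  rcases convexHull_min hsub hconv hmem with h | h
  · simp only [Set.mem_ofPred_eq] at h
    linarith
  · exact hxu (hinj h).symm

lemma lost_vis [DecidableEq ι] {P : ι → ℝ × ℝ} {S : Finset ι} {x u : ι} (hxS : x ∉ S) (huS : u ∈ S)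
    (hne : (S.erase u).Nonempty) (hE : Ext P S u) (hL : ¬ Ext P (insert x S) u) {p q : ι}
    (hp : p ∈ S) (hq : q ∈ S) (hpu : p ≠ u) (hqu : q ≠ u) : ¬ X P x u p q := by
  rintro ⟨y, hy1, hy2⟩
  have hxu : x ≠ u := by rintro rfl; exact hxS huS
  unfold Ext at hL
  rw [not_not, Finset.erase_insert_of_ne hxu, Finset.coe_insert, Set.image_insert_eq,
    convexHull_insert ((Finset.coe_nonempty.mpr hne).image P), mem_convexJoin] at hL
  obtain ⟨x', hx', c, hc, hseg⟩ := hL
  rw [Set.mem_singleton_iff] at hx'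
  subst hx'
  have hyS : y ∈ convexHull ℝ (P '' ((S.erase u : Finset ι) : Set ι)) := by
    apply (convex_convexHull ℝ _).openSegment_subset _ _ hy2
    · exact subset_convexHull ℝ _ ⟨p, by simp [hp, hpu], rfl⟩
    · exact subset_convexHull ℝ _ ⟨q, by simp [hq, hqu], rfl⟩
  apply hE
  obtain ⟨a, b, ha, hb, hab, hu⟩ := hseg
  obtain ⟨s, t, hs, ht, hst, hy⟩ := hy1
  -- u = a x + b c,  y = s x + t u
  have hpos : 0 < a * t + s := by
    have := mul_nonneg ha ht.le
    linarith
  have : P u = (a / (a * t + s)) • y + ((s * b) / (a * t + s)) • c := by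
    have h1 : (a * t + s) • P u = a • y + (s * b) • c := by
      rw [← hy]
      have h2 : s • P u = (s * a) • P x + (s * b) • c := by
        rw [← hu]; module
      calc (a * t + s) • P u = (a * t) • P u + s • P u := by module
        _ = (a * t) • P u + ((s * a) • P x + (s * b) • c) := by rw [h2]
        _ = a • (s • P x + t • P u) + (s * b) • c := by module
    have h3 : P u = (a * t + s)⁻¹ • ((a * t + s) • P u) := by
      rw [smul_smul, inv_mul_cancel₀ hpos.ne', one_smul]
    rw [h3, h1, div_eq_mul_inv, div_eq_mul_inv]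
    module
  rw [this]
  apply (convex_convexHull ℝ _) hyS hc
  · positivity
  · positivity
  · rw [← add_div, div_eq_one_iff_eq hpos.ne']
    have hb' : b = 1 - a := by linarith
    have ht' : t = 1 - s := by linarith
    rw [hb', ht']; ring

lemma det_ne {P : ι → ℝ × ℝ} (hinj : Function.Injective P) (hP : GP P) {x u s : ι} (h1 : x ≠ u)
    (h2 : x ≠ s) (h3 : u ≠ s) : ((P u).1 - (P x).1) * ((P s).2 - (P x).2) -
      ((P u).2 - (P x).2) * ((P s).1 - (P x).1) ≠ 0 := by
  intro h0
  have e1 := hP x u s h1 h2 h3 (-((P s).1 - (P x).1) + ((P u).1 - (P x).1)) ((P s).1 - (P x).1)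
    (-((P u).1 - (P x).1)) (by ring) (by
      ext
      · simp only [Prod.fst_add, Prod.smul_fst, smul_eq_mul, Prod.fst_zero]; ring
      · simp only [Prod.snd_add, Prod.smul_snd, smul_eq_mul, Prod.snd_zero]; linear_combination -h0)
  have e2 := hP x u s h1 h2 h3 (-((P s).2 - (P x).2) + ((P u).2 - (P x).2)) ((P s).2 - (P x).2)
    (-((P u).2 - (P x).2)) (by ring) (by
      ext
      · simp only [Prod.fst_add, Prod.smul_fst, smul_eq_mul, Prod.fst_zero]; linear_combination h0
      · simp only [Prod.snd_add, Prod.smul_snd, smul_eq_mul, Prod.snd_zero]; ring)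
  apply h1
  apply hinj
  ext
  · linarith [e1.2.2]
  · linarith [e2.2.2]

lemma tangents {P : ι → ℝ × ℝ} (hinj : Function.Injective P) (hP : GP P) {S : Finset ι} {x : ι}
    (hxS : x ∉ S) (hS : 2 ≤ S.card) (hx : P x ∉ convexHull ℝ (P '' (S : Set ι))) :
    ∃ u ∈ S, ∃ w ∈ S, u ≠ w ∧ Tan P S x u ∧ Tan P S x w := by
  have hSne : S.Nonempty := Finset.card_pos.mp (by omega)
  obtain ⟨f, c, hfc, hf⟩ := geometric_hahn_banach_point_closed (convex_convexHull ℝ _)
    (((S.finite_toSet).image P).isClosed_convexHull ℝ) hx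
  obtain ⟨α, hα⟩ : ∃ α, α = f (1, 0) := ⟨_, rfl⟩
  obtain ⟨β, hβ⟩ : ∃ β, β = f (0, 1) := ⟨_, rfl⟩
  have hlin : ∀ z : ℝ × ℝ, f z = α * z.1 + β * z.2 := by
    intro z
    have : z = z.1 • ((1, 0) : ℝ × ℝ) + z.2 • ((0, 1) : ℝ × ℝ) := by
      ext <;> simp
    rw [this, map_add, map_smul, map_smul, ← hα, ← hβ]
    simp [mul_comm]
  have hpos : ∀ s ∈ S, 0 < α * ((P s).1 - (P x).1) + β * ((P s).2 - (P x).2) := by
    intro s hs
    have h1 := hf (P s) (subset_convexHull ℝ _ ⟨s, hs, rfl⟩)
    rw [hlin] at h1 hfc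
    linarith
  -- slopes
  let F : ι → ℝ := fun s => α * ((P s).1 - (P x).1) + β * ((P s).2 - (P x).2)
  let G : ι → ℝ := fun s => -β * ((P s).1 - (P x).1) + α * ((P s).2 - (P x).2)
  have hF : ∀ s ∈ S, 0 < F s := hpos
  have hid : ∀ u s, F u * G s - G u * F s = (α ^ 2 + β ^ 2) *
      (((P u).1 - (P x).1) * ((P s).2 - (P x).2) - ((P u).2 - (P x).2) * ((P s).1 - (P x).1)) := by
    intro u s
    simp only [F, G]; ring
  have hab : 0 < α ^ 2 + β ^ 2 := by
    obtain ⟨s, hs⟩ := hSne
    have := hpos s hs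
    by_contra hcon
    have h1 : α = 0 := by nlinarith [sq_nonneg α, sq_nonneg β]
    have h2 : β = 0 := by nlinarith [sq_nonneg α, sq_nonneg β]
    rw [h1, h2] at this
    linarith
  obtain ⟨u, hu, humin⟩ := Finset.exists_min_image S (fun s => G s / F s) hSne
  obtain ⟨w, hw, hwmax⟩ := Finset.exists_max_image S (fun s => G s / F s) hSne
  have hxs : ∀ s ∈ S, x ≠ s := by rintro s hs rfl; exact hxS hs
  have hdu : ∀ s ∈ S, s ≠ u → 0 < ((P u).1 - (P x).1) * ((P s).2 - (P x).2) -
      ((P u).2 - (P x).2) * ((P s).1 - (P x).1) := by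
    intro s hs hsu
    have h1 := humin s hs
    rw [div_le_div_iff₀ (hF u hu) (hF s hs)] at h1
    have h2 := hid u s
    have h3 : 0 ≤ (α ^ 2 + β ^ 2) * (((P u).1 - (P x).1) * ((P s).2 - (P x).2) -
        ((P u).2 - (P x).2) * ((P s).1 - (P x).1)) := by rw [← h2]; linarith
    have h4 := nonneg_of_mul_nonneg_right h3 hab
    exact lt_of_le_of_ne h4 (Ne.symm (det_ne hinj hP (hxs u hu) (hxs s hs) (Ne.symm hsu)))
  have hdw : ∀ s ∈ S, s ≠ w → ((P w).1 - (P x).1) * ((P s).2 - (P x).2) -
      ((P w).2 - (P x).2) * ((P s).1 - (P x).1) < 0 := by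
    intro s hs hsw
    have h1 := hwmax s hs
    rw [div_le_div_iff₀ (hF s hs) (hF w hw)] at h1
    have h2 := hid w s
    have h3 : (α ^ 2 + β ^ 2) * (((P w).1 - (P x).1) * ((P s).2 - (P x).2) -
        ((P w).2 - (P x).2) * ((P s).1 - (P x).1)) ≤ 0 := by rw [← h2]; linarith
    have h4 := nonpos_of_mul_nonpos_right h3 hab
    exact lt_of_le_of_ne h4 (det_ne hinj hP (hxs w hw) (hxs s hs) (Ne.symm hsw))
  refine ⟨u, hu, w, hw, ?_, ?_, ?_⟩
  · rintro rfl
    obtain ⟨s, hs, hsu⟩ : ∃ s ∈ S, s ≠ u := by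
      by_contra hcon
      push Not at hcon
      have : S ⊆ {u} := fun s hs => Finset.mem_singleton.mpr (hcon s hs)
      have := Finset.card_le_card this
      simp at this
      omega
    have h1 := hdu s hs hsu
    have h2 := hdw s hs hsu
    linarith
  · refine ⟨-((P u).2 - (P x).2), ((P u).1 - (P x).1),
      ((P u).2 - (P x).2) * (P x).1 - ((P u).1 - (P x).1) * (P x).2, by ring, by ring, ?_⟩
    intro s hs hsu
    have := hdu s hs hsu
    linarith
  · refine ⟨((P w).2 - (P x).2), -((P w).1 - (P x).1),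
      -((P w).2 - (P x).2) * (P x).1 + ((P w).1 - (P x).1) * (P x).2, by ring, by ring, ?_⟩
    intro s hs hsw
    have := hdw s hs hsw
    linarith

end Pool.Agent.X51.GK
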