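import Mathlib
import Pool.Agent.X51.GK2

/-!
Convex quadrilaterals, one-step lemma and peeling.
-/

namespace Pool.Agent.X51.GK

variable {ι : Type*}

lemma X.symm1 {P : ι → ℝ × ℝ} {a b c d : ι} (h : X P a b c d) : X P b a c d := by
  obtain ⟨z, h1, h2⟩ := h
  exact ⟨z, by rw [openSegment_symm]; exact h1, h2⟩

lemma X.symm2 {P : ι → ℝ × ℝ} {a b c d : ι} (h : X P a b c d) : X P a b d c := by
  obtain ⟨z, h1, h2⟩ := h
  exact ⟨z, h1, by rw [openSegment_symm]; exact h2⟩

lemma X.swap {P : ι → ℝ × ℝ} {a b c d : ι} (h : X P a b c d) : X P c d a b := by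
  obtain ⟨z, h1, h2⟩ := h
  exact ⟨z, h2, h1⟩

/-- two cevians of a triangle meet -/
lemma cevians {P : ι → ℝ × ℝ} {a b c d x : ι} (h1 : X P x b c d) (h2 : X P x d a b) :
    X P a b c d := by
  obtain ⟨y1, ⟨r1, s1, hr1, hs1, hrs1, e1⟩, ⟨p1, q1, hp1, hq1, hpq1, f1⟩⟩ := h1
  obtain ⟨y2, ⟨r2, s2, hr2, hs2, hrs2, e2⟩, ⟨p2, q2, hp2, hq2, hpq2, f2⟩⟩ := h2
  have hs1' : s1 < 1 := by linarith
  have hs2' : s2 < 1 := by linarith
  have hD : 0 < 1 - s1 * s2 := by nlinarith
  obtain ⟨l, hl⟩ : ∃ l, l = r2 / (1 - s1 * s2) := ⟨_, rfl⟩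
  obtain ⟨m, hm⟩ : ∃ m, m = r1 / (1 - s1 * s2) := ⟨_, rfl⟩
  have hl0 : 0 < l := by rw [hl]; positivity
  have hm0 : 0 < m := by rw [hm]; positivity
  have hl1 : l < 1 := by
    rw [hl, div_lt_one hD]; nlinarith
  have hm1 : m < 1 := by
    rw [hm, div_lt_one hD]; nlinarith
  have k1 : l * r1 = m * r2 := by rw [hl, hm]; ring
  have k2 : l * s1 = 1 - m := by
    rw [hl, hm]; field_simp
    rw [show r2 = 1 - s2 by linarith, show r1 = 1 - s1 by linarith]; ring
  have k3 : m * s2 = 1 - l := by
    rw [hl, hm]; field_simp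
    rw [show r2 = 1 - s2 by linarith, show r1 = 1 - s1 by linarith]; ring
  refine ⟨(l * p1) • P c + (1 - l * p1) • P d, ?_, ?_⟩
  · refine ⟨m * p2, 1 - m * p2, by positivity, by nlinarith, by ring, ?_⟩
    have g1 : p1 • P c = r1 • P x + s1 • P b - q1 • P d := by
      rw [← e1] at f1
      rw [eq_sub_iff_add_eq]; exact f1
    have g2 : p2 • P a = r2 • P x + s2 • P d - q2 • P b := by
      rw [← e2] at f2
      rw [eq_sub_iff_add_eq]; exact f2
    have c1 : (l * p1) • P c = l • (p1 • P c) := by rw [smul_smul]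
    have c2 : (m * p2) • P a = m • (p2 • P a) := by rw [smul_smul]
    rw [c1, c2, g1, g2]
    have q1' : q1 = 1 - p1 := by linarith
    have q2' : q2 = 1 - p2 := by linarith
    have key : m • (r2 • P x + s2 • P d - q2 • P b) + (1 - m * p2) • P b -
        (l • (r1 • P x + s1 • P b - q1 • P d) + (1 - l * p1) • P d) =
        (m * r2 - l * r1) • P x + (m * s2 - (1 - l)) • P d + ((1 - m) - l * s1) • P b := by
      rw [q1', q2']; module
    have : m • (r2 • P x + s2 • P d - q2 • P b) + (1 - m * p2) • P b -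
        (l • (r1 • P x + s1 • P b - q1 • P d) + (1 - l * p1) • P d) = 0 := by
      rw [key, k1, k2, k3]; simp
    exact sub_eq_zero.mp this
  · exact ⟨l * p1, 1 - l * p1, by positivity, by nlinarith, by ring, rfl⟩

/-- core of the location lemma -/
lemma locate_core {P : ι → ℝ × ℝ} (hP : GP P) {a b c d x : ι} (hab : a ≠ b) (hcd : c ≠ d)
    (hxa : x ≠ a) (hxb : x ≠ b) (hxc : x ≠ c) (hxd : x ≠ d)
    {p q r s : ℝ} (hp : 0 < p) (hq : 0 < q) (hpq : p + q = 1) (hr : 0 < r) (hs : 0 < s)
    (hrs : r + s = 1) (hO : p • P a + q • P b = r • P c + s • P d)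
    {wa wb wc wd : ℝ} (hwb : 0 ≤ wb) (hwd : 0 ≤ wd)
    (hw : wa + wb + wc + wd = 1) (hxw : P x = wa • P a + wb • P b + wc • P c + wd • P d)
    (h1 : wb * p ≤ wa * q) (h2 : wd * r ≤ wc * s) : X P x b c d ∧ X P x d a b := by
  obtain ⟨A, hA⟩ : ∃ A, A = wa - wb * p / q := ⟨_, rfl⟩
  obtain ⟨C, hC⟩ : ∃ C, C = wc - wd * r / s := ⟨_, rfl⟩
  have hA0 : 0 ≤ A := by
    rw [hA, sub_nonneg, div_le_iff₀ hq]; exact h1
  have hC0 : 0 ≤ C := by
    rw [hC, sub_nonneg, div_le_iff₀ hs]; exact h2
  have hwO : 0 ≤ wb / q + wd / s := by positivity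
  obtain ⟨w, hwdef⟩ : ∃ w, w = wb / q + wd / s := ⟨_, rfl⟩
  have hw0 : 0 ≤ w := by rw [hwdef]; exact hwO
  have hsum : A + C + w = 1 := by
    rw [hA, hC, hwdef]
    have e1 : wb / q - wb * p / q = wb := by
      field_simp; rw [show q = 1 - p by linarith]
    have e2 : wd / s - wd * r / s = wd := by
      field_simp; rw [show s = 1 - r by linarith]
    linarith
  -- x = A a + C c + w O
  have hx1 : P x = A • P a + C • P c + w • (p • P a + q • P b) := by
    have e1 : (wb / q) • (p • P a + q • P b) = (wb * p / q) • P a + wb • P b := by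
      rw [smul_add, smul_smul, smul_smul]
      congr 2 <;> field_simp
    have e2 : (wd / s) • (p • P a + q • P b) = (wd * r / s) • P c + wd • P d := by
      rw [hO, smul_add, smul_smul, smul_smul]
      congr 2 <;> field_simp
    rw [hwdef, add_smul, e1, e2, hA, hC, hxw]
    module
  have hApos : 0 < A := by
    apply lt_of_le_of_ne hA0
    intro h
    have h3 : P x = C • P c + w • (r • P c + s • P d) := by
      rw [← hO, hx1, ← h]; simp
    have := hP x c d hxc hxd hcd (-1) (C + w * r) (w * s) (by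
      rw [← h] at hsum
      rw [show s = 1 - r by linarith]; linarith) (by rw [h3]; module)
    linarith [this.1]
  have hCpos : 0 < C := by
    apply lt_of_le_of_ne hC0
    intro h
    have h3 : P x = A • P a + w • (p • P a + q • P b) := by
      rw [hx1, ← h]; simp
    have := hP x a b hxa hxb hab (-1) (A + w * p) (w * q) (by
      rw [← h] at hsum
      rw [show q = 1 - p by linarith]; linarith) (by rw [h3]; module)
    linarith [this.1]
  constructor
  · obtain ⟨k, hk⟩ : ∃ k, k = A * q / p := ⟨_, rfl⟩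
    have hk0 : 0 < k := by rw [hk]; positivity
    have hkp : k * p = A * q := by rw [hk]; field_simp
    refine ⟨(1 / (1 + k)) • P x + (k / (1 + k)) • P b,
      ⟨1 / (1 + k), k / (1 + k), by positivity, by positivity, by field_simp, rfl⟩, ?_⟩
    refine ⟨(C + (1 + k - C) * r) / (1 + k), ((1 + k - C) * s) / (1 + k), ?_, ?_, ?_, ?_⟩
    · have : 0 < 1 + k - C := by linarith
      positivity
    · have : 0 < 1 + k - C := by linarith
      positivity
    · rw [← add_div, div_eq_one_iff_eq (by positivity)]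
      rw [show s = 1 - r by linarith]; ring
    · have e1 : (1 + k) • ((1 / (1 + k)) • P x + (k / (1 + k)) • P b) = P x + k • P b := by
        rw [smul_add, smul_smul, smul_smul]
        congr 1
        · rw [mul_one_div_cancel (by positivity), one_smul]
        · congr 1; field_simp
      have e2 : (1 + k) • (((C + (1 + k - C) * r) / (1 + k)) • P c +
          (((1 + k - C) * s) / (1 + k)) • P d) = C • P c + (1 + k - C) • (r • P c + s • P d) := by
        rw [smul_add, smul_smul, smul_smul, mul_div_cancel₀ _ (by positivity),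
          mul_div_cancel₀ _ (by positivity)]
        module
      have e3 : P x + k • P b = C • P c + (1 + k - C) • (r • P c + s • P d) := by
        rw [← hO, hx1]
        have : (A • P a + C • P c + w • (p • P a + q • P b) + k • P b) -
            (C • P c + (1 + k - C) • (p • P a + q • P b)) =
            (A + w * p - (1 + k - C) * p) • P a + (w * q + k - (1 + k - C) * q) • P b := by module
        have z1 : A + w * p - (1 + k - C) * p = 0 := by
          have : w = 1 - A - C := by linarith
          rw [this]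
          have : A * p + A * q = A := by rw [← mul_add, hpq, mul_one]
          linarith
        have z2 : w * q + k - (1 + k - C) * q = 0 := by
          have : w = 1 - A - C := by linarith
          rw [this]
          have : k * p + k * q = k := by rw [← mul_add, hpq, mul_one]
          linarith
        rw [z1, z2, zero_smul, zero_smul, add_zero] at this
        exact sub_eq_zero.mp this
      have hk1 : (1 + k) ≠ 0 := by positivity
      have e4 := e2.trans (e3.symm.trans e1.symm)
      exact (smul_right_injective _ hk1) e4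
  · obtain ⟨k, hk⟩ : ∃ k, k = C * s / r := ⟨_, rfl⟩
    have hk0 : 0 < k := by rw [hk]; positivity
    have hkp : k * r = C * s := by rw [hk]; field_simp
    refine ⟨(1 / (1 + k)) • P x + (k / (1 + k)) • P d,
      ⟨1 / (1 + k), k / (1 + k), by positivity, by positivity, by field_simp, rfl⟩, ?_⟩
    refine ⟨(A + (1 + k - A) * p) / (1 + k), ((1 + k - A) * q) / (1 + k), ?_, ?_, ?_, ?_⟩
    · have : 0 < 1 + k - A := by linarith
      positivity
    · have : 0 < 1 + k - A := by linarith
      positivity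
    · rw [← add_div, div_eq_one_iff_eq (by positivity)]
      rw [show q = 1 - p by linarith]; ring
    · have e1 : (1 + k) • ((1 / (1 + k)) • P x + (k / (1 + k)) • P d) = P x + k • P d := by
        rw [smul_add, smul_smul, smul_smul]
        congr 1
        · rw [mul_one_div_cancel (by positivity), one_smul]
        · congr 1; field_simp
      have e2 : (1 + k) • (((A + (1 + k - A) * p) / (1 + k)) • P a +
          (((1 + k - A) * q) / (1 + k)) • P b) = A • P a + (1 + k - A) • (p • P a + q • P b) := by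
        rw [smul_add, smul_smul, smul_smul, mul_div_cancel₀ _ (by positivity),
          mul_div_cancel₀ _ (by positivity)]
        module
      have e3 : P x + k • P d = A • P a + (1 + k - A) • (p • P a + q • P b) := by
        rw [hx1, hO]
        have : (A • P a + C • P c + w • (r • P c + s • P d) + k • P d) -
            (A • P a + (1 + k - A) • (r • P c + s • P d)) =
            (C + w * r - (1 + k - A) * r) • P c + (w * s + k - (1 + k - A) * s) • P d := by module
        have z1 : C + w * r - (1 + k - A) * r = 0 := by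
          have : w = 1 - A - C := by linarith
          rw [this]
          have : C * r + C * s = C := by rw [← mul_add, hrs, mul_one]
          linarith
        have z2 : w * s + k - (1 + k - A) * s = 0 := by
          have : w = 1 - A - C := by linarith
          rw [this]
          have : k * r + k * s = k := by rw [← mul_add, hrs, mul_one]
          linarith
        rw [z1, z2, zero_smul, zero_smul, add_zero] at this
        exact sub_eq_zero.mp this
      have hk1 : (1 + k) ≠ 0 := by positivity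
      have e4 := e2.trans (e3.symm.trans e1.symm)
      exact (smul_right_injective _ hk1) e4

/-- a point of the convex hull of a crossing quadruple -/
lemma weights4 {p q r s z : ℝ × ℝ} (hz : z ∈ convexHull ℝ ({p, q, r, s} : Set (ℝ × ℝ))) :
    ∃ wa wb wc wd : ℝ, 0 ≤ wa ∧ 0 ≤ wb ∧ 0 ≤ wc ∧ 0 ≤ wd ∧ wa + wb + wc + wd = 1 ∧
      z = wa • p + wb • q + wc • r + wd • s := by
  rw [convexHull_insert (by simp), mem_convexJoin] at hz
  obtain ⟨p', hp', e1, he1, a1, b1, ha1, hb1, hab1, rfl⟩ := hz
  rw [Set.mem_singleton_iff] at hp'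
  subst hp'
  rw [convexHull_insert (by simp), mem_convexJoin] at he1
  obtain ⟨q', hq', e2, he2, a2, b2, ha2, hb2, hab2, rfl⟩ := he1
  rw [Set.mem_singleton_iff] at hq'
  subst hq'
  rw [convexHull_pair] at he2
  obtain ⟨a3, b3, ha3, hb3, hab3, rfl⟩ := he2
  refine ⟨a1, b1 * a2, b1 * (b2 * a3), b1 * (b2 * b3), ha1, by positivity, by positivity,
    by positivity, ?_, by module⟩
  have : b1 * (b2 * a3) + b1 * (b2 * b3) = b1 * b2 := by
    rw [← mul_add, ← mul_add, hab3, mul_one]
  have h2 : b1 * a2 + b1 * b2 = b1 := by rw [← mul_add, hab2, mul_one]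
  linarith

lemma locate {P : ι → ℝ × ℝ} (hP : GP P) {a b c d x : ι} (hab : a ≠ b) (hcd : c ≠ d)
    (hxa : x ≠ a) (hxb : x ≠ b) (hxc : x ≠ c) (hxd : x ≠ d) (hX : X P a b c d)
    (hx : P x ∈ convexHull ℝ ({P a, P b, P c, P d} : Set (ℝ × ℝ))) :
    (X P x b c d ∧ X P x d a b) ∨ (X P x a c d ∧ X P x d b a) ∨
    (X P x b d c ∧ X P x c a b) ∨ (X P x a d c ∧ X P x c b a) := by
  obtain ⟨z, ⟨p, q, hp, hq, hpq, hz⟩, ⟨r, s, hr, hs, hrs, hz'⟩⟩ := hX
  rw [← hz'] at hz
  obtain ⟨wa, wb, wc, wd, h1, h2, h3, h4, h5, h6⟩ := weights4 hx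
  rcases le_total (wb * p) (wa * q) with c1 | c1
  · rcases le_total (wd * r) (wc * s) with c2 | c2
    · exact Or.inl (locate_core hP hab hcd hxa hxb hxc hxd hp hq hpq hr hs hrs hz h2 h4 h5 h6 c1 c2)
    · refine Or.inr (Or.inr (Or.inl (locate_core hP hab hcd.symm hxa hxb hxd hxc hp hq hpq hs hr
        (by linarith) (by rw [hz]; abel) h2 h3 (wa := wa) (wc := wd) (by linarith) (by rw [h6]; abel) c1 c2)))
  · rcases le_total (wd * r) (wc * s) with c2 | c2
    · refine Or.inr (Or.inl (locate_core hP hab.symm hcd hxb hxa hxc hxd hq hp (by linarith) hr hs hrs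
        (by rw [← hz]; abel) h1 h4 (wa := wb) (wc := wc) (by linarith) (by rw [h6]; abel) c1 c2))
    · refine Or.inr (Or.inr (Or.inr (locate_core hP hab.symm hcd.symm hxb hxa hxd hxc hq hp
        (by linarith) hs hr (by linarith) (by rw [add_comm (q • P b), hz]; abel) h1 h3 (wa := wb) (wc := wd)
        (by linarith) (by rw [h6]; abel) c1 c2)))

/-- only one of the three pairings crosses -/
lemma X_unique {P : ι → ℝ × ℝ} (hP : GP P) {a b c d : ι} (hbc : b ≠ c)
    (hbd : b ≠ d) (hcd : c ≠ d) (h : X P a b c d) : ¬ X P a c b d := by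
  rintro ⟨z', ⟨p', q', hp', hq', hpq', e'⟩, ⟨r', s', hr', hs', hrs', f'⟩⟩
  obtain ⟨z, ⟨p, q, hp, hq, hpq, e⟩, ⟨r, s, hr, hs, hrs, f⟩⟩ := h
  rw [← e'] at f'
  rw [← e] at f
  -- r c + s d = p a + q b ;  r' b + s' d = p' a + q' c
  have := hP b c d hbc hbd hcd (p' * q + p * r') (-(p' * r) - p * q') (-(p' * s) + p * s')
    (by nlinarith) (by
      have g1 : p' • (r • P c + s • P d) = p' • (p • P a + q • P b) := by rw [f]
      have g2 : p • (r' • P b + s' • P d) = p • (p' • P a + q' • P c) := by rw [f']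
      have : (p' * q + p * r') • P b + (-(p' * r) - p * q') • P c + (-(p' * s) + p * s') • P d =
        (p' • (p • P a + q • P b) - p' • (r • P c + s • P d)) +
        (p • (r' • P b + s' • P d) - p • (p' • P a + q' • P c)) := by module
      rw [this, g1, g2]; simp)
  have : 0 < p' * q + p * r' := by positivity
  linarith [this, ‹p' * q + p * r' = 0 ∧ _›.1]

lemma quad_ext {P : ι → ℝ × ℝ} (hP : GP P) {a b c d : ι} (hbc : b ≠ c)
    (hbd : b ≠ d) (hcd : c ≠ d) (h : X P a b c d) :
    P a ∉ convexHull ℝ ({P b, P c, P d} : Set (ℝ × ℝ)) := by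
  intro hz
  obtain ⟨z, ⟨p, q, hp, hq, hpq, e⟩, ⟨r, s, hr, hs, hrs, f⟩⟩ := h
  rw [← e] at f
  rw [convexHull_insert (by simp), mem_convexJoin] at hz
  obtain ⟨q', hq', e2, he2, a2, b2, ha2, hb2, hab2, hh⟩ := hz
  rw [Set.mem_singleton_iff] at hq'
  subst hq'
  rw [convexHull_pair] at he2
  obtain ⟨a3, b3, ha3, hb3, hab3, rfl⟩ := he2
  have := hP b c d hbc hbd hcd (p * a2 + q) (p * (b2 * a3) - r) (p * (b2 * b3) - s)
    (by
      have h1 : b2 * a3 + b2 * b3 = b2 := by rw [← mul_add, hab3, mul_one]
      have h2 : p * (b2 * a3) + p * (b2 * b3) = p * b2 := by rw [← mul_add, h1]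
      have h3 : p * a2 + p * b2 = p := by rw [← mul_add, hab2, mul_one]
      linarith) (by
      have : (p * a2 + q) • P b + (p * (b2 * a3) - r) • P c + (p * (b2 * b3) - s) • P d =
        p • (a2 • P b + b2 • (a3 • P c + b3 • P d)) + q • P b - (r • P c + s • P d) := by module
      rw [this, hh, f]; simp)
  have h1 : 0 < p * a2 + q := by positivity
  linarith [this.1]

section peel

variable [DecidableEq ι]

open Classical in
/-- number of extreme points of `S` -/
noncomputable def hc (P : ι → ℝ × ℝ) (S : Finset ι) : ℕ := (S.filter fun i => Ext P S i).card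

lemma step {P : ι → ℝ × ℝ} (hinj : Function.Injective P) (hP : GP P) {S : Finset ι} {x : ι}
    (hxS : x ∉ S) (hS : 2 ≤ S.card) (hx : P x ∉ convexHull ℝ (P '' (S : Set ι))) :
    ∃ V : Finset ι, V ⊆ S ∧ (∀ u ∈ V, ∀ p ∈ S, ∀ q ∈ S, p ≠ u → q ≠ u → ¬ X P x u p q) ∧
      hc P S + 3 ≤ V.card + hc P (insert x S) := by
  classical
  obtain ⟨u, hu, w, hw, huw, tu, tw⟩ := tangents hinj hP hxS hS hx
  have hxu : x ≠ u := by rintro rfl; exact hxS hu
  have hxw : x ≠ w := by rintro rfl; exact hxS hw
  refine ⟨S.filter fun u => ∀ p ∈ S, ∀ q ∈ S, p ≠ u → q ≠ u → ¬ X P x u p q,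
    Finset.filter_subset _ _, fun u hu => (Finset.mem_filter.mp hu).2, ?_⟩
  set V := S.filter fun u => ∀ p ∈ S, ∀ q ∈ S, p ≠ u → q ≠ u → ¬ X P x u p q with hV
  set Lost := S.filter fun i => Ext P S i ∧ ¬ Ext P (insert x S) i with hLost
  set K := S.filter fun i => Ext P (insert x S) i with hK
  have h1 : insert u (insert w Lost) ⊆ V := by
    intro i hi
    rw [Finset.mem_insert, Finset.mem_insert] at hi
    rw [hV, Finset.mem_filter]
    rcases hi with rfl | rfl | hi
    · exact ⟨hu, fun p hp q hq hpu hqu => tan_vis tu hp hq hpu hqu⟩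
    · exact ⟨hw, fun p hp q hq hpu hqu => tan_vis tw hp hq hpu hqu⟩
    · rw [hLost, Finset.mem_filter] at hi
      refine ⟨hi.1, fun p hp q hq hpu hqu => lost_vis hxS hi.1 ⟨p, ?_⟩ hi.2.1 hi.2.2 hp hq hpu hqu⟩
      rw [Finset.mem_erase]; exact ⟨hpu, hp⟩
  have hwL : w ∉ Lost := by
    rw [hLost, Finset.mem_filter]
    rintro ⟨-, -, h⟩
    exact h (tan_ext hinj tw hxw)
  have huL : u ∉ insert w Lost := by
    rw [Finset.mem_insert, hLost, Finset.mem_filter]
    rintro (h | ⟨-, -, h⟩)
    · exact huw h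
    · exact h (tan_ext hinj tu hxu)
  have h2 := Finset.card_le_card h1
  rw [Finset.card_insert_of_notMem huL, Finset.card_insert_of_notMem hwL] at h2
  have h3 : hc P S ≤ Lost.card + K.card := by
    unfold hc
    refine le_trans (Finset.card_le_card ?_) (Finset.card_union_le _ _)
    intro i hi
    rw [Finset.mem_filter] at hi
    rw [Finset.mem_union, hLost, hK, Finset.mem_filter, Finset.mem_filter]
    by_cases h : Ext P (insert x S) i
    · exact Or.inr ⟨hi.1, h⟩
    · exact Or.inl ⟨hi.1, hi.2, h⟩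
  have h4 : K.card + 1 ≤ hc P (insert x S) := by
    have hxK : x ∉ K := by
      rw [hK, Finset.mem_filter]; exact fun h => hxS h.1
    rw [← Finset.card_insert_of_notMem hxK]
    unfold hc
    apply Finset.card_le_card
    intro i hi
    rw [Finset.mem_filter]
    rcases Finset.mem_insert.mp hi with rfl | hi
    · refine ⟨Finset.mem_insert_self _ _, ?_⟩
      unfold Ext
      rw [Finset.erase_insert hxS]
      exact hx
    · rw [hK, Finset.mem_filter] at hi
      exact ⟨Finset.mem_insert_of_mem hi.1, hi.2⟩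
  omega

lemma exists_ext {P : ι → ℝ × ℝ} (hinj : Function.Injective P) {S F : Finset ι}
    (hF : ∀ i ∈ S, i ∉ F → P i ∉ convexHull ℝ (P '' (F : Set ι))) (hne : ∃ i ∈ S, i ∉ F) :
    ∃ x ∈ S, x ∉ F ∧ Ext P S x := by
  by_contra hcon
  push Not at hcon
  have hK : IsCompact (convexHull ℝ (P '' (S : Set ι))) :=
    ((S.finite_toSet).image P).isCompact_convexHull ℝ
  have hKc : Convex ℝ (convexHull ℝ (P '' (S : Set ι))) := convex_convexHull ℝ _
  have hcl := closure_convexHull_extremePoints hK hKc
  have hsub : (convexHull ℝ (P '' (S : Set ι))).extremePoints ℝ ⊆ P '' (F : Set ι) := by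
    intro e he
    obtain ⟨x, hx, rfl⟩ := extremePoints_convexHull_subset he
    by_contra hxF
    have hxF' : x ∉ F := fun h => hxF ⟨x, h, rfl⟩
    have h1 := hcon x hx hxF'
    unfold Ext at h1
    rw [not_not] at h1
    rw [hKc.mem_extremePoints_iff_mem_sdiff_convexHull_sdiff] at he
    apply he.2
    apply convexHull_mono _ h1
    rintro _ ⟨y, hy, rfl⟩
    have hy' := Finset.mem_erase.mp (Finset.mem_coe.mp hy)
    refine ⟨subset_convexHull ℝ _ ⟨y, hy'.2, rfl⟩, ?_⟩
    intro h
    exact hy'.1 (hinj h)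
  obtain ⟨i, hiS, hiF⟩ := hne
  apply hF i hiS hiF
  have h2 : P i ∈ convexHull ℝ (P '' (S : Set ι)) := subset_convexHull ℝ _ ⟨i, hiS, rfl⟩
  rw [← hcl] at h2
  have h3 : closure (convexHull ℝ (Set.extremePoints ℝ (convexHull ℝ (P '' (S : Set ι))))) ⊆
      convexHull ℝ (P '' (F : Set ι)) := by
    apply closure_minimal (convexHull_mono hsub)
    exact ((F.finite_toSet).image P).isClosed_convexHull ℝ
  exact h3 h2

/-- peeling from a quadrilateral -/
lemma peel {P : ι → ℝ × ℝ} (hinj : Function.Injective P) (hP : GP P) {F : Finset ι}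
    (hF4 : F.card = 4) (hFc : 4 ≤ hc P F) :
    ∀ (n : ℕ) (S : Finset ι), S.card = n → F ⊆ S →
      (∀ i ∈ S, i ∉ F → P i ∉ convexHull ℝ (P '' (F : Set ι))) →
      ∃ T : Finset (Sym2 ι), (∀ p q, s(p, q) ∈ T → p ∈ S ∧ q ∈ S ∧ p ≠ q) ∧
        (∀ p q r s, s(p, q) ∈ T → s(r, s) ∈ T → p ≠ r → p ≠ s → q ≠ r → q ≠ s → X P p q r s →
          p ∈ F ∧ q ∈ F ∧ r ∈ F ∧ s ∈ F) ∧
        3 * S.card ≤ T.card + hc P S + 2 := by
  intro n
  induction n with
  | zero =>
    intro S hS hFS
    have := Finset.card_le_card hFS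
    omega
  | succ n ih =>
    intro S hS hFS hemp
    by_cases hne : ∃ i ∈ S, i ∉ F
    · obtain ⟨x, hxS, hxF, hxE⟩ := exists_ext hinj hemp hne
      obtain ⟨T, hT1, hT2, hT3⟩ := ih (S.erase x) (by rw [Finset.card_erase_of_mem hxS]; omega)
        (fun i hi => Finset.mem_erase.mpr ⟨by rintro rfl; exact hxF hi, hFS hi⟩)
        (fun i hi => hemp i (Finset.mem_of_mem_erase hi))
      have hcard : 4 ≤ (S.erase x).card := by
        rw [← hF4]
        exact Finset.card_le_card
          (fun i hi => Finset.mem_erase.mpr ⟨by rintro rfl; exact hxF hi, hFS hi⟩)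
      obtain ⟨V, hV1, hV2, hV3⟩ := step hinj hP (Finset.notMem_erase x S) (by omega) hxE
      rw [Finset.insert_erase hxS] at hV3
      have hnew : ∀ p q, s(p, q) ∈ V.image (fun u => s(x, u)) →
          (p = x ∧ q ∈ V) ∨ (q = x ∧ p ∈ V) := by
        intro p q h
        obtain ⟨u, hu, he⟩ := Finset.mem_image.mp h
        rw [Sym2.eq_iff] at he
        rcases he with ⟨rfl, rfl⟩ | ⟨rfl, rfl⟩
        · exact Or.inl ⟨rfl, hu⟩
        · exact Or.inr ⟨rfl, hu⟩
      refine ⟨T ∪ V.image (fun u => s(x, u)), ?_, ?_, ?_⟩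
      · intro p q h
        rcases Finset.mem_union.mp h with h | h
        · obtain ⟨h1, h2, h3⟩ := hT1 p q h
          exact ⟨Finset.mem_of_mem_erase h1, Finset.mem_of_mem_erase h2, h3⟩
        · rcases hnew p q h with ⟨hpx, hq⟩ | ⟨hqx, hq⟩
          · have := Finset.mem_erase.mp (hV1 hq)
            rw [hpx]
            exact ⟨hxS, this.2, this.1.symm⟩
          · have := Finset.mem_erase.mp (hV1 hq)
            rw [hqx]
            exact ⟨this.2, hxS, this.1⟩
      · intro p q r s h h' hpr hps hqr hqs hX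
        rcases Finset.mem_union.mp h with h | h
        · rcases Finset.mem_union.mp h' with h' | h'
          · exact hT2 p q r s h h' hpr hps hqr hqs hX
          · obtain ⟨h1, h2, -⟩ := hT1 p q h
            rcases hnew r s h' with ⟨rfl, hv⟩ | ⟨rfl, hv⟩
            · exact absurd hX.swap (hV2 s hv p h1 q h2 hps hqs)
            · exact absurd hX.swap.symm1 (hV2 r hv p h1 q h2 hpr hqr)
        · rcases Finset.mem_union.mp h' with h' | h'
          · obtain ⟨h1, h2, -⟩ := hT1 r s h'
            rcases hnew p q h with ⟨rfl, hv⟩ | ⟨rfl, hv⟩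
            · exact absurd hX (hV2 q hv r h1 s h2 hqr.symm hqs.symm)
            · exact absurd hX.symm1 (hV2 p hv r h1 s h2 hpr.symm hps.symm)
          · rcases hnew p q h with ⟨rfl, -⟩ | ⟨rfl, -⟩
            · rcases hnew r s h' with ⟨rfl, -⟩ | ⟨rfl, -⟩
              · exact absurd rfl hpr
              · exact absurd rfl hps
            · rcases hnew r s h' with ⟨rfl, -⟩ | ⟨rfl, -⟩
              · exact absurd rfl hqr
              · exact absurd rfl hqs
      · have hdisj : Disjoint T (V.image (fun u => s(x, u))) := by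
          rw [Finset.disjoint_left]
          intro e he he'
          obtain ⟨u, hu, rfl⟩ := Finset.mem_image.mp he'
          have := (hT1 x u he).1
          exact absurd this (Finset.notMem_erase x S)
        have hcV : (V.image (fun u => s(x, u))).card = V.card := by
          apply Finset.card_image_of_injective
          intro u u' h
          exact Sym2.congr_right.mp h
        rw [Finset.card_union_of_disjoint hdisj, hcV]
        have : (S.erase x).card + 1 = S.card := Finset.card_erase_add_one hxS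
        omega
    · have hSF : S = F := by
        apply Finset.Subset.antisymm _ hFS
        intro i hi
        by_contra h
        exact hne ⟨i, hi, h⟩
      subst hSF
      refine ⟨S.offDiag.image Sym2.mk.uncurry, ?_, ?_, ?_⟩
      · intro p q h
        obtain ⟨⟨a, b⟩, hab, he⟩ := Finset.mem_image.mp h
        rw [Finset.mem_offDiag] at hab
        simp only [Function.uncurry] at he
        rw [Sym2.eq_iff] at he
        rcases he with ⟨rfl, rfl⟩ | ⟨rfl, rfl⟩
        · exact hab
        · exact ⟨hab.2.1, hab.1, hab.2.2.symm⟩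
      · intro p q r s h h' _ _ _ _ _
        have key : ∀ p q, s(p, q) ∈ S.offDiag.image Sym2.mk.uncurry → p ∈ S ∧ q ∈ S := by
          intro p q h
          obtain ⟨⟨a, b⟩, hab, he⟩ := Finset.mem_image.mp h
          rw [Finset.mem_offDiag] at hab
          simp only [Function.uncurry] at he
          rw [Sym2.eq_iff] at he
          rcases he with ⟨rfl, rfl⟩ | ⟨rfl, rfl⟩
          · exact ⟨hab.1, hab.2.1⟩
          · exact ⟨hab.2.1, hab.1⟩
        exact ⟨(key p q h).1, (key p q h).2, (key r s h').1, (key r s h').2⟩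
      · have h6 : (S.offDiag.image Sym2.mk.uncurry).card = 6 := by
          have := Sym2.card_image_offDiag S
          rw [hF4] at this
          exact this.trans (by decide)
        omega

end peel

end Pool.Agent.X51.GK
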