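import Mathlib

namespace Pool.Agent.X51.Avoid

lemma pow4_bound {x : ℝ} (hx0 : 0 < x) (hx1 : x ≤ 1 / 100) : (1 + 4 * x) ^ 4 ≤ 1 + 20 * x := by
  have a0 : 0 ≤ x * (1 / 100 - x) := mul_nonneg hx0.le (by linarith)
  have a1 : x ^ 2 ≤ x / 100 := by linarith [a0, sq x, mul_sub x (1 / 100) x]
  have a2 : x ^ 3 ≤ x / 10000 := by
    have := mul_le_mul_of_nonneg_right a1 hx0.le
    have e : x ^ 2 * x = x ^ 3 := by ring
    have e2 : x / 100 * x = x ^ 2 / 100 := by ring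
    rw [e, e2] at this
    linarith
  have a3 : x ^ 4 ≤ x / 1000000 := by
    have := mul_le_mul_of_nonneg_right a2 hx0.le
    have e : x ^ 3 * x = x ^ 4 := by ring
    have e2 : x / 10000 * x = x ^ 2 / 10000 := by ring
    rw [e, e2] at this
    linarith
  have e : (1 + 4 * x) ^ 4 = 1 + 16 * x + 96 * x ^ 2 + 256 * x ^ 3 + 256 * x ^ 4 := by ring
  rw [e]; linarith

lemma tele {g g' : ℝ} (hg : 0 ≤ g) (hg' : 0 ≤ g') (hgg : g' ≤ g) :
    g ^ 6 - g' ^ 6 ≤ 6 * g ^ 5 * (g - g') := by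
  have e2 : g ^ 6 - g' ^ 6 =
    (g ^ 5 + g ^ 4 * g' + g ^ 3 * g' ^ 2 + g ^ 2 * g' ^ 3 + g * g' ^ 4 + g' ^ 5) *
      (g - g') := by ring
  rw [e2]
  refine mul_le_mul_of_nonneg_right ?_ (by linarith)
  have k1 : g ^ 4 * g' ≤ g ^ 4 * g := by gcongr
  have k2 : g ^ 3 * g' ^ 2 ≤ g ^ 3 * g ^ 2 := by gcongr
  have k3 : g ^ 2 * g' ^ 3 ≤ g ^ 2 * g ^ 3 := by gcongr
  have k4 : g * g' ^ 4 ≤ g * g ^ 4 := by gcongr
  have k5 : g' ^ 5 ≤ g ^ 5 := by gcongr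
  have e3 : 6 * g ^ 5 = g ^ 5 + g ^ 4 * g + g ^ 3 * g ^ 2 + g ^ 2 * g ^ 3 + g * g ^ 4 + g ^ 5 := by
    ring
  rw [e3]; linarith

lemma p6 {n F s t Φ : ℝ} (hn : 1 ≤ n) (hF : 0 < F) (hs : 1 ≤ s) (ht : 1 ≤ t) (hΦ : 0 < Φ)
    (hm1 : s * t * (s + t) * F ≤ 5 / 4 * n * Φ) (i1 : Φ ^ 4 * F ≤ n ^ 6) :
    (s * t) ^ 6 * F ^ 5 ≤ n ^ 10 := by
  have hst : 0 < s * t := by positivity
  have e0 : 4 * (s * t) ≤ (s + t) ^ 2 := by
    have := sq_nonneg (s - t)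
    have e : (s + t) ^ 2 = (s - t) ^ 2 + 4 * (s * t) := by ring
    rw [e]; linarith
  have e1 : 16 * (s * t) ^ 6 ≤ (s * t * (s + t)) ^ 4 := by
    have : (4 * (s * t)) ^ 2 ≤ ((s + t) ^ 2) ^ 2 := pow_le_pow_left₀ (by positivity) e0 2
    have h2 := mul_le_mul_of_nonneg_left this (by positivity : 0 ≤ (s * t) ^ 4)
    have e : (s * t) ^ 4 * (4 * (s * t)) ^ 2 = 16 * (s * t) ^ 6 := by ring
    have e' : (s * t) ^ 4 * ((s + t) ^ 2) ^ 2 = (s * t * (s + t)) ^ 4 := by ring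
    rw [e, e'] at h2
    exact h2
  have hm0 : 0 ≤ s * t * (s + t) := by positivity
  generalize s * t * (s + t) = m at *
  generalize s * t = p at *
  have e2 : (m * F) ^ 4 ≤ (5 / 4 * n * Φ) ^ 4 := pow_le_pow_left₀ (by positivity) hm1 4
  calc p ^ 6 * F ^ 5 = (1 / 16) * (16 * p ^ 6) * F ^ 4 * F := by ring
    _ ≤ (1 / 16) * m ^ 4 * F ^ 4 * F := by gcongr
    _ = (1 / 16) * (m * F) ^ 4 * F := by ring
    _ ≤ (1 / 16) * (5 / 4 * n * Φ) ^ 4 * F := by gcongr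
    _ = (1 / 16) * (5 / 4) ^ 4 * n ^ 4 * (Φ ^ 4 * F) := by ring
    _ ≤ (1 / 16) * (5 / 4) ^ 4 * n ^ 4 * (n ^ 6) := by gcongr
    _ = (1 / 16) * (5 / 4) ^ 4 * n ^ 10 := by ring
    _ ≤ n ^ 10 := by
      have : 0 ≤ n ^ 10 := by positivity
      have h : (1 / 16 : ℝ) * (5 / 4) ^ 4 ≤ 1 := by norm_num
      exact mul_le_of_le_one_left this h

/-- the bound on the cheapest cost -/
lemma cheap {n b F s t Φ P O g h : ℝ} (hn : 1 ≤ n) (hb : 100 * n ≤ b) (hF : b ≤ F)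
    (hs : 1 ≤ s) (ht : 1 ≤ t) (hΦ : 0 < Φ)
    (hO : 2 * F - (P - n) ≤ O) (hm : O * (s * t * (s + t)) ≤ 2 * Φ * P)
    (hg : 0 ≤ g) (hh : 0 ≤ h)
    (eh : h ^ 3 = n) (i2 : P ≤ n + 3 / 25 * h ^ 2 * (h - g)) (hPn : 0 < P) :
    s * t * (s + t) * F ≤ 5 / 4 * n * Φ := by
  have hFpos : 0 < F := by linarith
  have hP : P ≤ 28 / 25 * n := by
    have h0 : 0 ≤ 3 / 25 * h ^ 2 * g := by positivity
    have h1 : 3 / 25 * h ^ 2 * (h - g) = 3 / 25 * h ^ 3 - 3 / 25 * h ^ 2 * g := by ring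
    rw [h1, eh] at i2
    linarith
  have hm0 : 0 < s * t * (s + t) := by positivity
  have h1 : 19 / 10 * F ≤ O := by linarith
  have h2 : 19 / 10 * F * (s * t * (s + t)) ≤ 2 * Φ * P :=
    (mul_le_mul_of_nonneg_right h1 hm0.le).trans hm
  have h3 : 2 * Φ * P ≤ 2 * Φ * (28 / 25 * n) :=
    mul_le_mul_of_nonneg_left hP (by positivity)
  have h4 : 0 < n * Φ := mul_pos (by linarith) hΦ
  have e1 : 19 / 10 * F * (s * t * (s + t)) = 19 / 10 * (s * t * (s + t) * F) := by ring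
  have e2 : 2 * Φ * (28 / 25 * n) = 56 / 25 * (n * Φ) := by ring
  have e3 : 5 / 4 * n * Φ = 5 / 4 * (n * Φ) := by ring
  rw [e1] at h2
  rw [e2] at h3
  rw [e3]
  linarith

/-- the numerical step -/
lemma num_step {n b F F' s t Φ P O g g' h : ℝ} (hn : 1 ≤ n) (hb : 100 * n ≤ b) (hF : b ≤ F)
    (hF'0 : 0 ≤ F') (hF' : F' ≤ F - b) (hs : 1 ≤ s) (ht : 1 ≤ t) (hΦ : 0 < Φ)
    (hO : 2 * F - (P - n) ≤ O) (hm : O * (s * t * (s + t)) ≤ 2 * Φ * P)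
    (hg : 0 ≤ g) (hg' : 0 ≤ g') (hh : 0 ≤ h) (eg : g ^ 6 = F) (eg' : g' ^ 6 = F')
    (eh : h ^ 3 = n) (i1 : Φ ^ 4 * F ≤ n ^ 6) (i2 : P ≤ n + 3 / 25 * h ^ 2 * (h - g)) (hPn : 0 < P) :
    (Φ + 3 * (s * t * (s + t))) ^ 4 * F' ≤ n ^ 6 ∧
    P + 2 * (s * t) ≤ n + 3 / 25 * h ^ 2 * (h - g') := by
  have hFpos : 0 < F := by linarith
  have hm1 := cheap hn hb hF hs ht hΦ hO hm hg hh eh i2 hPn
  have hp6 := p6 hn hFpos hs ht hΦ hm1 i1
  have hm0 : 0 < s * t * (s + t) := by positivity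
  have hp0 : 0 < s * t := by positivity
  generalize s * t * (s + t) = m at *
  generalize s * t = p at *
  clear hm hO hs ht
  constructor
  · obtain ⟨x, hx⟩ : ∃ x, x = n / F := ⟨_, rfl⟩
    have hx0 : 0 < x := by rw [hx]; positivity
    have hx1 : x ≤ 1 / 100 := by
      rw [hx, div_le_iff₀ hFpos]; linarith
    have hxF : x * F = n := by rw [hx]; field_simp
    have h1 : Φ + 3 * m ≤ Φ * (1 + 4 * x) := by
      have h0 : m * F ≤ (5 / 4 * x * Φ) * F := by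
        have : 5 / 4 * x * Φ * F = 5 / 4 * (x * F) * Φ := by ring
        rw [this, hxF]; exact hm1
      have h2 := le_of_mul_le_mul_right h0 hFpos
      have h3 : 0 < x * Φ := mul_pos hx0 hΦ
      have e1 : Φ * (1 + 4 * x) = Φ + 4 * (x * Φ) := by ring
      have e2 : 5 / 4 * x * Φ = 5 / 4 * (x * Φ) := by ring
      rw [e1]; rw [e2] at h2; linarith
    have h2 : (Φ + 3 * m) ^ 4 ≤ (Φ * (1 + 4 * x)) ^ 4 :=
      pow_le_pow_left₀ (by positivity) h1 4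
    have h3 := pow4_bound hx0 hx1
    have h4 : (1 + 20 * x) * F' ≤ F := by
      have h5 : x * F' ≤ x * F := mul_le_mul_of_nonneg_left (by linarith) hx0.le
      have e1 : (1 + 20 * x) * F' = F' + 20 * (x * F') := by ring
      rw [e1]
      rw [hxF] at h5
      linarith
    have hΦ4 : 0 ≤ Φ ^ 4 := by positivity
    calc (Φ + 3 * m) ^ 4 * F' ≤ (Φ * (1 + 4 * x)) ^ 4 * F' := mul_le_mul_of_nonneg_right h2 hF'0
      _ = Φ ^ 4 * ((1 + 4 * x) ^ 4 * F') := by ring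
      _ ≤ Φ ^ 4 * ((1 + 20 * x) * F') :=
          mul_le_mul_of_nonneg_left (mul_le_mul_of_nonneg_right h3 hF'0) hΦ4
      _ ≤ Φ ^ 4 * F := mul_le_mul_of_nonneg_left h4 hΦ4
      _ ≤ n ^ 6 := i1
  · have h3 : p * g ^ 5 ≤ h ^ 5 := by
      have : (p * g ^ 5) ^ 6 ≤ (h ^ 5) ^ 6 := by
        calc (p * g ^ 5) ^ 6 = p ^ 6 * (g ^ 6) ^ 5 := by ring
          _ = p ^ 6 * F ^ 5 := by rw [eg]
          _ ≤ n ^ 10 := hp6
          _ = (h ^ 5) ^ 6 := by rw [← eh]; ring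
      exact (pow_le_pow_iff_left₀ (by positivity) (by positivity) (by norm_num)).mp this
    have hgpos : 0 < g := by
      rcases hg.lt_or_eq with h | h
      · exact h
      · rw [← h] at eg; norm_num at eg; linarith
    have hgg : g' ≤ g := by
      have : g' ^ 6 ≤ g ^ 6 := by rw [eg, eg']; linarith
      exact (pow_le_pow_iff_left₀ hg' hg (by norm_num)).mp this
    have h4 : 100 * h ^ 3 ≤ 6 * g ^ 5 * (g - g') := by
      have e1 := tele hg hg' hgg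
      rw [eg, eg'] at e1
      rw [eh]; linarith
    have h5 : 2 * p ≤ 3 / 25 * h ^ 2 * (g - g') := by
      have e1 : 2 * p * g ^ 5 ≤ 3 / 25 * h ^ 2 * (g - g') * g ^ 5 := by
        have e2 : 2 * (p * g ^ 5) ≤ 2 * h ^ 5 := by linarith
        have e3 : h ^ 2 * (100 * h ^ 3) ≤ h ^ 2 * (6 * g ^ 5 * (g - g')) :=
          mul_le_mul_of_nonneg_left h4 (by positivity)
        have e4 : h ^ 2 * (100 * h ^ 3) = 100 * h ^ 5 := by ring
        have e5 : 3 / 25 * h ^ 2 * (g - g') * g ^ 5 =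
          (1 / 50) * (h ^ 2 * (6 * g ^ 5 * (g - g'))) := by ring
        rw [e5]
        rw [e4] at e3
        have e6 : 2 * p * g ^ 5 = 2 * (p * g ^ 5) := by ring
        rw [e6]
        linarith
      exact le_of_mul_le_mul_right e1 (by positivity)
    have e7 : 3 / 25 * h ^ 2 * (g - g') = 3 / 25 * h ^ 2 * (h - g') - 3 / 25 * h ^ 2 * (h - g) := by
      ring
    linarith

end Pool.Agent.X51.Avoid
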