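import Mathlib
import Pool.Agent.X51.AvoidNum

open Finset SimpleGraph

namespace Pool.Agent.X51.Avoid

variable {n : ℕ}

/-- size of the class of label `l` -/
def sz (c : Fin n → Fin n) (l : Fin n) : ℕ := (univ.filter (fun w => c w = l)).card

/-- sum of squares of class sizes -/
def PP (c : Fin n → Fin n) : ℕ := ∑ l, sz c l ^ 2

/-- sum of cubes of class sizes -/
def PH (c : Fin n → Fin n) : ℕ := ∑ l, sz c l ^ 3

lemma sum_lab (c : Fin n → Fin n) (f : Fin n → ℕ) : ∑ u, f (c u) = ∑ l, sz c l * f l := by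
  rw [← Finset.sum_fiberwise' (univ : Finset (Fin n)) c f]
  refine Finset.sum_congr rfl fun l _ => ?_
  simp [sz]

lemma sum_one (c : Fin n → Fin n) : ∑ u, sz c (c u) = PP c := by
  rw [sum_lab c (sz c)]
  exact Finset.sum_congr rfl fun l _ => (sq _).symm

lemma sum_two (c : Fin n → Fin n) : ∑ u, sz c (c u) ^ 2 = PH c := by
  rw [sum_lab c (fun l => sz c l ^ 2)]
  exact Finset.sum_congr rfl fun l _ => by ring

/-- the cost of joining the classes of the two vertices -/
def cost (c : Fin n → Fin n) (p : Fin n × Fin n) : ℕ :=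
  sz c (c p.1) * sz c (c p.2) * (sz c (c p.1) + sz c (c p.2))

lemma sum_cost (c : Fin n → Fin n) : ∑ p : Fin n × Fin n, cost c p = 2 * PH c * PP c := by
  rw [Fintype.sum_prod_type]
  have h : ∀ u v : Fin n, cost c (u, v) =
      sz c (c u) ^ 2 * sz c (c v) + sz c (c u) * sz c (c v) ^ 2 := by
    intro u v; simp only [cost]; ring
  simp only [h, Finset.sum_add_distrib, ← Finset.mul_sum, ← Finset.sum_mul, sum_one, sum_two]
  ring

lemma card_pairs {R : Finset (Sym2 (Fin n))} (hR : ∀ e ∈ R, ¬ e.IsDiag) :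
    (univ.filter (fun p : Fin n × Fin n => s(p.1, p.2) ∈ R)).card = 2 * R.card := by
  rw [Finset.card_eq_sum_card_fiberwise (f := fun p : Fin n × Fin n => s(p.1, p.2)) (t := R)
    (by intro p hp; simpa using hp)]
  rw [Finset.sum_congr rfl (g := fun _ => 2)]
  · simp [mul_comm]
  · intro e he
    induction e using Sym2.ind with
    | _ x y =>
      have hxy : x ≠ y := by
        have := hR _ he
        simpa using this
      have : Finset.filter (fun p : Fin n × Fin n => s(p.1, p.2) = s(x, y))
          (univ.filter (fun p : Fin n × Fin n => s(p.1, p.2) ∈ R)) = {(x, y), (y, x)} := by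
        ext ⟨p, q⟩
        simp only [mem_filter, mem_univ, true_and, mem_insert, mem_singleton, Prod.mk.injEq,
          Sym2.eq_iff]
        constructor
        · rintro ⟨_, h⟩; exact h
        · rintro (⟨rfl, rfl⟩ | ⟨rfl, rfl⟩)
          · exact ⟨he, Or.inl ⟨rfl, rfl⟩⟩
          · exact ⟨by rwa [Sym2.eq_swap], Or.inr ⟨rfl, rfl⟩⟩
      rw [this, Finset.card_pair]
      intro h
      exact hxy (Prod.mk.inj h).1

lemma card_same (c : Fin n → Fin n) :
    (univ.filter (fun p : Fin n × Fin n => c p.1 = c p.2)).card = PP c := by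
  rw [← sum_one, Finset.card_filter, Fintype.sum_prod_type]
  refine Finset.sum_congr rfl fun u _ => ?_
  rw [← Finset.card_filter]
  unfold sz
  congr 1
  ext v
  simp [eq_comm]

/-- ordered free pairs joining different classes -/
def cross (c : Fin n → Fin n) (R : Finset (Sym2 (Fin n))) : Finset (Fin n × Fin n) :=
  univ.filter (fun p : Fin n × Fin n => s(p.1, p.2) ∈ R ∧ c p.1 ≠ c p.2)

lemma card_cross {R : Finset (Sym2 (Fin n))} (hR : ∀ e ∈ R, ¬ e.IsDiag) (c : Fin n → Fin n) :
    2 * R.card + n ≤ (cross c R).card + PP c := by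
  classical
  rw [← card_pairs hR, ← card_same c]
  have h1 : (univ.filter (fun p : Fin n × Fin n => s(p.1, p.2) ∈ R)) ⊆
      cross c R ∪ (univ.filter (fun p : Fin n × Fin n => s(p.1, p.2) ∈ R ∧ c p.1 = c p.2)) := by
    intro p hp
    simp only [mem_filter, mem_univ, true_and] at hp
    simp only [cross, mem_union, mem_filter, mem_univ, true_and]
    by_cases h : c p.1 = c p.2
    · exact Or.inr ⟨hp, h⟩
    · exact Or.inl ⟨hp, h⟩
  have h2 := (Finset.card_le_card h1).trans (Finset.card_union_le _ _)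
  have h3 : (univ.filter (fun p : Fin n × Fin n => s(p.1, p.2) ∈ R ∧ c p.1 = c p.2)) ∪
      (univ.image (fun x : Fin n => (x, x))) ⊆
      univ.filter (fun p : Fin n × Fin n => c p.1 = c p.2) := by
    intro p hp
    simp only [mem_union, mem_filter, mem_univ, true_and, mem_image] at hp ⊢
    rcases hp with h | ⟨x, rfl⟩
    · exact h.2
    · rfl
  have h4 : Disjoint (univ.filter (fun p : Fin n × Fin n => s(p.1, p.2) ∈ R ∧ c p.1 = c p.2))
      (univ.image (fun x : Fin n => (x, x))) := by
    rw [Finset.disjoint_left]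
    intro p hp hq
    simp only [mem_filter, mem_univ, true_and, mem_image] at hp hq
    obtain ⟨x, rfl⟩ := hq
    exact hR _ hp.1 (by simp)
  have h5 := Finset.card_le_card h3
  rw [Finset.card_union_of_disjoint h4, Finset.card_image_of_injective _
    (fun x y h => (Prod.mk.inj h).1), Finset.card_univ, Fintype.card_fin] at h5
  omega

lemma exists_cheap {R : Finset (Sym2 (Fin n))} (c : Fin n → Fin n) (hne : (cross c R).Nonempty) :
    ∃ u v : Fin n, s(u, v) ∈ R ∧ c u ≠ c v ∧
      (cross c R).card * cost c (u, v) ≤ 2 * PH c * PP c := by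
  obtain ⟨⟨u, v⟩, hp, hmin⟩ := Finset.exists_min_image (cross c R) (cost c) hne
  have hp' := hp
  simp only [cross, mem_filter, mem_univ, true_and] at hp'
  refine ⟨u, v, hp'.1, hp'.2, ?_⟩
  rw [← sum_cost]
  calc (cross c R).card * cost c (u, v) ≤ ∑ p ∈ cross c R, cost c p := by
        rw [← smul_eq_mul]
        exact Finset.card_nsmul_le_sum _ _ _ hmin
    _ ≤ ∑ p, cost c p := Finset.sum_le_sum_of_subset (Finset.subset_univ _)

/-- merge the class `b` into the class `a` -/
def merge (c : Fin n → Fin n) (a b : Fin n) : Fin n → Fin n := fun w => if c w = b then a else c w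

lemma sz_merge_a (c : Fin n → Fin n) {a b : Fin n} (hab : a ≠ b) :
    sz (merge c a b) a = sz c a + sz c b := by
  unfold sz merge
  rw [← Finset.card_union_of_disjoint]
  · congr 1
    ext w
    simp only [mem_filter, mem_univ, true_and, mem_union]
    by_cases h : c w = b
    · simp [h]
    · simp [h]
  · rw [Finset.disjoint_left]
    intro w h1 h2
    simp only [mem_filter, mem_univ, true_and] at h1 h2
    exact hab (h1.symm.trans h2)

lemma sz_merge_b (c : Fin n → Fin n) {a b : Fin n} (hab : a ≠ b) :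
    sz (merge c a b) b = 0 := by
  unfold sz merge
  rw [Finset.card_eq_zero, Finset.filter_eq_empty_iff]
  intro w _
  by_cases h : c w = b
  · simp [h, hab]
  · simp [h]

lemma sz_merge_o (c : Fin n → Fin n) {a b l : Fin n} (ha : l ≠ a) (hb : l ≠ b) :
    sz (merge c a b) l = sz c l := by
  unfold sz merge
  congr 1
  ext w
  simp only [mem_filter, mem_univ, true_and]
  by_cases h : c w = b
  · simp [h, ha.symm, hb.symm]
  · simp [h]

lemma sum_split (F : Fin n → ℕ) {a b : Fin n} (hab : a ≠ b) :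
    ∑ l, F l = F a + (F b + ∑ l ∈ (univ.erase a).erase b, F l) := by
  rw [← Finset.add_sum_erase _ _ (Finset.mem_univ a),
    ← Finset.add_sum_erase (univ.erase a) _ (Finset.mem_erase.2 ⟨hab.symm, Finset.mem_univ b⟩)]

lemma PP_merge (c : Fin n → Fin n) {a b : Fin n} (hab : a ≠ b) :
    PP (merge c a b) = PP c + 2 * (sz c a * sz c b) := by
  unfold PP
  rw [sum_split _ hab, sum_split (fun l => sz c l ^ 2) hab, sz_merge_a c hab, sz_merge_b c hab]
  have : ∑ l ∈ (univ.erase a).erase b, sz (merge c a b) l ^ 2 =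
      ∑ l ∈ (univ.erase a).erase b, sz c l ^ 2 := by
    refine Finset.sum_congr rfl fun l hl => ?_
    simp only [mem_erase, mem_univ, and_true] at hl
    rw [sz_merge_o c hl.2 hl.1]
  rw [this]; ring

lemma PH_merge (c : Fin n → Fin n) {a b : Fin n} (hab : a ≠ b) :
    PH (merge c a b) = PH c + 3 * (sz c a * sz c b * (sz c a + sz c b)) := by
  unfold PH
  rw [sum_split _ hab, sum_split (fun l => sz c l ^ 3) hab, sz_merge_a c hab, sz_merge_b c hab]
  have : ∑ l ∈ (univ.erase a).erase b, sz (merge c a b) l ^ 3 =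
      ∑ l ∈ (univ.erase a).erase b, sz c l ^ 3 := by
    refine Finset.sum_congr rfl fun l hl => ?_
    simp only [mem_erase, mem_univ, and_true] at hl
    rw [sz_merge_o c hl.2 hl.1]
  rw [this]; ring

lemma sz_pos (c : Fin n → Fin n) (u : Fin n) : 1 ≤ sz c (c u) := by
  unfold sz
  rw [Nat.one_le_iff_ne_zero, ← Nat.pos_iff_ne_zero, Finset.card_pos]
  exact ⟨u, by simp⟩

lemma PP_id : PP (id : Fin n → Fin n) = n := by
  unfold PP sz; simp [Finset.filter_eq']

lemma PH_id : PH (id : Fin n → Fin n) = n := by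
  unfold PH sz; simp [Finset.filter_eq']

lemma PP_pos (c : Fin n → Fin n) (hn : 1 ≤ n) : 1 ≤ PP c := by
  rw [← sum_one]
  exact (sz_pos c ⟨0, by omega⟩).trans
    (Finset.single_le_sum (f := fun u => sz c (c u)) (fun _ _ => Nat.zero_le _)
      (Finset.mem_univ (⟨0, by omega⟩ : Fin n)))

lemma PH_pos (c : Fin n → Fin n) (hn : 1 ≤ n) : 1 ≤ PH c := by
  rw [← sum_two]
  have h := sz_pos c ⟨0, by omega⟩
  refine le_trans ?_ (Finset.single_le_sum (f := fun u => sz c (c u) ^ 2)
    (fun _ _ => Nat.zero_le _) (Finset.mem_univ (⟨0, by omega⟩ : Fin n)))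
  exact Nat.one_le_pow _ _ h

/-! ### graph lemmas -/

/-- labels are constant on the edges of `A` -/
def Respects (c : Fin n → Fin n) (A : Finset (Sym2 (Fin n))) : Prop :=
  ∀ x y : Fin n, s(x, y) ∈ A → c x = c y

lemma Respects.reach {c : Fin n → Fin n} {A : Finset (Sym2 (Fin n))} (h : Respects c A)
    {x y : Fin n} (hr : (fromEdgeSet (A : Set (Sym2 (Fin n)))).Reachable x y) : c x = c y := by
  obtain ⟨p⟩ := hr
  induction p with
  | nil => rfl
  | cons hadj _ ih =>
    rw [← ih]
    exact h _ _ (by simpa using ((fromEdgeSet_adj _).1 hadj).1)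

lemma acyclic_insert {c : Fin n → Fin n} {A : Finset (Sym2 (Fin n))} (h : Respects c A)
    (hA : (fromEdgeSet (A : Set (Sym2 (Fin n)))).IsAcyclic) {u v : Fin n} (huv : c u ≠ c v) :
    (fromEdgeSet ((A ∪ {s(u, v)} : Finset (Sym2 (Fin n))) : Set (Sym2 (Fin n)))).IsAcyclic := by
  have h1 : ¬ (fromEdgeSet (A : Set (Sym2 (Fin n)))).Reachable u v := fun hr => huv (h.reach hr)
  have h2 := IsAcyclic.sup_edge_of_not_reachable h1 hA
  rw [Finset.coe_union, fromEdgeSet_union]
  simpa [edge] using h2

lemma respects_merge {c : Fin n → Fin n} {A : Finset (Sym2 (Fin n))} (h : Respects c A)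
    {u v : Fin n} (_huv : c u ≠ c v) : Respects (merge c (c u) (c v)) (A ∪ {s(u, v)}) := by
  intro x y hxy
  rw [Finset.mem_union, Finset.mem_singleton] at hxy
  rcases hxy with hxy | hxy
  · have := h x y hxy
    simp only [merge, this]
  · rw [Sym2.eq_iff] at hxy
    rcases hxy with ⟨rfl, rfl⟩ | ⟨rfl, rfl⟩
    · simp [merge]
    · simp [merge]

end Pool.Agent.X51.Avoid
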