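import Mathlib

open Finset SimpleGraph

namespace Pool.Agent.X51.Avoid

variable {V : Type*} [DecidableEq V]

lemma cycle_path_aux {G : SimpleGraph V} {a b : V} {c : G.Walk a a} (hc : c.IsCycle)
    (he : s(a, b) ∈ c.edges) :
    ∃ r : G.Walk a b, r.IsPath ∧ s(a, b) ∉ r.edges ∧
      c.edges.toFinset = insert s(a, b) r.edges.toFinset := by
  cases c with
  | nil => simp at he
  | @cons _ w _ h p =>
    rw [Walk.cons_isCycle_iff] at hc
    obtain ⟨hp, hnot⟩ := hc
    by_cases hbw : b = w
    · subst hbw
      refine ⟨p.reverse, hp.reverse, by simpa using hnot, ?_⟩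
      ext e; simp
    · have he' : s(a, b) ∈ p.edges := by
        rw [Walk.edges_cons, List.mem_cons] at he
        rcases he with he | he
        · exfalso
          rw [Sym2.eq_iff] at he
          rcases he with ⟨_, h1⟩ | ⟨h1, h2⟩
          · exact hbw h1
          · exact hbw (h2.trans h1)
        · exact he
      have hpr := hp.reverse
      have he2 : s(a, b) ∈ p.reverse.edges := by simpa using he'
      have hedge : ∀ e, e ∈ p.edges ↔ e ∈ p.reverse.edges := by intro e; simp
      generalize p.reverse = q at hpr he2 hedge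
      cases q with
      | nil => simp at he2
      | @cons _ b' _ h'' q =>
        have hb' : b' = b := by
          have := hpr.eq_snd_of_mem_edges he2
          simpa using this.symm
        subst hb'
        rw [Walk.cons_isPath_iff] at hpr
        refine ⟨Walk.cons h q.reverse, ?_, ?_, ?_⟩
        · rw [Walk.cons_isPath_iff]
          exact ⟨hpr.1.reverse, by simpa using hpr.2⟩
        · rw [Walk.edges_cons, List.mem_cons, not_or]
          refine ⟨?_, ?_⟩
          · intro h1
            rw [Sym2.eq_iff] at h1
            rcases h1 with ⟨_, h1⟩ | ⟨h1, h2⟩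
            · exact hbw h1
            · exact hbw (h2.trans h1)
          · intro h1
            rw [Walk.edges_reverse, List.mem_reverse] at h1
            exact hpr.2 (q.fst_mem_support_of_mem_edges h1)
        · ext e
          simp only [Walk.edges_cons, List.mem_toFinset, List.mem_cons, Finset.mem_insert,
            Walk.edges_reverse, List.mem_reverse, hedge]
          tauto

lemma cycle_path {G : SimpleGraph V} {a b u : V} {c : G.Walk u u} (hc : c.IsCycle)
    (he : s(a, b) ∈ c.edges) :
    ∃ r : G.Walk a b, r.IsPath ∧ s(a, b) ∉ r.edges ∧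
      c.edges.toFinset = insert s(a, b) r.edges.toFinset := by
  have ha : a ∈ c.support := c.fst_mem_support_of_mem_edges he
  have hperm := c.rotate_edges a ha
  obtain ⟨r, h1, h2, h3⟩ := cycle_path_aux (hc.rotate ha)
    (by exact hperm.perm.mem_iff.2 he)
  refine ⟨r, h1, h2, ?_⟩
  rw [← h3]
  ext e
  simp only [List.mem_toFinset]
  exact hperm.perm.mem_iff.symm

/-- a graph with an edge whose removal leaves a forest has at most one cycle -/
lemma at_most_one {G : SimpleGraph V} {e : Sym2 V} {H : SimpleGraph V} (hH : H.IsAcyclic)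
    (hGH : ∀ f ∈ G.edgeSet, f ≠ e → f ∈ H.edgeSet)
    {u v : V} (p : G.Walk u u) (q : G.Walk v v) (hp : p.IsCycle) (hq : q.IsCycle) :
    p.edges.toFinset = q.edges.toFinset := by
  have key : ∀ {w : V} (c : G.Walk w w), c.IsCycle → e ∈ c.edges := by
    intro w c hc
    by_contra hne
    have h1 : ∀ f ∈ c.edges, f ∈ H.edgeSet := fun f hf =>
      hGH f (c.edges_subset_edgeSet hf) (fun h => hne (h ▸ hf))
    exact hH _ (hc.transfer h1)
  have hpe := key p hp
  have hqe := key q hq
  induction e using Sym2.ind with
  | _ a b =>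
    obtain ⟨r, r1, r2, r3⟩ := cycle_path hp hpe
    obtain ⟨s, s1, s2, s3⟩ := cycle_path hq hqe
    have hr : ∀ f ∈ r.edges, f ∈ H.edgeSet := fun f hf =>
      hGH f (r.edges_subset_edgeSet hf) (fun h => r2 (h ▸ hf))
    have hs : ∀ f ∈ s.edges, f ∈ H.edgeSet := fun f hf =>
      hGH f (s.edges_subset_edgeSet hf) (fun h => s2 (h ▸ hf))
    have := (hH.subsingleton_path a b).elim ⟨r.transfer H hr, r1.transfer hr⟩
      ⟨s.transfer H hs, s1.transfer hs⟩
    have h2 : r.transfer H hr = s.transfer H hs := congrArg Subtype.val this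
    have h3 : r.edges = s.edges := by
      rw [← Walk.edges_transfer r hr, ← Walk.edges_transfer s hs, h2]
    rw [r3, s3, h3]

end Pool.Agent.X51.Avoid
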