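import Mathlib

namespace Pool.Agent.X51.HT

section A
variable {A : Type*} [AddCommGroup A] [Fintype A]

/-- `g s t = ∑ (s i - s (i+t))⁺`. -/
noncomputable def gg (s : A → ℝ) (t : A) : ℝ := ∑ i, max (s i - s (i + t)) 0

lemma gg_nonneg (s : A → ℝ) (t : A) : 0 ≤ gg s t :=
  Finset.sum_nonneg fun _ _ => le_max_right _ _

lemma gg_zero (s : A → ℝ) : gg s 0 = 0 := by simp [gg]

lemma gg_add (s : A → ℝ) (t u : A) : gg s (t + u) ≤ gg s t + gg s u := by
  have h1 : gg s u = ∑ i, max (s (i + t) - s (i + t + u)) 0 := by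
    unfold gg
    exact (Equiv.sum_comp (Equiv.addRight t) (fun i => max (s i - s (i + u)) 0)).symm
  rw [h1]
  unfold gg
  rw [← Finset.sum_add_distrib]
  refine Finset.sum_le_sum fun i _ => ?_
  rw [← add_assoc]
  refine max_le ?_ (add_nonneg (le_max_right _ _) (le_max_right _ _))
  have h2 := le_max_left (s i - s (i + t)) 0
  have h3 := le_max_left (s (i + t) - s (i + t + u)) 0
  linarith

lemma sum_gg (s : A → ℝ) : ∑ t, gg s t = ∑ i, ∑ j, max (s i - s j) 0 := by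
  unfold gg
  rw [Finset.sum_comm]
  refine Finset.sum_congr rfl fun i _ => ?_
  exact Equiv.sum_comp (Equiv.addLeft i) (fun j => max (s i - s j) 0)

end A

/-- binary expansion bound -/
lemma gg_nat {A : Type*} [AddCommGroup A] [Fintype A] (e : A) (s : A → ℝ) (L : ℕ) :
    ∀ t : ℕ, t < 2 ^ L → gg s (t • e) ≤ ∑ a ∈ Finset.range L, gg s ((2 ^ a : ℕ) • e) := by
  induction L with
  | zero =>
    intro t ht
    have : t = 0 := by simpa using ht
    subst this
    simp [gg_zero]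
  | succ L ih =>
    intro t ht
    rw [Finset.sum_range_succ]
    by_cases h : t < 2 ^ L
    · have := ih t h
      have h2 := gg_nonneg s ((2 ^ L : ℕ) • e)
      linarith
    · have h3 : t - 2 ^ L < 2 ^ L := by
        rw [pow_succ] at ht; omega
      have h4 := ih _ h3
      have h5 : t • e = (t - 2 ^ L) • e + (2 ^ L : ℕ) • e := by
        rw [← add_nsmul]
        congr 1
        omega
      rw [h5]
      have := gg_add s ((t - 2 ^ L) • e) ((2 ^ L : ℕ) • e)
      linarith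

/-- Chebyshev's sum inequality for the dyadic scales -/
lemma cheb {A : Type*} [AddCommGroup A] [Fintype A] (e : A) (s : A → ℝ) (L : ℕ) :
    (L : ℝ) * ∑ a ∈ Finset.range L, gg s ((2 ^ a : ℕ) • e) ≤
      2 ^ L * ∑ a ∈ Finset.range L, gg s ((2 ^ a : ℕ) • e) / 2 ^ a := by
  set ε : ℕ → ℝ := fun a => gg s ((2 ^ a : ℕ) • e) / 2 ^ a with hε
  have hanti : Antitone ε := by
    refine antitone_nat_of_succ_le fun a => ?_
    simp only [hε]
    rw [pow_succ (2 : ℝ), div_le_div_iff₀ (by positivity) (by positivity)]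
    have h1 : ((2 ^ (a + 1) : ℕ) • e) = (2 ^ a : ℕ) • e + (2 ^ a : ℕ) • e := by
      rw [← add_nsmul]; congr 1; ring
    have h2 := gg_add s ((2 ^ a : ℕ) • e) ((2 ^ a : ℕ) • e)
    rw [← h1] at h2
    have h3 : (0 : ℝ) < 2 ^ a := by positivity
    nlinarith
  have hmono : Monotone (fun a : ℕ => (2 : ℝ) ^ a) := pow_right_mono₀ (by norm_num)
  have hav : AntivaryOn ε (fun a : ℕ => (2 : ℝ) ^ a) (Finset.range L : Set ℕ) := by
    intro i _ j _ hij
    have : i < j := by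
      by_contra h
      exact absurd hij (not_lt.mpr (hmono (not_lt.mp h)))
    exact hanti this.le
  have h := hav.card_mul_sum_le_sum_mul_sum
  rw [Finset.card_range] at h
  have h1 : ∑ a ∈ Finset.range L, ε a * 2 ^ a = ∑ a ∈ Finset.range L, gg s ((2 ^ a : ℕ) • e) := by
    refine Finset.sum_congr rfl fun a _ => ?_
    simp only [hε]
    field_simp
  have h2 : ∑ a ∈ Finset.range L, (2 : ℝ) ^ a ≤ 2 ^ L := by
    have := geom_sum_eq (by norm_num : (2 : ℝ) ≠ 1) L
    rw [this]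
    norm_num
  have h3 : 0 ≤ ∑ a ∈ Finset.range L, ε a :=
    Finset.sum_nonneg fun a _ => div_nonneg (gg_nonneg _ _) (by positivity)
  rw [h1] at h
  calc _ ≤ _ := h
    _ ≤ (∑ a ∈ Finset.range L, ε a) * 2 ^ L := mul_le_mul_of_nonneg_left h2 h3
    _ = _ := mul_comm _ _

/-- geometric series lemma -/
lemma geo (L : ℕ) : ∀ q : ℕ → ℝ, (∀ a, 0 ≤ q a) → (∀ a, q a ≤ 1) →
    (∑ a ∈ Finset.range L, q a / 2 ^ a) ^ 2 ≤ 4 * ∑ a ∈ Finset.range L, q a / 4 ^ a ∧
    (∑ a ∈ Finset.range L, q a / 2 ^ a) ≤ 2 ∧ 0 ≤ (∑ a ∈ Finset.range L, q a / 2 ^ a) := by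
  induction L with
  | zero => intro q _ _; simp
  | succ L ih =>
    intro q h0 h1
    obtain ⟨i1, i2, i3⟩ := ih (fun a => q (a + 1)) (fun a => h0 _) (fun a => h1 _)
    rw [Finset.sum_range_succ', Finset.sum_range_succ']
    have e1 : ∑ a ∈ Finset.range L, q (a + 1) / 2 ^ (a + 1) =
        (∑ a ∈ Finset.range L, q (a + 1) / 2 ^ a) / 2 := by
      rw [Finset.sum_div]; refine Finset.sum_congr rfl fun a _ => ?_
      rw [pow_succ]; field_simp
    have e2 : ∑ a ∈ Finset.range L, q (a + 1) / 4 ^ (a + 1) =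
        (∑ a ∈ Finset.range L, q (a + 1) / 4 ^ a) / 4 := by
      rw [Finset.sum_div]; refine Finset.sum_congr rfl fun a _ => ?_
      rw [pow_succ]; field_simp
    rw [e1, e2]
    set P := ∑ a ∈ Finset.range L, q (a + 1) / 2 ^ a
    set R := ∑ a ∈ Finset.range L, q (a + 1) / 4 ^ a
    have := h0 0
    have := h1 0
    simp only [pow_zero, div_one]
    refine ⟨by nlinarith, by linarith, by linarith⟩

/-- The real-number core: `s` are the fibre sizes, `N` the fibre cardinality. -/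
lemma core {L : ℕ} (s : ZMod (2 ^ L) → ℝ) (N : ℝ) (hN : 0 < N) (h0 : ∀ i, 0 ≤ s i)
    (h1 : ∀ i, s i ≤ N) (hhalf : 2 * ∑ i, s i ≤ 2 ^ L * N) (cost : ℝ)
    (hc1 : (1 / 4) * ∑ a ∈ Finset.range L, gg s ((2 ^ a : ℕ) • (1 : ZMod (2 ^ L))) / 2 ^ a ≤ cost)
    (hc2 : (1 / 2) * ∑ i, s i * (N - s i) / N ≤ cost) :
    (L : ℝ) / (16 * 2 ^ L) * ∑ i, s i ≤ cost := by
  have : NeZero (2 ^ L) := ⟨by positivity⟩
  set G := ∑ a ∈ Finset.range L, gg s ((2 ^ a : ℕ) • (1 : ZMod (2 ^ L))) with hG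
  set M := ∑ i, s i with hM
  have hM0 : 0 ≤ M := Finset.sum_nonneg fun i _ => h0 i
  have hcard : (Fintype.card (ZMod (2 ^ L)) : ℝ) = 2 ^ L := by
    rw [ZMod.card]; push_cast; rfl
  -- average
  have hgt : ∀ t : ZMod (2 ^ L), gg s t ≤ G := by
    intro t
    have h := gg_nat (1 : ZMod (2 ^ L)) s L t.val (ZMod.val_lt t)
    have h' : t.val • (1 : ZMod (2 ^ L)) = t := by simp
    rw [h'] at h
    exact h
  have havg : ∑ i, ∑ j, max (s i - s j) 0 ≤ 2 ^ L * G := by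
    rw [← sum_gg]
    calc _ ≤ ∑ _t : ZMod (2 ^ L), G := Finset.sum_le_sum fun t _ => hgt t
      _ = 2 ^ L * G := by rw [Finset.sum_const, Finset.card_univ, nsmul_eq_mul, hcard]
  -- inequality
  have hpt : ∀ i j, s i * (N - s j) ≤ N * max (s i - s j) 0 + s i * (N - s i) := by
    intro i j
    have a1 := h0 i
    have a2 := h1 i
    have a3 := h0 j
    have a4 := h1 j
    rcases le_total (s i) (s j) with h | h
    · rw [max_eq_right (by linarith)]
      nlinarith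
    · rw [max_eq_left (by linarith)]
      nlinarith
  have hsum : M * (2 ^ L * N - M) ≤ N * (∑ i, ∑ j, max (s i - s j) 0) +
      2 ^ L * ∑ i, s i * (N - s i) := by
    have : ∑ i, ∑ j, s i * (N - s j) ≤
        ∑ i, ∑ j : ZMod (2 ^ L), (N * max (s i - s j) 0 + s i * (N - s i)) :=
      Finset.sum_le_sum fun i _ => Finset.sum_le_sum fun j _ => hpt i j
    have e1 : ∑ i, ∑ j, s i * (N - s j) = M * (2 ^ L * N - M) := by
      simp_rw [← Finset.mul_sum, Finset.sum_sub_distrib, Finset.sum_const, Finset.card_univ,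
        nsmul_eq_mul, hcard]
      rw [← Finset.sum_mul]
    have e2 : ∑ i, ∑ j : ZMod (2 ^ L), (N * max (s i - s j) 0 + s i * (N - s i)) =
        N * (∑ i, ∑ j, max (s i - s j) 0) + 2 ^ L * ∑ i, s i * (N - s i) := by
      simp_rw [Finset.sum_add_distrib, Finset.sum_const, Finset.card_univ,
        nsmul_eq_mul, hcard, ← Finset.mul_sum]
    rw [e1, e2] at this
    exact this
  have hch := cheb (1 : ZMod (2 ^ L)) s L
  rw [← hG] at hch
  set E := ∑ a ∈ Finset.range L, gg s ((2 ^ a : ℕ) • (1 : ZMod (2 ^ L))) / 2 ^ a with hE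
  set Λ := ∑ i, s i * (N - s i) with hΛ
  have hΛ0 : 0 ≤ Λ := Finset.sum_nonneg fun i _ => mul_nonneg (h0 i) (by linarith [h1 i])
  have hc2' : (1 / 2) * (Λ / N) ≤ cost := by
    rw [hΛ, Finset.sum_div]; exact hc2
  have hG0 : 0 ≤ G := Finset.sum_nonneg fun a _ => gg_nonneg _ _
  have h2L : (0 : ℝ) < 2 ^ L := by positivity
  have hLn : (L : ℝ) ≤ 2 ^ L := by exact_mod_cast (Nat.lt_two_pow_self).le
  have hL0 : (0 : ℝ) ≤ L := Nat.cast_nonneg L
  -- M/2 ≤ G + Λ/N
  have hkey : M / 2 ≤ G + Λ / N := by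
    have h3 : M * (2 ^ L * N / 2) ≤ N * (2 ^ L * G) + 2 ^ L * Λ := by
      have h4 : M * (2 ^ L * N / 2) ≤ M * (2 ^ L * N - M) :=
        mul_le_mul_of_nonneg_left (by linarith) hM0
      have h5 : N * (∑ i, ∑ j, max (s i - s j) 0) ≤ N * (2 ^ L * G) :=
        mul_le_mul_of_nonneg_left havg hN.le
      linarith
    have h6 : M / 2 * (2 ^ L * N) ≤ (G + Λ / N) * (2 ^ L * N) := by
      have : (G + Λ / N) * (2 ^ L * N) = N * (2 ^ L * G) + 2 ^ L * Λ := by
        field_simp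
      rw [this]; linarith
    exact le_of_mul_le_mul_right h6 (by positivity)
  -- cost ≥ (1/4) (L/2^L) G
  have hE' : (L : ℝ) / 2 ^ L * G ≤ E := by
    rw [div_mul_eq_mul_div, div_le_iff₀ h2L]
    linarith
  have hq : (L : ℝ) / 2 ^ L ≤ 1 := by rw [div_le_one h2L]; exact hLn
  have hq0 : 0 ≤ (L : ℝ) / 2 ^ L := by positivity
  have hcost1 : (1 / 4) * ((L : ℝ) / 2 ^ L * G) ≤ cost := by linarith
  have hcost2 : (1 / 4) * ((L : ℝ) / 2 ^ L * (Λ / N)) ≤ cost := by
    have h7 : 0 ≤ Λ / N := by positivity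
    nlinarith
  have : (L : ℝ) / (16 * 2 ^ L) * M = (1 / 8) * ((L : ℝ) / 2 ^ L * (M / 2)) := by
    field_simp; ring
  rw [this]
  have h8 : (L : ℝ) / 2 ^ L * (M / 2) ≤ (L : ℝ) / 2 ^ L * (G + Λ / N) :=
    mul_le_mul_of_nonneg_left hkey hq0
  rw [mul_add] at h8
  linarith

end Pool.Agent.X51.HT
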