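import Mathlib
import Pool.Agent.X51.HTa

namespace Pool.Agent.X51.HT
open Finset

instance (L : ℕ) : NeZero (2 ^ L) := ⟨by positivity⟩
instance (L : ℕ) : NeZero (4 ^ L) := ⟨by positivity⟩

/-- the step `2^a` in `ZMod (2^L)` -/
def e (L a : ℕ) : ZMod (2 ^ L) := (2 ^ a : ℕ) • (1 : ZMod (2 ^ L))

lemma e_eq (L a : ℕ) : e L a = ((2 ^ a : ℕ) : ZMod (2 ^ L)) := by
  unfold e; rw [nsmul_one]

lemma e_inj {L a b : ℕ} (ha : a < L) (hb : b < L) (h : e L a = e L b) : a = b := by
  rw [e_eq, e_eq, ZMod.natCast_eq_natCast_iff'] at h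
  rw [Nat.mod_eq_of_lt (Nat.pow_lt_pow_right (by norm_num) ha),
    Nat.mod_eq_of_lt (Nat.pow_lt_pow_right (by norm_num) hb)] at h
  exact Nat.pow_right_injective (le_refl 2) h

lemma e_ne {L a : ℕ} (ha : a < L) : e L a ≠ 0 := by
  intro h
  rw [e_eq, ZMod.natCast_eq_zero_iff] at h
  have := Nat.le_of_dvd (by positivity) h
  exact absurd this (not_le.mpr (Nat.pow_lt_pow_right (by norm_num) ha))

/-- the subgroup of index `4^a` of the fibre `ZMod (4^L)` -/
def H (L a : ℕ) : AddSubgroup (ZMod (4 ^ L)) := AddSubgroup.zmultiples ((4 ^ a : ℕ) : ZMod (4 ^ L))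

open scoped Classical in
noncomputable def Hf (L a : ℕ) : Finset (ZMod (4 ^ L)) := univ.filter (· ∈ H L a)

lemma mem_Hf {L a : ℕ} {z : ZMod (4 ^ L)} : z ∈ Hf L a ↔ z ∈ H L a := by
  classical
  simp [Hf]

lemma card_Hf {L a : ℕ} (ha : a ≤ L) : ((Hf L a).card : ℝ) = 4 ^ L / 4 ^ a := by
  classical
  have h1 : (Hf L a).card = Nat.card (H L a) := by
    rw [Nat.card_eq_fintype_card, Fintype.card_subtype]
    rfl
  have h2 : Nat.card (H L a) = 4 ^ (L - a) := by
    unfold H
    rw [Nat.card_zmultiples, ZMod.addOrderOf_coe _ (by positivity)]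
    have : Nat.gcd (4 ^ L) (4 ^ a) = 4 ^ a := Nat.gcd_eq_right (pow_dvd_pow 4 ha)
    rw [this, Nat.pow_div ha (by norm_num)]
  rw [h1, h2]
  push_cast
  rw [pow_sub₀ _ (by norm_num) ha]
  rfl

lemma zero_all (L : ℕ) (z : ZMod (4 ^ L)) : z ∈ H L 0 := by
  unfold H
  rw [AddSubgroup.mem_zmultiples_iff]
  refine ⟨z.val, ?_⟩
  simp

/-- membership predicate of the connection set -/
def TP (L : ℕ) (t : ZMod (2 ^ L) × ZMod (4 ^ L)) : Prop :=
  (t.1 = 0 ∧ t.2 ≠ 0) ∨ ∃ a < L, (t.1 = e L a ∨ t.1 = -e L a) ∧ t.2 ∈ H L a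

lemma TP_neg {L : ℕ} {t : ZMod (2 ^ L) × ZMod (4 ^ L)} (h : TP L t) : TP L (-t) := by
  rcases h with ⟨h1, h2⟩ | ⟨a, ha, h1, h2⟩
  · left; simp [h1, h2]
  · right
    refine ⟨a, ha, ?_, by simpa using h2⟩
    rcases h1 with h1 | h1
    · right; simp [h1]
    · left; simp [h1]

lemma TP_zero {L : ℕ} : ¬ TP L 0 := by
  rintro (⟨_, h2⟩ | ⟨a, ha, h1, _⟩)
  · exact h2 rfl
  · rcases h1 with h1 | h1
    · exact e_ne ha h1.symm
    · apply e_ne ha
      have : (0 : ZMod (2 ^ L)) = - e L a := h1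
      simpa using this.symm

open scoped Classical in
noncomputable def T (L : ℕ) : Finset (ZMod (2 ^ L) × ZMod (4 ^ L)) := univ.filter (TP L)

lemma mem_T {L : ℕ} {t : ZMod (2 ^ L) × ZMod (4 ^ L)} : t ∈ T L ↔ TP L t := by
  classical
  simp [T]

/-- the graph -/
def GG (L : ℕ) : SimpleGraph (ZMod (2 ^ L) × ZMod (4 ^ L)) where
  Adj u v := TP L (v - u)
  symm := ⟨fun u v h => by
    have := TP_neg h
    rwa [neg_sub] at this⟩
  loopless := ⟨fun u h => by
    rw [sub_self] at h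
    exact TP_zero h⟩

/-- sums over the connection set: upper bound -/
lemma sum_T_le {L : ℕ} (h : ZMod (2 ^ L) × ZMod (4 ^ L) → ℝ) (h0 : ∀ t, 0 ≤ h t) :
    ∑ t ∈ T L, h t ≤ ∑ z, h (0, z) +
      ∑ a ∈ range L, ∑ z ∈ Hf L a, (h (e L a, z) + h (-e L a, z)) := by
  classical
  have key : ∀ t : ZMod (2 ^ L) × ZMod (4 ^ L), (if t ∈ T L then h t else 0) ≤
      (if t.1 = 0 then h t else 0) + ∑ a ∈ range L,
        ((if t.1 = e L a ∧ t.2 ∈ Hf L a then h t else 0) +
         (if t.1 = -e L a ∧ t.2 ∈ Hf L a then h t else 0)) := by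
    intro t
    have hn : ∀ a ∈ range L, 0 ≤ ((if t.1 = e L a ∧ t.2 ∈ Hf L a then h t else 0) +
         (if t.1 = -e L a ∧ t.2 ∈ Hf L a then h t else 0)) := by
      intro a _
      have := h0 t
      split_ifs <;> linarith
    have hs := Finset.sum_nonneg hn
    by_cases ht : t ∈ T L
    · rw [if_pos ht]
      rcases mem_T.mp ht with ⟨h1, _⟩ | ⟨a, ha, h1, h2⟩
      · rw [if_pos h1]; linarith
      · have hle := Finset.single_le_sum hn (mem_range.mpr ha)
        have hz : 0 ≤ (if t.1 = 0 then h t else 0) := by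
          have := h0 t
          split_ifs <;> linarith
        have hge : h t ≤ ((if t.1 = e L a ∧ t.2 ∈ Hf L a then h t else 0) +
         (if t.1 = -e L a ∧ t.2 ∈ Hf L a then h t else 0)) := by
          have := h0 t
          rcases h1 with h1 | h1
          · rw [if_pos (show t.1 = e L a ∧ t.2 ∈ Hf L a from ⟨h1, mem_Hf.mpr h2⟩)]
            split_ifs <;> linarith
          · rw [if_pos (show t.1 = -e L a ∧ t.2 ∈ Hf L a from ⟨h1, mem_Hf.mpr h2⟩)]
            split_ifs <;> linarith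
        linarith
    · rw [if_neg ht]
      have hz : 0 ≤ (if t.1 = 0 then h t else 0) := by
        have := h0 t
        split_ifs <;> linarith
      linarith
  have hsum := Finset.sum_le_sum (s := univ) fun t _ => key t
  rw [← Finset.sum_filter, Finset.filter_mem_eq_inter, Finset.univ_inter] at hsum
  refine hsum.trans (le_of_eq ?_)
  rw [Finset.sum_add_distrib]
  congr 1
  · rw [Fintype.sum_prod_type, Finset.sum_eq_single 0]
    · simp
    · intro b _ hb; simp [hb]
    · simp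
  · rw [Finset.sum_comm]
    refine Finset.sum_congr rfl fun a _ => ?_
    rw [Finset.sum_add_distrib, Finset.sum_add_distrib]
    congr 1
    · rw [Fintype.sum_prod_type, Finset.sum_eq_single (e L a)]
      · simp [Finset.sum_ite_mem]
      · intro b _ hb; simp [hb]
      · simp
    · rw [Fintype.sum_prod_type, Finset.sum_eq_single (-e L a)]
      · simp [Finset.sum_ite_mem]
      · intro b _ hb; simp [hb]
      · simp

/-- sums over the connection set: lower bound by the positive steps -/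
lemma sum_T_ge {L : ℕ} (h : ZMod (2 ^ L) × ZMod (4 ^ L) → ℝ) (h0 : ∀ t, 0 ≤ h t) :
    ∑ a ∈ range L, ∑ z ∈ Hf L a, h (e L a, z) ≤ ∑ t ∈ T L, h t := by
  classical
  have key : ∀ t : ZMod (2 ^ L) × ZMod (4 ^ L), 
      ∑ a ∈ range L, (if t.1 = e L a ∧ t.2 ∈ Hf L a then h t else 0) ≤
      (if t ∈ T L then h t else 0) := by
    intro t
    by_cases hex : ∃ a < L, t.1 = e L a ∧ t.2 ∈ Hf L a
    · obtain ⟨a, ha, h1, h2⟩ := hex
      rw [Finset.sum_eq_single a]
      · rw [if_pos ⟨h1, h2⟩, if_pos (mem_T.mpr (Or.inr ⟨a, ha, Or.inl h1, mem_Hf.mp h2⟩))]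
      · intro b hb hba
        rw [if_neg]
        rintro ⟨h3, _⟩
        exact hba (e_inj (mem_range.mp hb) ha (h3.symm.trans h1))
      · intro hh; exact absurd (mem_range.mpr ha) hh
    · rw [Finset.sum_eq_zero]
      · have := h0 t
        split_ifs <;> linarith
      · intro a ha
        rw [if_neg]
        intro hh
        exact hex ⟨a, mem_range.mp ha, hh⟩
  have hsum := Finset.sum_le_sum (s := univ) fun t _ => key t
  rw [← Finset.sum_filter, Finset.filter_mem_eq_inter, Finset.univ_inter] at hsum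
  refine le_trans (le_of_eq ?_) hsum
  rw [Finset.sum_comm]
  refine Finset.sum_congr rfl fun a _ => ?_
  rw [Fintype.sum_prod_type, Finset.sum_eq_single (e L a)]
  · simp [Finset.sum_ite_mem]
  · intro b _ hb; simp [hb]
  · simp

/-- sums over the connection set: lower bound by the fibre -/
lemma sum_T_ge' {L : ℕ} (h : ZMod (2 ^ L) × ZMod (4 ^ L) → ℝ) (h0 : ∀ t, 0 ≤ h t)
    (hz : h (0, 0) = 0) : ∑ z, h (0, z) ≤ ∑ t ∈ T L, h t := by
  classical
  have key : ∀ t : ZMod (2 ^ L) × ZMod (4 ^ L), 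
      (if t.1 = 0 then h t else 0) ≤ (if t ∈ T L then h t else 0) := by
    rintro ⟨i, z⟩
    by_cases hi : i = 0
    · subst hi
      by_cases hz' : z = 0
      · subst hz'
        simp [hz]
      · simp only [if_true]
        rw [if_pos (mem_T.mpr (Or.inl ⟨rfl, hz'⟩))]
    · have := h0 (i, z)
      simp only [hi, if_false]
      split_ifs <;> linarith
  have hsum := Finset.sum_le_sum (s := univ) fun t _ => key t
  rw [← Finset.sum_filter (s := univ) (p := fun t => t ∈ T L),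
    Finset.filter_mem_eq_inter, Finset.univ_inter] at hsum
  refine le_trans (le_of_eq ?_) hsum
  symm
  rw [Fintype.sum_prod_type, Finset.sum_eq_single 0]
  · simp
  · intro b _ hb; simp [hb]
  · simp

lemma card_T_le (L : ℕ) : ((T L).card : ℝ) ≤ 4 * 4 ^ L := by
  have h := sum_T_le (L := L) (fun _ => 1) (fun _ => zero_le_one)
  simp only [sum_const, nsmul_eq_mul, mul_one, card_univ, ZMod.card] at h
  have h2 : ∑ a ∈ range L, ((Hf L a).card : ℝ) * (1 + 1) ≤ (8 / 3) * 4 ^ L := by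
    have : ∑ a ∈ range L, ((Hf L a).card : ℝ) * (1 + 1) =
        (4 ^ L * 2) * ∑ a ∈ range L, (1 / 4 : ℝ) ^ a := by
      rw [Finset.mul_sum]
      refine Finset.sum_congr rfl fun a ha => ?_
      rw [card_Hf (mem_range.mp ha).le, one_div, inv_pow]
      field_simp
      norm_num
    rw [this, geom_sum_eq (by norm_num)]
    have h3 : (0 : ℝ) < 4 ^ L := by positivity
    have h4 : (0 : ℝ) ≤ (1 / 4 : ℝ) ^ L := by positivity
    have h5 : ((1 / 4 : ℝ) ^ L - 1) / (1 / 4 - 1) ≤ 4 / 3 := by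
      rw [div_le_iff_of_neg (by norm_num)]
      linarith
    nlinarith
  have h3 : (0 : ℝ) < 4 ^ L := by positivity
  have h4 : (((4 ^ L : ℕ) : ℝ)) = 4 ^ L := by push_cast; rfl
  rw [h4] at h
  exact (h.trans (add_le_add (le_refl ((4 : ℝ) ^ L)) h2)).trans (by linarith)

lemma card_T_ge {L : ℕ} (hL : 0 < L) : (4 : ℝ) ^ L ≤ (T L).card := by
  have h := sum_T_ge (L := L) (fun _ => 1) (fun _ => zero_le_one)
  simp only [sum_const, nsmul_eq_mul, mul_one] at h
  have h2 : ((Hf L 0).card : ℝ) ≤ ∑ a ∈ range L, ((Hf L a).card : ℝ) :=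
    Finset.single_le_sum (s := range L) (f := fun a => ((Hf L a).card : ℝ))
    (fun a _ => Nat.cast_nonneg _) (mem_range.mpr hL)
  rw [card_Hf (Nat.zero_le L)] at h2
  simp only [pow_zero, div_one] at h2
  linarith

end Pool.Agent.X51.HT
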