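import Mathlib
import Pool.Agent.X51.HTb

namespace Pool.Agent.X51.HT
open Finset

open scoped Classical in
/-- indicator of `S` -/
noncomputable def chi {L : ℕ} (S : Finset (ZMod (2 ^ L) × ZMod (4 ^ L)))
    (v : ZMod (2 ^ L) × ZMod (4 ^ L)) : ℝ := if v ∈ S then 1 else 0

/-- fibre size -/
noncomputable def sz {L : ℕ} (S : Finset (ZMod (2 ^ L) × ZMod (4 ^ L))) (i : ZMod (2 ^ L)) : ℝ :=
  ∑ x, chi S (i, x)

/-- number of neighbours of `v` outside `S` -/
noncomputable def out {L : ℕ} (S : Finset (ZMod (2 ^ L) × ZMod (4 ^ L)))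
    (v : ZMod (2 ^ L) × ZMod (4 ^ L)) : ℝ := ∑ t ∈ T L, (1 - chi S (v + t))

variable {L : ℕ} (S : Finset (ZMod (2 ^ L) × ZMod (4 ^ L)))

lemma chi_nonneg (v) : 0 ≤ chi S v := by unfold chi; split_ifs <;> norm_num
lemma chi_le (v) : chi S v ≤ 1 := by unfold chi; split_ifs <;> norm_num

lemma sum_chi (f : ZMod (2 ^ L) × ZMod (4 ^ L) → ℝ) :
    ∑ v, chi S v * f v = ∑ v ∈ S, f v := by
  classical
  simp [chi, Finset.sum_ite_mem]

lemma sz_nonneg (i) : 0 ≤ sz S i := Finset.sum_nonneg fun _ _ => chi_nonneg S _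

lemma sz_le (i) : sz S i ≤ 4 ^ L := by
  unfold sz
  calc _ ≤ ∑ _x : ZMod (4 ^ L), (1 : ℝ) := Finset.sum_le_sum fun x _ => chi_le S _
    _ = 4 ^ L := by simp

lemma sum_sz : ∑ i, sz S i = S.card := by
  unfold sz
  rw [← Fintype.sum_prod_type (f := fun v => chi S v)]
  have := sum_chi S (fun _ => 1)
  simpa using this

/-- fraction of the `a`-neighbours outside `S` -/
noncomputable def q (a : ℕ) (v : ZMod (2 ^ L) × ZMod (4 ^ L)) : ℝ :=
  if a < L then (∑ z ∈ Hf L a, (1 - chi S (v + (e L a, z)))) / (4 ^ L / 4 ^ a) else 0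

lemma q_nonneg (a v) : 0 ≤ q S a v := by
  unfold q
  split_ifs
  · apply div_nonneg _ (by positivity)
    exact Finset.sum_nonneg fun z _ => by linarith [chi_le S (v + (e L a, z))]
  · exact le_refl _

lemma q_le (a v) : q S a v ≤ 1 := by
  unfold q
  split_ifs with h
  · rw [div_le_one (by positivity), ← card_Hf h.le]
    calc _ ≤ ∑ _z ∈ Hf L a, (1 : ℝ) :=
          Finset.sum_le_sum fun z _ => by linarith [chi_nonneg S (v + (e L a, z))]
      _ = _ := by simp
  · exact zero_le_one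

lemma q_sum (a : ℕ) (ha : a < L) : gg (sz S) (e L a) ≤ ∑ v, chi S v * q S a v := by
  unfold gg
  rw [Fintype.sum_prod_type]
  refine Finset.sum_le_sum fun i _ => ?_
  refine max_le ?_ (Finset.sum_nonneg fun x _ => mul_nonneg (chi_nonneg S _) (q_nonneg S _ _))
  have hd : (0 : ℝ) < 4 ^ L / 4 ^ a := by positivity
  have h1 : ∀ x : ZMod (4 ^ L), (∑ z ∈ Hf L a, (chi S (i, x) - chi S (i + e L a, x + z))) /
      (4 ^ L / 4 ^ a) ≤ chi S (i, x) * q S a (i, x) := by
    intro x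
    unfold q
    rw [if_pos ha, mul_div_assoc', Finset.mul_sum]
    refine div_le_div_of_nonneg_right (Finset.sum_le_sum fun z _ => ?_) hd.le
    have e1 : ((i, x) + (e L a, z) : ZMod (2 ^ L) × ZMod (4 ^ L)) = (i + e L a, x + z) := rfl
    rw [e1]
    have := chi_le S (i, x)
    have := chi_nonneg S (i, x)
    have := chi_nonneg S (i + e L a, x + z)
    nlinarith
  refine le_trans (le_of_eq ?_) (Finset.sum_le_sum fun x _ => h1 x)
  rw [← Finset.sum_div, Finset.sum_comm]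
  have h2 : ∀ z ∈ Hf L a, ∑ x, (chi S (i, x) - chi S (i + e L a, x + z)) =
      sz S i - sz S (i + e L a) := by
    intro z _
    rw [Finset.sum_sub_distrib]
    congr 1
    exact Equiv.sum_comp (Equiv.addRight z) (fun x => chi S (i + e L a, x))
  rw [Finset.sum_congr rfl h2, Finset.sum_const, nsmul_eq_mul, card_Hf ha.le]
  field_simp

lemma out_ge1 (v) : ∑ a ∈ range L, 4 ^ L * (q S a v / 4 ^ a) ≤ out S v := by
  unfold out
  refine le_trans (le_of_eq ?_) (sum_T_ge (fun t => 1 - chi S (v + t))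
    (fun t => by linarith [chi_le S (v + t)]))
  refine Finset.sum_congr rfl fun a ha => ?_
  unfold q
  rw [if_pos (mem_range.mp ha)]
  field_simp

lemma out_ge2 (v) (hv : v ∈ S) : 4 ^ L - sz S v.1 ≤ out S v := by
  classical
  unfold out
  have h := sum_T_ge' (fun t => 1 - chi S (v + t))
    (fun t => by linarith [chi_le S (v + t)])
    (by
      have : v + ((0, 0) : ZMod (2 ^ L) × ZMod (4 ^ L)) = v := add_zero v
      simp [this, chi, hv])
  refine le_trans (le_of_eq ?_) h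
  rw [Finset.sum_sub_distrib]
  congr 1
  · simp
  · unfold sz
    have : ∀ z : ZMod (4 ^ L), chi S (v + (0, z)) = chi S (v.1, v.2 + z) := by
      intro z
      congr 1
      ext <;> simp
    simp_rw [this]
    exact (Equiv.sum_comp (Equiv.addLeft v.2) (fun x => chi S (v.1, x))).symm

lemma sqrt_ge1 (hL : 0 < L) (v) :
    (1 / 4) * ∑ a ∈ range L, q S a v / 2 ^ a ≤ Real.sqrt (out S v / (T L).card) := by
  obtain ⟨g1, g2, g3⟩ := geo L (fun a => q S a v) (fun a => q_nonneg S a v)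
    (fun a => q_le S a v)
  apply Real.le_sqrt_of_sq_le
  have hT := card_T_le L
  have hT0 : (0 : ℝ) < (T L).card := lt_of_lt_of_le (by positivity) (card_T_ge hL)
  have ho := out_ge1 S v
  rw [← Finset.mul_sum] at ho
  rw [le_div_iff₀ hT0]
  set P := ∑ a ∈ range L, q S a v / 2 ^ a
  set R := ∑ a ∈ range L, q S a v / 4 ^ a
  have hp : (0 : ℝ) < 4 ^ L := by positivity
  calc (1 / 4 * P) ^ 2 * (T L).card ≤ (1 / 4 * P) ^ 2 * (4 * 4 ^ L) :=
        mul_le_mul_of_nonneg_left hT (by positivity)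
    _ = (P ^ 2 / 4) * 4 ^ L := by ring
    _ ≤ R * 4 ^ L := mul_le_mul_of_nonneg_right (by linarith) hp.le
    _ ≤ out S v := by linarith

lemma sqrt_ge2 (hL : 0 < L) (v) (hv : v ∈ S) :
    (1 / 2) * ((4 ^ L - sz S v.1) / 4 ^ L) ≤ Real.sqrt (out S v / (T L).card) := by
  apply Real.le_sqrt_of_sq_le
  have hT := card_T_le L
  have hT0 : (0 : ℝ) < (T L).card := lt_of_lt_of_le (by positivity) (card_T_ge hL)
  have ho := out_ge2 S v hv
  rw [le_div_iff₀ hT0]
  have hp : (0 : ℝ) < 4 ^ L := by positivity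
  have h1 := sz_nonneg S v.1
  have h2 := sz_le S v.1
  set y := (4 ^ L - sz S v.1) / 4 ^ L with hy
  have hy0 : 0 ≤ y := div_nonneg (by linarith) hp.le
  have hy1 : y ≤ 1 := by rw [hy, div_le_one hp]; linarith
  have hy2 : y * 4 ^ L = 4 ^ L - sz S v.1 := by rw [hy]; field_simp
  calc (1 / 2 * y) ^ 2 * (T L).card ≤ (1 / 2 * y) ^ 2 * (4 * 4 ^ L) :=
        mul_le_mul_of_nonneg_left hT (by positivity)
    _ = y * (y * 4 ^ L) := by ring
    _ ≤ 1 * (y * 4 ^ L) := mul_le_mul_of_nonneg_right hy1 (by positivity)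
    _ ≤ out S v := by rw [one_mul, hy2]; exact ho

theorem cost_ge (hL : 0 < L) (hS : 2 * (S.card : ℝ) ≤ 2 ^ L * 4 ^ L) :
    (L : ℝ) / (16 * 2 ^ L) * S.card ≤ ∑ v ∈ S, Real.sqrt (out S v / (T L).card) := by
  rw [← sum_sz S]
  refine core (sz S) (4 ^ L) (by positivity) (sz_nonneg S) (sz_le S)
    (by rw [sum_sz]; exact hS) _ ?_ ?_
  · calc (1 / 4) * ∑ a ∈ range L, gg (sz S) ((2 ^ a : ℕ) • (1 : ZMod (2 ^ L))) / 2 ^ a
        ≤ (1 / 4) * ∑ a ∈ range L, (∑ v, chi S v * q S a v) / 2 ^ a := by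
          refine mul_le_mul_of_nonneg_left (Finset.sum_le_sum fun a ha => ?_) (by norm_num)
          exact div_le_div_of_nonneg_right (q_sum S a (mem_range.mp ha)) (by positivity)
      _ = ∑ v, chi S v * ((1 / 4) * ∑ a ∈ range L, q S a v / 2 ^ a) := by
          simp_rw [Finset.sum_div, Finset.mul_sum]
          rw [Finset.sum_comm]
          refine Finset.sum_congr rfl fun v _ => Finset.sum_congr rfl fun a _ => ?_
          ring
      _ = ∑ v ∈ S, ((1 / 4) * ∑ a ∈ range L, q S a v / 2 ^ a) := sum_chi S _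
      _ ≤ _ := Finset.sum_le_sum fun v _ => sqrt_ge1 S hL v
  · calc (1 / 2) * ∑ i, sz S i * (4 ^ L - sz S i) / 4 ^ L
        = ∑ v, chi S v * ((1 / 2) * ((4 ^ L - sz S v.1) / 4 ^ L)) := by
          rw [Fintype.sum_prod_type, Finset.mul_sum]
          refine Finset.sum_congr rfl fun i _ => ?_
          simp only
          rw [← Finset.sum_mul]
          unfold sz
          ring
      _ = ∑ v ∈ S, ((1 / 2) * ((4 ^ L - sz S v.1) / 4 ^ L)) := sum_chi S _
      _ ≤ _ := Finset.sum_le_sum fun v hv => sqrt_ge2 S hL v hv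

end Pool.Agent.X51.HT
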