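import Mathlib
import Pool.Agent.X51.HTc

namespace Pool.Agent.X51.HT
open Finset

/-- real part of the standard character -/
noncomputable def cc {L : ℕ} (i : ZMod (2 ^ L)) : ℝ := ((ZMod.toCircle i : Circle) : ℂ).re
noncomputable def ss {L : ℕ} (i : ZMod (2 ^ L)) : ℝ := ((ZMod.toCircle i : Circle) : ℂ).im

lemma cc_add {L : ℕ} (i j : ZMod (2 ^ L)) : cc (i + j) = cc i * cc j - ss i * ss j := by
  unfold cc ss
  rw [AddChar.map_add_eq_mul, Circle.coe_mul, Complex.mul_re]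

lemma cc_neg {L : ℕ} (i : ZMod (2 ^ L)) : cc (-i) = cc i := by
  unfold cc
  rw [AddChar.map_neg_eq_inv, Circle.coe_inv_eq_conj, Complex.conj_re]

lemma ss_neg {L : ℕ} (i : ZMod (2 ^ L)) : ss (-i) = -ss i := by
  unfold ss
  rw [AddChar.map_neg_eq_inv, Circle.coe_inv_eq_conj, Complex.conj_im]

lemma cc_le {L : ℕ} (i : ZMod (2 ^ L)) : cc i ≤ 1 := by
  unfold cc
  refine (Complex.re_le_norm _).trans ?_
  rw [Circle.norm_coe]

lemma cc_zero {L : ℕ} : cc (0 : ZMod (2 ^ L)) = 1 := by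
  unfold cc
  simp

lemma cc_e {L : ℕ} (a : ℕ) : cc (e L a) = Real.cos (2 * Real.pi * 2 ^ a / 2 ^ L) := by
  unfold cc
  rw [e_eq, ZMod.toCircle_natCast]
  have : (2 * (Real.pi : ℂ) * Complex.I * ((2 ^ a : ℕ) : ℂ) / ((2 ^ L : ℕ) : ℂ)) =
      ((2 * Real.pi * 2 ^ a / 2 ^ L : ℝ) : ℂ) * Complex.I := by
    push_cast; ring
  rw [this, Complex.exp_ofReal_mul_I_re]

lemma sum_ss {L : ℕ} : ∑ t ∈ T L, ss t.1 = 0 := by
  have h : ∑ t ∈ T L, ss t.1 = ∑ t ∈ T L, ss (-t).1 := by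
    refine Finset.sum_bij (fun t _ => -t) ?_ ?_ ?_ ?_
    · intro t ht; exact mem_T.mpr (TP_neg (mem_T.mp ht))
    · intro a _ b _ hab; simpa using hab
    · intro b hb; exact ⟨-b, mem_T.mpr (TP_neg (mem_T.mp hb)), by simp⟩
    · intro t _; simp
  have h2 : ∑ t ∈ T L, ss (-t).1 = - ∑ t ∈ T L, ss t.1 := by
    rw [← Finset.sum_neg_distrib]
    refine Finset.sum_congr rfl fun t _ => ?_
    rw [Prod.fst_neg, ss_neg]
  linarith

lemma sum_cc {L : ℕ} (i : ZMod (2 ^ L)) :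
    ∑ t ∈ T L, cc (i + t.1) = cc i * ∑ t ∈ T L, cc t.1 := by
  simp_rw [cc_add, Finset.sum_sub_distrib, ← Finset.mul_sum, sum_ss]
  ring

lemma gap_le {L : ℕ} : ∑ t ∈ T L, (1 - cc t.1) ≤ 4 * Real.pi ^ 2 * L := by
  have h := sum_T_le (L := L) (fun t => 1 - cc t.1) (fun t => by linarith [cc_le t.1])
  refine h.trans ?_
  have h1 : ∑ z : ZMod (4 ^ L), (1 - cc ((0, z) : ZMod (2 ^ L) × ZMod (4 ^ L)).1) = 0 := by
    refine Finset.sum_eq_zero fun z _ => ?_
    simp [cc_zero]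
  rw [h1, zero_add]
  calc _ ≤ ∑ _a ∈ range L, 4 * Real.pi ^ 2 := by
        refine Finset.sum_le_sum fun a ha => ?_
        simp only [cc_neg]
        rw [Finset.sum_const, nsmul_eq_mul, card_Hf (mem_range.mp ha).le, cc_e]
        have hc := Real.one_sub_sq_div_two_le_cos (x := 2 * Real.pi * 2 ^ a / 2 ^ L)
        have h2 : (2 * Real.pi * 2 ^ a / 2 ^ L) ^ 2 = 4 * Real.pi ^ 2 * (4 ^ a / 4 ^ L) := by
          have e1 : (4 : ℝ) ^ a = (2 ^ a) ^ 2 := by rw [← pow_mul, mul_comm, pow_mul]; norm_num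
          have e2 : (4 : ℝ) ^ L = (2 ^ L) ^ 2 := by rw [← pow_mul, mul_comm, pow_mul]; norm_num
          rw [e1, e2]; field_simp; ring
        rw [h2] at hc
        have h3 : (0 : ℝ) < 4 ^ L / 4 ^ a := by positivity
        have h4 : (4 : ℝ) ^ L / 4 ^ a * (4 ^ a / 4 ^ L) = 1 := by field_simp
        have h5 : 1 - Real.cos (2 * Real.pi * 2 ^ a / 2 ^ L) +
            (1 - Real.cos (2 * Real.pi * 2 ^ a / 2 ^ L)) ≤
            4 * Real.pi ^ 2 * (4 ^ a / 4 ^ L) := by linarith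
        calc _ ≤ 4 ^ L / 4 ^ a * (4 * Real.pi ^ 2 * (4 ^ a / 4 ^ L)) :=
              mul_le_mul_of_nonneg_left h5 h3.le
          _ = 4 * Real.pi ^ 2 * (4 ^ L / 4 ^ a * (4 ^ a / 4 ^ L)) := by ring
          _ = 4 * Real.pi ^ 2 := by rw [h4, mul_one]
    _ = 4 * Real.pi ^ 2 * L := by simp; ring

lemma gap_pos {L : ℕ} (hL : 0 < L) : 0 < ∑ t ∈ T L, (1 - cc t.1) := by
  refine Finset.sum_pos' (fun t _ => by linarith [cc_le t.1]) ⟨(e L 0, 0), ?_, ?_⟩
  · exact mem_T.mpr (Or.inr ⟨0, hL, Or.inl rfl, zero_all L 0⟩)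
  · have h1 : cc (e L 0) = Real.cos (2 * Real.pi * 2 ^ 0 / 2 ^ L) := cc_e 0
    have hx : 2 * Real.pi * 2 ^ 0 / 2 ^ L < 2 * Real.pi := by
      rw [pow_zero, mul_one, div_lt_iff₀ (by positivity)]
      have : (1 : ℝ) < 2 ^ L := one_lt_pow₀ (by norm_num) hL.ne'
      nlinarith [Real.pi_pos]
    have hx0 : 0 < 2 * Real.pi * 2 ^ 0 / 2 ^ L := by positivity
    have h2 := Real.cos_eq_one_iff_of_lt_of_lt (x := 2 * Real.pi * 2 ^ 0 / 2 ^ L)
      (by linarith [Real.pi_pos]) hx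
    have h3 : Real.cos (2 * Real.pi * 2 ^ 0 / 2 ^ L) ≠ 1 := by
      intro h; exact absurd (h2.mp h) hx0.ne'
    have h4 := Real.cos_le_one (2 * Real.pi * 2 ^ 0 / 2 ^ L)
    have h5 := lt_of_le_of_ne h4 h3
    simp only
    linarith

open scoped Classical in
lemma sum_adj {L : ℕ} (v : ZMod (2 ^ L) × ZMod (4 ^ L)) (h : ZMod (2 ^ L) × ZMod (4 ^ L) → ℝ) :
    ∑ u, (if (GG L).Adj v u then h u else 0) = ∑ t ∈ T L, h (v + t) := by
  rw [← Equiv.sum_comp (Equiv.addLeft v)]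
  have : ∀ t, (if (GG L).Adj v ((Equiv.addLeft v) t) then h ((Equiv.addLeft v) t) else 0) =
      if t ∈ T L then h (v + t) else 0 := by
    intro t
    have : (GG L).Adj v (v + t) ↔ t ∈ T L := by
      rw [mem_T]
      change TP L (v + t - v) ↔ _
      rw [add_sub_cancel_left]
    simp only [Equiv.coe_addLeft, this]
  simp_rw [this]
  simp [Finset.sum_ite_mem]

lemma connected {L : ℕ} (hL : 0 < L) : (GG L).Connected := by
  have hstep : ∀ (i : ZMod (2 ^ L)) (x y : ZMod (4 ^ L)), (GG L).Reachable (i, x) (i, y) := by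
    intro i x y
    by_cases h : x = y
    · rw [h]
    · apply SimpleGraph.Adj.reachable
      change TP L _
      left
      exact ⟨by simp, by simpa [sub_eq_zero] using fun h' => h h'.symm⟩
  have hnext : ∀ (i : ZMod (2 ^ L)) (x : ZMod (4 ^ L)), (GG L).Reachable (i, x) (i + 1, x) := by
    intro i x
    apply SimpleGraph.Adj.reachable
    change TP L _
    right
    refine ⟨0, hL, Or.inl ?_, zero_all L _⟩
    simp [e]
  have hall : ∀ (k : ℕ) (x : ZMod (4 ^ L)), (GG L).Reachable (0, x) ((k : ZMod (2 ^ L)), x) := by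
    intro k x
    induction k with
    | zero => simp
    | succ k ih =>
      push_cast
      exact ih.trans (hnext _ _)
  have h0 : ∀ v : ZMod (2 ^ L) × ZMod (4 ^ L), (GG L).Reachable (0, 0) v := by
    rintro ⟨i, x⟩
    have h1 := hall i.val 0
    rw [ZMod.natCast_zmod_val] at h1
    exact h1.trans (hstep _ _ _)
  exact { preconnected := fun u v => (h0 u).symm.trans (h0 v), nonempty := ⟨(0, 0)⟩ }

end Pool.Agent.X51.HT
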