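import Mathlib

namespace Pool.Agent.X51.Thr

/-- adjacency in terms of the difference -/
def Dd (t d : ℝ) : Prop := (0 ≤ d ∧ d < 2) ∨ t + 1 ≤ d

/-- the pattern -/
def pat (m l i j : ℕ) : Prop := (i ≤ j ∧ j < i + m) ∨ i + m + l ≤ j

lemma mono_state {t : ℝ} (ht : 1 < t) {d d' : ℝ} (h : Dd t d) (h' : ¬ Dd t d') (hdd : d' ≤ d) :
    (0 ≤ d ∧ d < 2 ∧ d' < 0) ∨ (t + 1 ≤ d ∧ d' < t + 1) := by
  unfold Dd at h h'
  push Not at h'
  rcases h with h | h
  · left
    refine ⟨h.1, h.2, ?_⟩
    by_contra hc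
    push Not at hc
    have := h'.1 hc
    linarith [h.2]
  · right
    exact ⟨h, h'.2⟩

lemma mono_state' {t : ℝ} (ht : 1 < t) {d d' : ℝ} (h : Dd t d) (h' : ¬ Dd t d') (hdd : d ≤ d') :
    0 ≤ d ∧ d < 2 ∧ 2 ≤ d' ∧ d' < t + 1 := by
  unfold Dd at h h'
  push Not at h'
  rcases h with h | h
  · have h2 := h'.1 (by linarith [h.1])
    exact ⟨h.1, h.2, h2, h'.2⟩
  · exfalso
    have := h'.2
    linarith

section

variable {t : ℝ} {m l n : ℕ} {a y : ℕ → ℝ}

/-- two changes of direction are impossible in a short interval -/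
lemma no_two_changes (ht : 1 < t) {Y p q r s : ℝ} (hp : Dd t (Y - p)) (hq : Dd t (Y - q))
    (hr : ¬ Dd t (Y - r)) (hs : ¬ Dd t (Y - s)) (hpr : p ≤ r) (hsq : s ≤ q)
    (hrs : r - s < 2) (hqp : q - p < t - 1) : False := by
  have h1 := mono_state ht hp hr (by linarith)
  have h2 := mono_state' ht hq hs (by linarith)
  rcases h1 with ⟨h3, h4, h5⟩ | ⟨h3, h4⟩
  · linarith [h2.2.2.1]
  · linarith [h2.2.1]

lemma order1 (ht : 1 < t) (hm : 5 ≤ m) (hl : 5 ≤ l)
    (h : ∀ i < n, ∀ j < n, Dd t (y j - a i) ↔ pat m l i j) {j Δ : ℕ} (h3 : 3 ≤ Δ) (h5 : Δ ≤ 5)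
    (hlo : m + l ≤ j + 1) (hhi : j + Δ + m ≤ n) : y j < y (j + Δ) := by
  by_contra hc
  push Not at hc
  -- the four elements
  obtain ⟨v, hv⟩ : ∃ v, v + (m + l) = j + 1 := ⟨j + 1 - (m + l), by omega⟩
  have key : ∀ u, u < n → pat m l u (j + Δ) → ¬ pat m l u j →
      y (j + Δ) - 2 < a u ∧ a u ≤ y (j + Δ) ∧ y j - t - 1 < a u ∧ a u ≤ y j - 2 := by
    intro u hu h1 h2
    have e1 := (h u hu (j + Δ) (by omega)).2 h1
    have e2 := mt (h u hu j (by omega)).1 h2
    have := mono_state' ht e1 e2 (by linarith)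
    obtain ⟨b1, b2, b3, b4⟩ := this
    refine ⟨by linarith, by linarith, by linarith, by linarith⟩
  have K1 := key (j + 1) (by omega) (by unfold pat; omega) (by unfold pat; omega)
  have K2 := key (j + 2) (by omega) (by unfold pat; omega) (by unfold pat; omega)
  have K3 := key (j + Δ) (by omega) (by unfold pat; omega) (by unfold pat; omega)
  have K4 := key v (by omega) (by unfold pat; omega) (by unfold pat; omega)
  -- adjacency with y (j+1)
  have A1 : Dd t (y (j + 1) - a (j + 1)) := (h _ (by omega) _ (by omega)).2 (by unfold pat; omega)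
  have A4 : Dd t (y (j + 1) - a v) := (h _ (by omega) _ (by omega)).2 (by unfold pat; omega)
  have A2 : ¬ Dd t (y (j + 1) - a (j + 2)) :=
    mt (h _ (by omega) _ (by omega)).1 (by unfold pat; omega)
  have A3 : ¬ Dd t (y (j + 1) - a (j + Δ)) :=
    mt (h _ (by omega) _ (by omega)).1 (by unfold pat; omega)
  -- adjacency with y (j+Δ+m-1)
  obtain ⟨k, hk⟩ : ∃ k, k + 1 = j + Δ + m := ⟨j + Δ + m - 1, by omega⟩
  have B3 : Dd t (y k - a (j + Δ)) := (h _ (by omega) _ (by omega)).2 (by unfold pat; omega)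
  have B4 : Dd t (y k - a v) := (h _ (by omega) _ (by omega)).2 (by unfold pat; omega)
  have B1 : ¬ Dd t (y k - a (j + 1)) :=
    mt (h _ (by omega) _ (by omega)).1 (by unfold pat; omega)
  have B2 : ¬ Dd t (y k - a (j + 2)) :=
    mt (h _ (by omega) _ (by omega)).1 (by unfold pat; omega)
  obtain ⟨p1, p2, p3, p4⟩ := K1
  obtain ⟨q1, q2, q3, q4⟩ := K2
  obtain ⟨r1, r2, r3, r4⟩ := K3
  obtain ⟨s1, s2, s3, s4⟩ := K4
  -- case analysis on the order
  rcases le_total (a (j + 1)) (a (j + 2)) with c1 | c1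
  · -- in ≤ out for the first
    have d1 : a (j + 1) ≤ a (j + Δ) := by
      by_contra hh
      exact no_two_changes ht A1 A1 A2 A3 c1 (by linarith) (by linarith) (by linarith)
    have d2 : a v ≤ a (j + 2) := by
      by_contra hh
      exact no_two_changes ht A1 A4 A2 A2 c1 (by linarith) (by linarith) (by linarith)
    rcases le_total (a v) (a (j + 1)) with c2 | c2
    · -- v ≤ 1 : then everything in ≤ out for k
      have d3 : a (j + Δ) ≤ a (j + 1) := by
        by_contra hh
        exact no_two_changes ht B4 B3 B1 B1 c2 (by linarith) (by linarith) (by linarith)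
      have e : a (j + Δ) = a (j + 1) := le_antisymm d3 d1
      rw [e] at B3
      exact B1 B3
    · have d3 : a (j + 2) ≤ a v := by
        by_contra hh
        exact no_two_changes ht B4 B4 B2 B1 (by linarith) c2 (by linarith) (by linarith)
      have e : a (j + 2) = a v := le_antisymm d3 d2
      rw [e] at B2
      exact B2 B4
  · have d1 : a (j + Δ) ≤ a (j + 1) := by
      by_contra hh
      exact no_two_changes ht A1 A1 A3 A2 (by linarith) c1 (by linarith) (by linarith)
    have d2 : a (j + 2) ≤ a v := by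
      by_contra hh
      exact no_two_changes ht A4 A1 A2 A2 (by linarith) c1 (by linarith) (by linarith)
    rcases le_total (a v) (a (j + 1)) with c2 | c2
    · have d3 : a v ≤ a (j + 2) := by
        by_contra hh
        exact no_two_changes ht B4 B4 B1 B2 c2 (by linarith) (by linarith) (by linarith)
      have e : a v = a (j + 2) := le_antisymm d3 d2
      rw [← e] at B2
      exact B2 B4
    · have d3 : a (j + 1) ≤ a (j + Δ) := by
        by_contra hh
        exact no_two_changes ht B3 B4 B1 B1 (by linarith) c2 (by linarith) (by linarith)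
      have e : a (j + Δ) = a (j + 1) := le_antisymm d1 d3
      rw [e] at B3
      exact B1 B3

lemma order (ht : 1 < t) (hm : 5 ≤ m) (hl : 5 ≤ l)
    (h : ∀ i < n, ∀ j < n, Dd t (y j - a i) ↔ pat m l i j) :
    ∀ (Δ : ℕ), 3 ≤ Δ → ∀ j, m + l ≤ j + 1 → j + Δ + m ≤ n → y j < y (j + Δ) := by
  intro Δ
  induction Δ using Nat.strong_induction_on with
  | _ Δ ih =>
    intro h3 j hlo hhi
    by_cases h5 : Δ ≤ 5
    · exact order1 ht hm hl h h3 h5 hlo hhi
    · have e1 := order1 ht hm hl h (j := j) (Δ := 3) le_rfl (by norm_num) hlo (by omega)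
      have e2 := ih (Δ - 3) (by omega) (by omega) (j + 3) (by omega) (by omega)
      have e3 : j + 3 + (Δ - 3) = j + Δ := by omega
      rw [e3] at e2
      linarith

/-- the two steps -/
lemma steps (ht : 1 < t) (hm : 5 ≤ m) (hl : 5 ≤ l)
    (h : ∀ i < n, ∀ j < n, Dd t (y j - a i) ↔ pat m l i j) {i : ℕ}
    (hlo : m + l ≤ i) (hhi : i + 1 + 2 * m + l ≤ n) :
    2 < y (i + 1 + m) - y i ∧ y (i + m + l) - y (i + 1 + m) < t - 1 := by
  have hord := order ht hm hl h
  -- element i+1 of X
  have w0 : Dd t (y (i + 1) - a (i + 1)) := (h _ (by omega) _ (by omega)).2 (by unfold pat; omega)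
  have w2 : Dd t (y (i + 3) - a (i + 1)) := (h _ (by omega) _ (by omega)).2 (by unfold pat; omega)
  have g0 : ¬ Dd t (y (i + 1 + m) - a (i + 1)) :=
    mt (h _ (by omega) _ (by omega)).1 (by unfold pat; omega)
  have g2 : ¬ Dd t (y (i + 3 + m) - a (i + 1)) :=
    mt (h _ (by omega) _ (by omega)).1 (by unfold pat; omega)
  have g1 : ¬ Dd t (y (i + m + l) - a (i + 1)) :=
    mt (h _ (by omega) _ (by omega)).1 (by unfold pat; omega)
  have z0 : ¬ Dd t (y i - a (i + 1)) :=
    mt (h _ (by omega) _ (by omega)).1 (by unfold pat; omega)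
  have o1 : y (i + 1) < y (i + 1 + m) := hord m (by omega) _ (by omega) (by omega)
  have o2 : y (i + 1) < y (i + m + l) := by
    have := hord (m + l - 1) (by omega) (i + 1) (by omega) (by omega)
    have e : i + 1 + (m + l - 1) = i + m + l := by omega
    rwa [e] at this
  have o3 : y (i + 3) < y (i + 3 + m) := hord m (by omega) _ (by omega) (by omega)
  have o4 : y i < y (i + 3) := hord 3 (by omega) _ (by omega) (by omega)
  have s1 := mono_state' ht w0 g0 (by linarith)
  have s2 := mono_state' ht w0 g1 (by linarith)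
  have s3 := mono_state' ht w2 g2 (by linarith)
  have s4 := mono_state ht w2 z0 (by linarith)
  have s5 : y i - a (i + 1) < 0 := by
    rcases s4 with s4 | s4
    · exact s4.2.2
    · exfalso
      linarith [s3.2.1, s4.1]
  constructor
  · linarith [s1.2.2.1]
  · linarith [s2.2.2.2, s1.2.2.1]

lemma core {p : ℕ} (ht : 1 < t) (hm : 5 ≤ m) (hp : 4 ≤ p)
    (hn : (m + 1) * p + 6 * (m + p + 1) + 10 ≤ n)
    (h : ∀ i < n, ∀ j < n, Dd t (y j - a i) ↔ pat m (p + 1) i j) :
    2 * (p : ℝ) < ((m : ℝ) + 1) * (t - 1) := by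
  have hst := fun i => steps (i := i) ht hm (by omega : 5 ≤ p + 1) h
  obtain ⟨s, hs⟩ : ∃ s, s = 2 * (m + p + 1) := ⟨_, rfl⟩
  have c1 : ∀ r, r ≤ p → 2 * (r : ℝ) ≤ y (s + r * (m + 1)) - y s := by
    intro r
    induction r with
    | zero => intro _; simp
    | succ r ih =>
      intro hr
      have e1 := ih (by omega)
      have hb : r * (m + 1) + (m + 1) ≤ (m + 1) * p := by
        have : (r + 1) * (m + 1) ≤ p * (m + 1) := Nat.mul_le_mul_right _ hr
        calc r * (m + 1) + (m + 1) = (r + 1) * (m + 1) := by ring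
          _ ≤ p * (m + 1) := this
          _ = (m + 1) * p := by ring
      have e2 := (hst (s + r * (m + 1)) (by omega) (by omega)).1
      have e3 : s + r * (m + 1) + 1 + m = s + (r + 1) * (m + 1) := by ring
      rw [e3] at e2
      push_cast
      linarith
  have c1' : 2 * (p : ℝ) ≤ y (s + p * (m + 1)) - y s := c1 p le_rfl
  have c2 : ∀ r, r ≤ m → y (s + (r + 1) * p) - y s < ((r : ℝ) + 1) * (t - 1) := by
    intro r
    induction r with
    | zero =>
      intro _
      obtain ⟨i, hi⟩ : ∃ i, i + (m + 1) = s := ⟨s - (m + 1), by omega⟩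
      have e2 := (hst i (by omega) (by nlinarith)).2
      have e3 : i + m + (p + 1) = s + (0 + 1) * p := by omega
      have e4 : i + 1 + m = s := by omega
      rw [e3, e4] at e2
      simp only [Nat.cast_zero]
      linarith
    | succ r ih =>
      intro hr
      have e1 := ih (by omega)
      have hb : (r + 1) * p + p ≤ (m + 1) * p := by
        have : (r + 2) * p ≤ (m + 1) * p := Nat.mul_le_mul_right _ (by omega)
        calc (r + 1) * p + p = (r + 2) * p := by ring
          _ ≤ (m + 1) * p := this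
      obtain ⟨i, hi⟩ : ∃ i, i + (m + 1) = s + (r + 1) * p := ⟨s + (r + 1) * p - (m + 1), by omega⟩
      have e2 := (hst i (by omega) (by omega)).2
      have e3 : i + m + (p + 1) = s + (r + 1 + 1) * p := by
        have : (r + 1 + 1) * p = (r + 1) * p + p := by ring
        omega
      have e4 : i + 1 + m = s + (r + 1) * p := by omega
      rw [e3, e4] at e2
      push_cast
      linarith
  have c2' := c2 m le_rfl
  have e : (m + 1) * p = p * (m + 1) := by ring
  rw [e] at c2'
  linarith

end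

end Pool.Agent.X51.Thr
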