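import Mathlib
import Pool.Agent.X51.Thr

namespace Pool.Agent.X51.Thr

/-- the edge condition on the rank sum -/
def E (t s : ℝ) : Prop := (-1 ≤ s ∧ s < 1) ∨ t ≤ s

/-- the graph -/
def G0 (m l n : ℕ) : SimpleGraph (Fin n ⊕ Fin n) where
  Adj v w := match v, w with
    | Sum.inl _, Sum.inl _ => False
    | Sum.inr k, Sum.inr k' => k ≠ k'
    | Sum.inl i, Sum.inr k => pat m l i k
    | Sum.inr k, Sum.inl i => pat m l i k
  symm := ⟨by
    intro v w h
    rcases v with v | v <;> rcases w with w | w
    · exact h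
    · exact h
    · exact h
    · exact fun e => h e.symm⟩
  loopless := ⟨by
    intro v h
    rcases v with v | v
    · exact h
    · exact h rfl⟩

theorem sep_raw {t t' : ℝ} (ht : 1 < t) (htt : t < t') :
    ∃ (N : ℕ) (G : SimpleGraph (Fin N)),
      (∃ r : Fin N → ℝ, ∀ v w, v ≠ w → (G.Adj v w ↔ E t' (r v + r w))) ∧
      ¬ (∃ r : Fin N → ℝ, ∀ v w, v ≠ w → (G.Adj v w ↔ E t (r v + r w))) := by
  obtain ⟨m, hm⟩ := exists_nat_ge ((t + 1) / (t' - t) + 10 / (t' - 1) + 5)
  have hp1 : 0 < (t + 1) / (t' - t) := div_pos (by linarith) (by linarith)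
  have hp2 : 0 < 10 / (t' - 1) := div_pos (by norm_num) (by linarith)
  have hm5 : (5 : ℝ) ≤ m := by linarith
  have hm5' : 5 ≤ m := by exact_mod_cast hm5
  have hm1 : t + 1 ≤ m * (t' - t) := by
    have : (t + 1) / (t' - t) ≤ m := by linarith
    rwa [div_le_iff₀ (by linarith)] at this
  have hm2 : 10 ≤ m * (t' - 1) := by
    have : 10 / (t' - 1) ≤ m := by linarith
    rwa [div_le_iff₀ (by linarith)] at this
  have hm0 : (0 : ℝ) < m := by linarith
  -- the parameter p
  obtain ⟨p, hp, hp'⟩ : ∃ p : ℕ, (p : ℝ) < m * (t' - 1) / 2 ∧ m * (t' - 1) / 2 ≤ p + 1 := by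
    have h1 : 0 < ⌈m * (t' - 1) / 2⌉₊ := Nat.ceil_pos.2 (by linarith)
    refine ⟨⌈m * (t' - 1) / 2⌉₊ - 1, ?_, ?_⟩
    · have := Nat.ceil_lt_add_one (a := m * (t' - 1) / 2) (by linarith)
      rw [Nat.cast_sub h1]
      push_cast
      linarith
    · have := Nat.le_ceil (m * (t' - 1) / 2)
      rw [Nat.cast_sub h1]
      push_cast
      linarith
  have hp4 : 4 ≤ p := by
    have : (4 : ℝ) ≤ p := by linarith
    exact_mod_cast this
  set n := (m + 1) * p + 6 * (m + p + 1) + 10 with hn
  refine ⟨n + n, (G0 m (p + 1) n).comap finSumFinEquiv.symm, ?_, ?_⟩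
  · -- membership for t'
    have hex : ∃ r : Fin n ⊕ Fin n → ℝ, ∀ v w, v ≠ w →
        ((G0 m (p + 1) n).Adj v w ↔ E t' (r v + r w)) := by
      have hcross : ∀ i k : Fin n, pat m (p + 1) i k ↔
          E t' ((-1 - (t' + 1) - 2 / m * (i : ℝ)) + ((t' + 1) + 2 / m * (k : ℝ))) := by
        intro i k
        have e : (-1 - (t' + 1) - 2 / m * (i : ℝ)) + ((t' + 1) + 2 / m * (k : ℝ)) =
          -1 + 2 * ((k : ℝ) - i) / m := by field_simp; ring
        rw [e]
        unfold pat E
        constructor
        · rintro (⟨h1, h2⟩ | h1)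
          · left
            have h1' : ((i : ℕ) : ℝ) ≤ ((k : ℕ) : ℝ) := by exact_mod_cast h1
            have h2' : ((k : ℕ) : ℝ) < ((i : ℕ) : ℝ) + m := by exact_mod_cast h2
            constructor
            · have : 0 ≤ 2 * (((k : ℕ) : ℝ) - (i : ℕ)) / m := by
                apply div_nonneg _ hm0.le
                linarith
              linarith
            · have : 2 * (((k : ℕ) : ℝ) - (i : ℕ)) / m < 2 := by
                rw [div_lt_iff₀ hm0]
                linarith
              linarith
          · right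
            have h1' : ((i : ℕ) : ℝ) + m + (p + 1) ≤ ((k : ℕ) : ℝ) := by exact_mod_cast h1
            have : t' + 1 ≤ 2 * (((k : ℕ) : ℝ) - (i : ℕ)) / m := by
              rw [le_div_iff₀ hm0]
              linarith
            linarith
        · rintro (⟨h1, h2⟩ | h1)
          · left
            have h3 : 0 ≤ 2 * (((k : ℕ) : ℝ) - (i : ℕ)) / m := by linarith
            have h4 : 2 * (((k : ℕ) : ℝ) - (i : ℕ)) / m < 2 := by linarith
            rw [div_lt_iff₀ hm0] at h4
            rw [le_div_iff₀ hm0] at h3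
            constructor
            · have : ((i : ℕ) : ℝ) ≤ ((k : ℕ) : ℝ) := by linarith
              exact_mod_cast this
            · have : ((k : ℕ) : ℝ) < ((i : ℕ) : ℝ) + m := by linarith
              exact_mod_cast this
          · right
            have h3 : t' + 1 ≤ 2 * (((k : ℕ) : ℝ) - (i : ℕ)) / m := by linarith
            rw [le_div_iff₀ hm0] at h3
            have h4 : ((i : ℕ) : ℝ) + m + p < ((k : ℕ) : ℝ) := by linarith
            have h5 : (i : ℕ) + m + p < (k : ℕ) := by exact_mod_cast h4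
            omega
      refine ⟨fun v => match v with
        | Sum.inl i => -1 - (t' + 1) - 2 / m * (i : ℝ)
        | Sum.inr k => (t' + 1) + 2 / m * (k : ℝ), ?_⟩
      intro v w hvw
      rcases v with i | k <;> rcases w with i' | k'
      · constructor
        · intro h; exact h.elim
        · intro h
          have h1 : 0 ≤ 2 / (m : ℝ) * ((i : ℕ) : ℝ) := by positivity
          have h2 : 0 ≤ 2 / (m : ℝ) * ((i' : ℕ) : ℝ) := by positivity
          rcases h with h | h
          · have := h.1
            linarith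
          · linarith
      · exact hcross i k'
      · rw [show E t' _ ↔ E t' ((-1 - (t' + 1) - 2 / m * (i' : ℝ)) + ((t' + 1) + 2 / m * (k : ℝ)))
          from by rw [add_comm]]
        exact hcross i' k
      · constructor
        · intro _
          right
          have h1 : 0 ≤ 2 / (m : ℝ) * ((k : ℕ) : ℝ) := by positivity
          have h2 : 0 ≤ 2 / (m : ℝ) * ((k' : ℕ) : ℝ) := by positivity
          linarith
        · intro _ e
          exact hvw (by rw [e])
    obtain ⟨r, hr⟩ := hex
    refine ⟨fun v => r (finSumFinEquiv.symm v), ?_⟩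
    intro v w hvw
    exact hr _ _ (fun e => hvw (finSumFinEquiv.symm.injective e))
  · rintro ⟨r, hr⟩
    have hcore := core (t := t) (m := m) (n := n) (p := p)
      (a := fun i => if hi : i < n then -1 - r (finSumFinEquiv (Sum.inl ⟨i, hi⟩)) else 0)
      (y := fun k => if hk : k < n then r (finSumFinEquiv (Sum.inr ⟨k, hk⟩)) else 0)
      ht hm5' hp4 le_rfl ?_
    · nlinarith
    · intro i hi k hk
      simp only [hi, hk, dif_pos]
      have h1 := hr (finSumFinEquiv (Sum.inl ⟨i, hi⟩)) (finSumFinEquiv (Sum.inr ⟨k, hk⟩))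
        (fun e => Sum.inl_ne_inr (finSumFinEquiv.injective e))
      have h2 : ((G0 m (p + 1) n).comap finSumFinEquiv.symm).Adj
          (finSumFinEquiv (Sum.inl ⟨i, hi⟩)) (finSumFinEquiv (Sum.inr ⟨k, hk⟩)) ↔
          pat m (p + 1) i k := by
        rw [SimpleGraph.comap_adj, Equiv.symm_apply_apply, Equiv.symm_apply_apply]
        exact Iff.rfl
      rw [← h2, h1]
      generalize r (finSumFinEquiv (Sum.inl ⟨i, hi⟩)) = u
      generalize r (finSumFinEquiv (Sum.inr ⟨k, hk⟩)) = w
      unfold Dd E
      constructor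
      · rintro (⟨h3, h4⟩ | h3)
        · left; constructor <;> linarith
        · right; linarith
      · rintro (⟨h3, h4⟩ | h3)
        · left; constructor <;> linarith
        · right; linarith

end Pool.Agent.X51.Thr
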