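import Mathlib

open Matrix

namespace Pool.Agent.X51.MDS

/-- The block parity-check matrix `H = [H_1 ... H_n]` of an array code: each block `H_j` is an
`r l x l` matrix, its rows being indexed by `Fin r × Fin l`. -/
abbrev Code (F : Type) (n r l : ℕ) := Fin n → Matrix (Fin r × Fin l) (Fin l) F

section
variable {F : Type} [Field F] {n r l : ℕ}

/-- The MDS condition: any `r` different blocks form an invertible square matrix. -/
def IsMDS (H : Code F n r l) : Prop :=
  ∀ I : Fin r → Fin n, Function.Injective I →
    IsUnit (Matrix.of fun (p s : Fin r × Fin l) => H (I s.1) p s.2)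

/-- `M` is a repair matrix for node `i`. -/
def IsRepair (H : Code F n r l) (i : Fin n) (M : Matrix (Fin l) (Fin r × Fin l) F) : Prop :=
  IsUnit (M * H i)

/-- The repair bandwidth of `M` at node `i`. -/
noncomputable def BW (H : Code F n r l) (i : Fin n) (M : Matrix (Fin l) (Fin r × Fin l) F) : ℕ :=
  ∑ j ∈ Finset.univ.erase i, (M * H j).rank

/-- The minimum repair bandwidth of node `i`. -/
noncomputable def beta (H : Code F n r l) (i : Fin n) : ℕ :=
  sInf {b : ℕ | ∃ M : Matrix (Fin l) (Fin r × Fin l) F, IsRepair H i M ∧ BW H i M = b}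

open Classical in
/-- The number of nonzero columns of a matrix. -/
noncomputable def nz {R S : Type} [Fintype S] (A : Matrix R S F) : ℕ :=
  (Finset.univ.filter fun b : S => ∃ a, A a b ≠ 0).card

/-- The repair I/O of `M` at node `i`. -/
noncomputable def IO (H : Code F n r l) (i : Fin n) (M : Matrix (Fin l) (Fin r × Fin l) F) : ℕ :=
  ∑ j ∈ Finset.univ.erase i, nz (M * H j)

/-- The minimum repair I/O of node `i`. -/
noncomputable def gamma (H : Code F n r l) (i : Fin n) : ℕ :=
  sInf {b : ℕ | ∃ M : Matrix (Fin l) (Fin r × Fin l) F, IsRepair H i M ∧ IO H i M = b}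

theorem rank_le_nz (A : Matrix (Fin l) (Fin l) F) : A.rank ≤ nz A := by
  classical
  rw [← Matrix.rank_transpose A]
  unfold nz
  refine (Matrix.rank_le_card_of_support_subset Aᵀ
    (Finset.univ.filter fun b : Fin l => ∃ a, A a b ≠ 0) ?_).trans (le_of_eq ?_)
  · intro b hb
    simp only [Finset.coe_filter, Finset.mem_univ, true_and, Set.mem_ofPred_eq]
    by_contra hc
    push Not at hc
    apply hb
    ext a
    exact hc a
  · congr

theorem BW_le_IO (H : Code F n r l) (i : Fin n) (M : Matrix (Fin l) (Fin r × Fin l) F) :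
    BW H i M ≤ IO H i M :=
  Finset.sum_le_sum fun j _ => rank_le_nz (M * H j)

variable [Fintype F]

theorem card_left_ker (A : Matrix (Fin l) (Fin l) F) [DecidablePred fun x : Fin l → F => x ᵥ* A = 0] :
    (Finset.univ.filter fun x : Fin l → F => x ᵥ* A = 0).card = Fintype.card F ^ (l - A.rank) := by
  classical
  have h0 : A.vecMulLinear = Aᵀ.mulVecLin := by
    apply LinearMap.ext
    intro x
    simp
  have h1 : (Finset.univ.filter fun x : Fin l → F => x ᵥ* A = 0).card =
      Fintype.card (LinearMap.ker A.vecMulLinear) := by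
    rw [Fintype.card_subtype]
    congr 1
    ext x
    simp
  have h2 : Module.finrank F (LinearMap.ker A.vecMulLinear) = l - A.rank := by
    have h3 := LinearMap.finrank_range_add_finrank_ker A.vecMulLinear
    have h4 : Module.finrank F (LinearMap.range A.vecMulLinear) = A.rank := by
      rw [← Matrix.rank_transpose A, Matrix.rank, h0]
    simp only [Module.finrank_fintype_fun_eq_card, Fintype.card_fin] at h3
    omega
  rw [h1, Module.card_eq_pow_finrank (K := F), h2]

omit [Fintype F] in
/-- A nonzero row vector is annihilated by fewer than `r` blocks. -/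
theorem card_zero_blocks_lt {H : Code F n r l} (hH : IsMDS H) {m : Fin r × Fin l → F} (hm : m ≠ 0)
    [DecidablePred fun j : Fin n => m ᵥ* H j = 0] :
    (Finset.univ.filter fun j : Fin n => m ᵥ* H j = 0).card < r := by
  by_contra hc
  push Not at hc
  obtain ⟨s, hs, hsc⟩ := Finset.exists_subset_card_eq hc
  apply hm
  have hu := hH (fun c => (s.orderEmbOfFin hsc) c) (s.orderEmbOfFin hsc).injective
  have h0 : m ᵥ* (Matrix.of fun (p t : Fin r × Fin l) => H ((s.orderEmbOfFin hsc) t.1) p t.2) = 0 := by
    ext t
    have hj : (s.orderEmbOfFin hsc) t.1 ∈ s := Finset.orderEmbOfFin_mem s hsc t.1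
    have h1 := (Finset.mem_filter.1 (hs hj)).2
    have h2 := congrFun h1 t.2
    simpa [Matrix.vecMul, dotProduct] using h2
  exact (Matrix.vecMul_injective_of_isUnit hu) (by simpa using h0)

theorem rank_bound {H : Code F n r l} (hH : IsMDS H) (i : Fin n)
    (M : Matrix (Fin l) (Fin r × Fin l) F) (hM : IsRepair H i M) (hr : 1 ≤ r) :
    l * (n - 1) ≤ BW H i M + (r - 1) * ∑ k ∈ Finset.range l, Fintype.card F ^ k := by
  classical
  set q := Fintype.card F with hq
  have hq1 : 1 < q := Fintype.one_lt_card
  -- double counting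
  have hcount : ∑ j ∈ Finset.univ.erase i, (q ^ (l - (M * H j).rank) - 1) ≤
      (q ^ l - 1) * (r - 1) := by
    have e1 : ∀ j, (q ^ (l - (M * H j).rank) - 1) =
        ((Finset.univ.erase (0 : Fin l → F)).filter fun x => x ᵥ* (M * H j) = 0).card := by
      intro j
      rw [← card_left_ker, Finset.filter_erase, Finset.card_erase_of_mem]
      simp
    rw [Finset.sum_congr rfl fun j _ => e1 j]
    simp_rw [Finset.card_filter]
    rw [Finset.sum_comm]
    have hc0 : (Finset.univ.erase (0 : Fin l → F)).card = q ^ l - 1 := by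
      rw [Finset.card_erase_of_mem (Finset.mem_univ _), Finset.card_univ]
      simp [hq]
    rw [← hc0, ← smul_eq_mul, ← Finset.sum_const]
    apply Finset.sum_le_sum
    intro x hx
    have hx0 : x ≠ 0 := Finset.ne_of_mem_erase hx
    have hm : x ᵥ* M ≠ 0 := by
      intro h0
      apply hx0
      have : x ᵥ* (M * H i) = 0 := by
        rw [← Matrix.vecMul_vecMul, h0, Matrix.zero_vecMul]
      exact (Matrix.vecMul_injective_of_isUnit hM) (by simpa using this)
    have hlt := card_zero_blocks_lt hH hm
    rw [← Finset.card_filter]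
    have hsub : (Finset.univ.erase i).filter (fun j => x ᵥ* (M * H j) = 0) ⊆
        Finset.univ.filter fun j => (x ᵥ* M) ᵥ* H j = 0 := by
      intro j hj
      rw [Finset.mem_filter] at hj ⊢
      exact ⟨Finset.mem_univ _, by rw [Matrix.vecMul_vecMul]; exact hj.2⟩
    have := Finset.card_le_card hsub
    omega
  have hgeom : (q - 1) * ∑ k ∈ Finset.range l, q ^ k = q ^ l - 1 := by
    have := Nat.geomSum_eq hq1 l
    rw [this, Nat.mul_div_cancel']
    simpa using Nat.sub_one_dvd_pow_sub_one q l
  have hbern : ∀ d : ℕ, (q - 1) * d ≤ q ^ d - 1 := by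
    intro d
    induction d with
    | zero => simp
    | succ d ih =>
      have h1 : 1 ≤ q ^ d := Nat.one_le_pow _ _ (by omega)
      have h2 : q ^ (d + 1) = q ^ d * (q - 1) + q ^ d := by
        rw [pow_succ, show q ^ d * q = q ^ d * ((q - 1) + 1) from by
          rw [Nat.sub_add_cancel (by omega)], mul_add, mul_one]
      have h3 : q - 1 ≤ q ^ d * (q - 1) := Nat.le_mul_of_pos_left _ h1
      rw [mul_add, mul_one, h2]
      omega
  have hsum : (q - 1) * ∑ j ∈ Finset.univ.erase i, (l - (M * H j).rank) ≤
      (q - 1) * ((r - 1) * ∑ k ∈ Finset.range l, q ^ k) := by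
    rw [Finset.mul_sum]
    calc ∑ j ∈ Finset.univ.erase i, (q - 1) * (l - (M * H j).rank)
        ≤ ∑ j ∈ Finset.univ.erase i, (q ^ (l - (M * H j).rank) - 1) :=
          Finset.sum_le_sum fun j _ => hbern _
      _ ≤ (q ^ l - 1) * (r - 1) := hcount
      _ = (q - 1) * ((r - 1) * ∑ k ∈ Finset.range l, q ^ k) := by rw [← hgeom]; ring
  have hsum2 := Nat.le_of_mul_le_mul_left hsum (by omega)
  have hcardn : (Finset.univ.erase i).card = n - 1 := by
    rw [Finset.card_erase_of_mem (Finset.mem_univ _), Finset.card_univ, Fintype.card_fin]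
  have htot : l * (n - 1) ≤ ∑ j ∈ Finset.univ.erase i, ((M * H j).rank + (l - (M * H j).rank)) := by
    rw [← hcardn, mul_comm, ← smul_eq_mul, ← Finset.sum_const]
    exact Finset.sum_le_sum fun j _ => by omega
  rw [Finset.sum_add_distrib] at htot
  unfold BW
  omega

end

end Pool.Agent.X51.MDS
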