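import Mathlib

namespace Pool.Agent.X51.MDS

/-- The field with four elements `0, 1, w, v = w^2`. -/
inductive F4 : Type
  | z | o | w | v
deriving DecidableEq

namespace F4

instance instFintype : Fintype F4 where
  elems := ⟨↑[z, o, w, v], by decide⟩
  complete := by intro x; cases x <;> decide

theorem card_eq : Fintype.card F4 = 4 := rfl

def add : F4 → F4 → F4
  | z, x => x
  | x, z => x
  | o, o => z
  | o, w => v
  | o, v => w
  | w, o => v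
  | w, w => z
  | w, v => o
  | v, o => w
  | v, w => o
  | v, v => z

def mul : F4 → F4 → F4
  | z, _ => z
  | _, z => z
  | o, x => x
  | x, o => x
  | w, w => v
  | w, v => o
  | v, w => o
  | v, v => w

def inv : F4 → F4
  | z => z
  | o => o
  | w => v
  | v => w

instance : Add F4 := ⟨add⟩
instance : Mul F4 := ⟨mul⟩
instance : Neg F4 := ⟨id⟩
instance : Inv F4 := ⟨inv⟩
instance : Zero F4 := ⟨z⟩
instance : One F4 := ⟨o⟩

instance instField : Field F4 :=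
  Field.ofMinimalAxioms F4 (by decide) (by decide) (by decide) (by decide) (by decide)
    (by decide) (by decide) (by decide) (by decide) (by decide)

end F4

/-- `F16 = F4 + F4 t`, `t^2 = t + w`. -/
structure K where
  a : F4
  b : F4
deriving DecidableEq

namespace K

instance instFintype : Fintype K :=
  Fintype.ofEquiv (F4 × F4) ⟨fun p => ⟨p.1, p.2⟩, fun x => (x.a, x.b), fun _ => rfl, fun _ => rfl⟩

def add (x y : K) : K := ⟨F4.add x.a y.a, F4.add x.b y.b⟩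
def mul (x y : K) : K :=
  ⟨F4.add (F4.mul x.a y.a) (F4.mul F4.w (F4.mul x.b y.b)),
   F4.add (F4.add (F4.mul x.a y.b) (F4.mul x.b y.a)) (F4.mul x.b y.b)⟩

/-- Matrix of multiplication by `x` on row vectors. -/
def phi (x : K) : Matrix (Fin 2) (Fin 2) F4 :=
  fun i j => match i, j with
  | 0, 0 => x.a
  | 0, 1 => x.b
  | 1, 0 => F4.mul F4.w x.b
  | 1, 1 => F4.add x.a x.b

instance : Add K := ⟨add⟩
instance : Mul K := ⟨mul⟩
instance : Neg K := ⟨id⟩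
instance : Zero K := ⟨⟨F4.z, F4.z⟩⟩
instance : One K := ⟨⟨F4.o, F4.z⟩⟩

theorem add_def (x y : K) : x + y = ⟨x.a + y.a, x.b + y.b⟩ := rfl
theorem mul_def (x y : K) : x * y = ⟨x.a * y.a + F4.w * (x.b * y.b),
   (x.a * y.b + x.b * y.a) + x.b * y.b⟩ := rfl
theorem zero_def : (0 : K) = ⟨0, 0⟩ := rfl
theorem one_def : (1 : K) = ⟨1, 0⟩ := rfl

instance instCommRing : CommRing K :=
  CommRing.ofMinimalAxioms
    (by intro x y z; simp only [add_def, K.mk.injEq]; constructor <;> ring)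
    (by intro x; simp [add_def, zero_def])
    (by decide +kernel)
    (by intro x y z; simp only [mul_def, K.mk.injEq]; constructor <;> ring)
    (by intro x y; simp only [mul_def, K.mk.injEq]; constructor <;> ring)
    (by intro x; simp [mul_def, one_def])
    (by intro x y z; simp only [mul_def, add_def, K.mk.injEq]; constructor <;> ring)

theorem exists_mul_eq_one : ∀ x : K, x ≠ 0 → ∃ y, x * y = 1 := by decide +kernel

theorem isUnit_of_ne_zero (x : K) (hx : x ≠ 0) : IsUnit x := by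
  obtain ⟨y, hy⟩ := exists_mul_eq_one x hx
  exact IsUnit.of_mul_eq_one y hy

theorem phi_mul (x y : K) (i j : Fin 2) :
    phi (x * y) i j = phi x i 0 * phi y 0 j + phi x i 1 * phi y 1 j := by
  fin_cases i <;> fin_cases j
  · change x.a * y.a + F4.w * (x.b * y.b) = x.a * y.a + x.b * (F4.w * y.b)
    ring
  · change x.a * y.b + x.b * y.a + x.b * y.b = x.a * y.b + x.b * (y.a + y.b)
    ring
  · change F4.w * (x.a * y.b + x.b * y.a + x.b * y.b) = (F4.w * x.b) * y.a + (x.a + x.b) * (F4.w * y.b)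
    ring
  · change x.a * y.a + F4.w * (x.b * y.b) + (x.a * y.b + x.b * y.a + x.b * y.b) =
      (F4.w * x.b) * y.b + (x.a + x.b) * (y.a + y.b)
    ring

theorem phi_add (x y : K) (i j : Fin 2) : phi (x + y) i j = phi x i j + phi y i j := by
  fin_cases i <;> fin_cases j
  · rfl
  · rfl
  · change F4.w * (x.b + y.b) = F4.w * x.b + F4.w * y.b
    ring
  · change x.a + y.a + (x.b + y.b) = (x.a + x.b) + (y.a + y.b)
    ring

/-- Multiplication matrices form a ring homomorphism. -/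
def phiHom : K →+* Matrix (Fin 2) (Fin 2) F4 where
  toFun := phi
  map_one' := by
    ext i j; fin_cases i <;> fin_cases j <;> rfl
  map_mul' := by
    intro x y
    ext i j
    rw [Matrix.mul_apply, Fin.sum_univ_two]
    exact phi_mul x y i j
  map_zero' := by
    ext i j; fin_cases i <;> fin_cases j <;> rfl
  map_add' := by
    intro x y
    ext i j
    rw [Matrix.add_apply]
    exact phi_add x y i j

end K

/-- The 18 points of the Lunelli-Sce hyperoval of `PG(2,16)`. -/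
def pt : Fin 18 → Fin 3 → K := fun j =>
  match j.val with
  | 0 => ![⟨.o, .z⟩, ⟨.z, .z⟩, ⟨.z, .z⟩]
  | 1 => ![⟨.o, .z⟩, ⟨.o, .z⟩, ⟨.o, .z⟩]
  | 2 => ![⟨.o, .z⟩, ⟨.z, .o⟩, ⟨.v, .o⟩]
  | 3 => ![⟨.o, .z⟩, ⟨.o, .o⟩, ⟨.w, .o⟩]
  | 4 => ![⟨.o, .z⟩, ⟨.w, .o⟩, ⟨.w, .z⟩]
  | 5 => ![⟨.o, .z⟩, ⟨.v, .o⟩, ⟨.v, .z⟩]
  | 6 => ![⟨.o, .z⟩, ⟨.w, .z⟩, ⟨.z, .o⟩]
  | 7 => ![⟨.o, .z⟩, ⟨.v, .z⟩, ⟨.o, .o⟩]
  | 8 => ![⟨.o, .z⟩, ⟨.w, .v⟩, ⟨.v, .w⟩]
  | 9 => ![⟨.o, .z⟩, ⟨.v, .v⟩, ⟨.w, .w⟩]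
  | 10 => ![⟨.o, .z⟩, ⟨.w, .w⟩, ⟨.z, .w⟩]
  | 11 => ![⟨.o, .z⟩, ⟨.v, .w⟩, ⟨.o, .w⟩]
  | 12 => ![⟨.o, .z⟩, ⟨.z, .w⟩, ⟨.v, .v⟩]
  | 13 => ![⟨.o, .z⟩, ⟨.o, .w⟩, ⟨.w, .v⟩]
  | 14 => ![⟨.o, .z⟩, ⟨.z, .v⟩, ⟨.o, .v⟩]
  | 15 => ![⟨.o, .z⟩, ⟨.o, .v⟩, ⟨.z, .v⟩]
  | 16 => ![⟨.z, .z⟩, ⟨.o, .z⟩, ⟨.z, .z⟩]
  | _ => ![⟨.z, .z⟩, ⟨.z, .z⟩, ⟨.o, .z⟩]

/-- The determinant of three points. -/
def det3 (x y u : Fin 3 → K) : K :=
  K.add (K.add (K.mul (x 0) (K.add (K.mul (y 1) (u 2)) (K.mul (y 2) (u 1))))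
    (K.mul (x 1) (K.add (K.mul (y 0) (u 2)) (K.mul (y 2) (u 0)))))
    (K.mul (x 2) (K.add (K.mul (y 0) (u 1)) (K.mul (y 1) (u 0))))

theorem det3_ne : ∀ i j k : Fin 18, i ≠ j → i ≠ k → j ≠ k → det3 (pt i) (pt j) (pt k) ≠ 0 := by
  decide +kernel

theorem two_eq_zero (x : K) : -x = x := rfl

theorem isUnit_pts (I : Fin 3 → Fin 18) (hI : Function.Injective I) :
    IsUnit (Matrix.of fun k c : Fin 3 => pt (I c) k) := by
  rw [Matrix.isUnit_iff_isUnit_det]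
  apply K.isUnit_of_ne_zero
  have h := det3_ne (I 0) (I 1) (I 2) (fun e => by simpa using hI e) (fun e => by simpa using hI e)
    (fun e => by simpa using hI e)
  intro hc
  apply h
  rw [← hc, Matrix.det_fin_three]
  simp only [Matrix.of_apply, sub_eq_add_neg, two_eq_zero]
  change (pt (I 0) 0 * (pt (I 1) 1 * pt (I 2) 2 + pt (I 1) 2 * pt (I 2) 1) +
    pt (I 0) 1 * (pt (I 1) 0 * pt (I 2) 2 + pt (I 1) 2 * pt (I 2) 0)) +
    pt (I 0) 2 * (pt (I 1) 0 * pt (I 2) 1 + pt (I 1) 1 * pt (I 2) 0) = _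
  ring

end Pool.Agent.X51.MDS
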