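import Pool.Agent.X51.MD1
import Pool.Agent.X51.MD2

open Matrix

namespace Pool.Agent.X51.MDS

/-- The code before the change of bases. -/
def HK : Code F4 18 3 2 := fun j p b => K.phi (pt j p.1) p.2 b

/-- The change of basis of node `j`. -/
def GG : Fin 18 → Fin 2 → Fin 2 → F4 := fun j =>
  match j.val with
  | 2 => ![![.z, .v], ![.o, .o]]
  | 3 => ![![.z, .o], ![.o, .o]]
  | 7 => ![![.z, .w], ![.o, .o]]
  | 9 => ![![.z, .w], ![.o, .o]]
  | 14 => ![![.z, .v], ![.o, .o]]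
  | 15 => ![![.z, .o], ![.o, .o]]
  | _ => ![![.z, .o], ![.o, .z]]

def GM (j : Fin 18) : Matrix (Fin 2) (Fin 2) F4 := Matrix.of (GG j)

theorem detG_ne : ∀ j : Fin 18, F4.add (F4.mul (GG j 0 0) (GG j 1 1)) (F4.mul (GG j 0 1) (GG j 1 0)) ≠ F4.z := by
  decide +kernel

theorem isUnit_GM (j : Fin 18) : IsUnit (GM j) := by
  rw [Matrix.isUnit_iff_isUnit_det, isUnit_iff_ne_zero]
  intro hc
  apply detG_ne j
  rw [Matrix.det_fin_two, sub_eq_add_neg] at hc
  exact hc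

/-- The code: block `j` is the multiplication by the point `pt j`, followed by a change of basis. -/
def HH : Code F4 18 3 2 := fun j => HK j * GM j

theorem isMDS_HK : IsMDS HK := by
  intro I hI
  have h1 := isUnit_pts I hI
  have h2 := h1.map (RingHom.mapMatrix (m := Fin 3) K.phiHom)
  have h3 := h2.map (Matrix.compRingEquiv (Fin 3) (Fin 2) F4)
  have e : (Matrix.of fun (p s : Fin 3 × Fin 2) => HK (I s.1) p s.2) =
      Matrix.compRingEquiv (Fin 3) (Fin 2) F4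
        ((RingHom.mapMatrix (m := Fin 3) K.phiHom) (Matrix.of fun k c : Fin 3 => pt (I c) k)) := by
    ext p s
    rfl
  rw [e]
  exact h3

/-- The rows of the three repair matrices, as vectors over `K`. -/
def rowsM : Fin 3 → Fin 2 → Fin 3 → K := fun c s =>
  match c.val, s.val with
  | 0, 0 => ![⟨.o, .z⟩, ⟨.z, .z⟩, ⟨.z, .z⟩]
  | 0, _ => ![⟨.z, .o⟩, ⟨.o, .z⟩, ⟨.o, .z⟩]
  | 1, 0 => ![⟨.z, .z⟩, ⟨.o, .z⟩, ⟨.o, .z⟩]
  | 1, _ => ![⟨.o, .z⟩, ⟨.z, .z⟩, ⟨.z, .z⟩]
  | _, 0 => ![⟨.z, .z⟩, ⟨.o, .z⟩, ⟨.o, .v⟩]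
  | _, _ => ![⟨.o, .z⟩, ⟨.w, .w⟩, ⟨.z, .w⟩]

def coordK (x : K) (b : Fin 2) : F4 := match b with | 0 => x.a | 1 => x.b

def MM (c : Fin 3) : Matrix (Fin 2) (Fin 3 × Fin 2) F4 := fun s p => coordK (rowsM c s p.1) p.2

/-- Which repair matrix is used for which node. -/
def asg : Fin 18 → Fin 3 := fun i =>
  match i.val with
  | 0 => 0 | 1 => 0 | 2 => 0 | 3 => 0
  | 4 => 1 | 5 => 1 | 6 => 1 | 7 => 1 | 8 => 1 | 9 => 1
  | 10 => 0 | 11 => 0 | 12 => 1 | 13 => 1 | 14 => 0 | 15 => 0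
  | _ => 2

/-- Entry of the product as an element of `K`. -/
def prodK (c : Fin 3) (j : Fin 18) (s : Fin 2) : K :=
  K.add (K.add (K.mul (rowsM c s 0) (pt j 0)) (K.mul (rowsM c s 1) (pt j 1)))
    (K.mul (rowsM c s 2) (pt j 2))

theorem coord_mul (x y : K) (b : Fin 2) :
    x.a * K.phi y 0 b + x.b * K.phi y 1 b = coordK (x * y) b := by
  fin_cases b
  · change x.a * y.a + x.b * (F4.w * y.b) = x.a * y.a + F4.w * (x.b * y.b)
    ring
  · change x.a * y.b + x.b * (y.a + y.b) = x.a * y.b + x.b * y.a + x.b * y.b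
    ring

theorem coord_add (x y : K) (b : Fin 2) : coordK (x + y) b = coordK x b + coordK y b := by
  fin_cases b <;> rfl

theorem MM_mulK (c : Fin 3) (j : Fin 18) (s b : Fin 2) :
    (MM c * HK j) s b = coordK (prodK c j s) b := by
  rw [Matrix.mul_apply, Fintype.sum_prod_type]
  simp only [Fin.sum_univ_three, Fin.sum_univ_two]
  change (rowsM c s 0).a * K.phi (pt j 0) 0 b + (rowsM c s 0).b * K.phi (pt j 0) 1 b +
    ((rowsM c s 1).a * K.phi (pt j 1) 0 b + (rowsM c s 1).b * K.phi (pt j 1) 1 b) +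
    ((rowsM c s 2).a * K.phi (pt j 2) 0 b + (rowsM c s 2).b * K.phi (pt j 2) 1 b) =
    coordK (rowsM c s 0 * pt j 0 + rowsM c s 1 * pt j 1 + rowsM c s 2 * pt j 2) b
  rw [coord_mul, coord_mul, coord_mul, coord_add, coord_add]

/-- Entry of the product `M_c H_j`. -/
def ent (c : Fin 3) (j : Fin 18) (s b : Fin 2) : F4 :=
  F4.add (F4.mul (prodK c j s).a (GG j 0 b)) (F4.mul (prodK c j s).b (GG j 1 b))

theorem MM_mul (c : Fin 3) (j : Fin 18) (s b : Fin 2) :
    (MM c * HH j) s b = ent c j s b := by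
  unfold HH
  rw [← Matrix.mul_assoc, Matrix.mul_apply, Fin.sum_univ_two, MM_mulK, MM_mulK]
  rfl

theorem det_ne : ∀ i : Fin 18, F4.add (F4.mul (ent (asg i) i 0 0) (ent (asg i) i 1 1))
    (F4.mul (ent (asg i) i 0 1) (ent (asg i) i 1 0)) ≠ F4.z := by
  decide +kernel

/-- Number of nonzero columns of `M_c H_j`. -/
def nc (c : Fin 3) (j : Fin 18) : ℕ :=
  (Finset.univ.filter fun b : Fin 2 => ∃ a : Fin 2, ent c j a b ≠ F4.z).card

theorem count_ok : ∀ i : Fin 18, ∑ j ∈ Finset.univ.erase i, nc (asg i) j = 24 := by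
  decide +kernel

theorem repair_ok (i : Fin 18) : IsRepair HH i (MM (asg i)) := by
  unfold IsRepair
  rw [Matrix.isUnit_iff_isUnit_det, isUnit_iff_ne_zero]
  intro hc
  apply det_ne i
  rw [Matrix.det_fin_two, MM_mul, MM_mul, MM_mul, MM_mul, sub_eq_add_neg] at hc
  exact hc

theorem nz_eq (c : Fin 3) (j : Fin 18) : nz (MM c * HH j) = nc c j := by
  classical
  unfold nz nc
  congr 1
  ext b
  simp only [Finset.mem_filter, Finset.mem_univ, true_and, MM_mul]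
  rfl

theorem io_eq (i : Fin 18) : IO HH i (MM (asg i)) = 24 := by
  rw [← count_ok i]
  exact Finset.sum_congr rfl fun j _ => nz_eq _ j

theorem isMDS_HH : IsMDS HH := by
  intro I hI
  have h := isMDS_HK I hI
  rw [← Matrix.vecMul_injective_iff_isUnit] at h ⊢
  intro x y hxy
  apply h
  ext s
  have h2 : x ᵥ* HH (I s.1) = y ᵥ* HH (I s.1) := by
    ext b
    simpa [Matrix.vecMul, dotProduct] using congrFun hxy (s.1, b)
  unfold HH at h2
  rw [← Matrix.vecMul_vecMul, ← Matrix.vecMul_vecMul] at h2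
  have h3 := Matrix.vecMul_injective_of_isUnit (isUnit_GM (I s.1)) h2
  simpa [Matrix.vecMul, dotProduct] using congrFun h3 s.2

theorem lower (i : Fin 18) (M : Matrix (Fin 2) (Fin 3 × Fin 2) F4) (hM : IsRepair HH i M) :
    24 ≤ BW HH i M := by
  have h := rank_bound isMDS_HH i M hM (by norm_num)
  rw [F4.card_eq] at h
  simp only [Finset.sum_range_succ, Finset.sum_range_zero] at h
  omega

theorem beta_eq (i : Fin 18) : beta HH i = 24 := by
  unfold beta
  have hmem : 24 ∈ {b : ℕ | ∃ M : Matrix (Fin 2) (Fin 3 × Fin 2) F4, IsRepair HH i M ∧ BW HH i M = b} :=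
    ⟨MM (asg i), repair_ok i, le_antisymm ((BW_le_IO _ _ _).trans (io_eq i).le)
      (lower i _ (repair_ok i))⟩
  apply le_antisymm (Nat.sInf_le hmem)
  apply le_csInf ⟨24, hmem⟩
  rintro b ⟨M, hM, rfl⟩
  exact lower i M hM

theorem gamma_eq (i : Fin 18) : gamma HH i = 24 := by
  unfold gamma
  have hmem : 24 ∈ {b : ℕ | ∃ M : Matrix (Fin 2) (Fin 3 × Fin 2) F4, IsRepair HH i M ∧ IO HH i M = b} :=
    ⟨MM (asg i), repair_ok i, io_eq i⟩
  apply le_antisymm (Nat.sInf_le hmem)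
  apply le_csInf ⟨24, hmem⟩
  rintro b ⟨M, hM, rfl⟩
  exact (lower i M hM).trans (BW_le_IO _ _ _)

end Pool.Agent.X51.MDS
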