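import Mathlib

set_option autoImplicit false

/-!
# Counting ordered adjacent pairs inside a vertex set
-/

namespace Pool.Agent.X51.Span

open SimpleGraph Finset

/-- The number of edges of `G` spanned by the vertex set `S`. -/
noncomputable def spanned {n : ℕ} (G : SimpleGraph (Fin n)) (S : Finset (Fin n)) : ℕ :=
  (G.induce (S : Set (Fin n))).edgeSet.ncard

/-! ### counting ordered adjacent pairs -/

open Classical in
/-- twice the number of edges spanned by `S` -/
noncomputable def D {V : Type} (G : SimpleGraph V) (S : Finset V) : ℕ :=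
  ∑ x ∈ S, ∑ y ∈ S, if G.Adj x y then 1 else 0

theorem D_eq {V : Type} (G : SimpleGraph V) [DecidableRel G.Adj] (S : Finset V) :
    D G S = ∑ x ∈ S, ∑ y ∈ S, if G.Adj x y then 1 else 0 := by
  unfold D
  congr!

theorem D_univ {V : Type} [Fintype V] (G : SimpleGraph V) :
    D G univ = 2 * G.edgeSet.ncard := by
  classical
  rw [D_eq, ← coe_edgeFinset, Set.ncard_coe_finset, ← G.sum_degrees_eq_twice_card_edges]
  apply Finset.sum_congr rfl
  intro x _
  rw [← card_neighborFinset_eq_degree, ← Finset.card_filter]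
  congr 1
  ext y
  simp

theorem D_comap {V W : Type} (f : W ↪ V) (G : SimpleGraph V) (S : Finset W) :
    D (G.comap f) S = D G (S.map f) := by
  classical
  rw [D_eq, D_eq, Finset.sum_map]
  apply Finset.sum_congr rfl
  intro x _
  rw [Finset.sum_map]
  rfl

theorem D_spanned {n : ℕ} (G : SimpleGraph (Fin n)) (S : Finset (Fin n)) :
    D G S = 2 * spanned G S := by
  classical
  unfold spanned
  rw [← D_univ, SimpleGraph.induce, D_comap]
  congr 1
  ext x
  simp

theorem D_mono {V : Type} {G G' : SimpleGraph V} (h : G ≤ G') (S : Finset V) :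
    D G S ≤ D G' S := by
  classical
  rw [D_eq, D_eq]
  apply Finset.sum_le_sum
  intro x _
  apply Finset.sum_le_sum
  intro y _
  by_cases hxy : G.Adj x y
  · rw [if_pos hxy, if_pos (h hxy)]
  · rw [if_neg hxy]
    exact Nat.zero_le _

theorem D_subset {V : Type} (G : SimpleGraph V) {S T : Finset V} (h : S ⊆ T) :
    D G S ≤ D G T := by
  classical
  rw [D_eq, D_eq]
  calc ∑ x ∈ S, ∑ y ∈ S, (if G.Adj x y then 1 else 0)
      ≤ ∑ x ∈ S, ∑ y ∈ T, (if G.Adj x y then 1 else 0) :=
        Finset.sum_le_sum fun x _ => Finset.sum_le_sum_of_subset h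
    _ ≤ _ := Finset.sum_le_sum_of_subset h

theorem D_compl {V : Type} (G : SimpleGraph V) (S : Finset V) :
    D Gᶜ S + D G S + S.card = S.card * S.card := by
  classical
  rw [D_eq, D_eq, ← Finset.sum_add_distrib]
  have h : ∀ x ∈ S, (∑ y ∈ S, (if Gᶜ.Adj x y then 1 else 0)) +
      (∑ y ∈ S, (if G.Adj x y then 1 else 0)) + 1 = S.card := by
    intro x hx
    have h1 : (∑ y ∈ S, if x = y then 1 else 0) = 1 := by
      rw [Finset.sum_ite_eq, if_pos hx]
    calc (∑ y ∈ S, (if Gᶜ.Adj x y then 1 else 0)) +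
          (∑ y ∈ S, (if G.Adj x y then 1 else 0)) + 1
        = (∑ y ∈ S, (if Gᶜ.Adj x y then 1 else 0)) +
          (∑ y ∈ S, (if G.Adj x y then 1 else 0)) + ∑ y ∈ S, (if x = y then 1 else 0) := by
          rw [h1]
      _ = ∑ y ∈ S, 1 := by
          rw [← Finset.sum_add_distrib, ← Finset.sum_add_distrib]
          apply Finset.sum_congr rfl
          intro y _
          by_cases hxy : x = y
          · subst hxy; simp
          · by_cases hadj : G.Adj x y
            · simp [hxy, hadj]
            · simp [hxy, hadj]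
      _ = S.card := by rw [Finset.card_eq_sum_ones]
  have h2 : ∑ x ∈ S, ((∑ y ∈ S, (if Gᶜ.Adj x y then 1 else 0)) +
      (∑ y ∈ S, (if G.Adj x y then 1 else 0)) + 1) = ∑ x ∈ S, S.card := Finset.sum_congr rfl h
  rw [Finset.sum_add_distrib, Finset.sum_const, Finset.sum_const, smul_eq_mul, smul_eq_mul,
    mul_one] at h2
  exact h2

theorem D_sum {V W : Type} (G : SimpleGraph V) (H : SimpleGraph W) (S : Finset (V ⊕ W)) :
    D (G ⊕g H) S = D G S.toLeft + D H S.toRight := by
  classical
  rw [D_eq, D_eq, D_eq]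
  conv_lhs => rw [← S.toLeft_disjSum_toRight]
  rw [Finset.sum_disjSum]
  congr 1
  · apply Finset.sum_congr rfl
    intro x _
    rw [Finset.sum_disjSum]
    simp
  · apply Finset.sum_congr rfl
    intro x _
    rw [Finset.sum_disjSum]
    simp

/-- Removing vertices. -/
theorem D_removal {V : Type} [Fintype V] [DecidableEq V] (G : SimpleGraph V)
    [DecidableRel G.Adj] (S : Finset V) :
    D G S + 2 * ∑ x ∈ Sᶜ, G.degree x = D G univ + D G Sᶜ := by
  have hdeg : ∀ x, G.degree x = ∑ y, if G.Adj x y then 1 else 0 := by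
    intro x
    rw [← card_neighborFinset_eq_degree, ← Finset.card_filter]
    congr 1
    ext y
    simp
  simp_rw [hdeg]
  rw [D_eq, D_eq, D_eq]
  have h1 : ∀ x : V, ∑ y, (if G.Adj x y then 1 else 0) =
      ∑ y ∈ S, (if G.Adj x y then 1 else 0) + ∑ y ∈ Sᶜ, (if G.Adj x y then 1 else 0) :=
    fun x => (Finset.sum_add_sum_compl S _).symm
  simp_rw [h1]
  rw [← Finset.sum_add_sum_compl S (fun x => ∑ y ∈ S, (if G.Adj x y then 1 else 0) +
    ∑ y ∈ Sᶜ, (if G.Adj x y then 1 else 0))]
  simp only [Finset.sum_add_distrib]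
  have h2 : ∑ x ∈ S, ∑ y ∈ Sᶜ, (if G.Adj x y then 1 else 0) =
      ∑ x ∈ Sᶜ, ∑ y ∈ S, (if G.Adj x y then 1 else 0) := by
    rw [Finset.sum_comm]
    apply Finset.sum_congr rfl
    intro x _
    apply Finset.sum_congr rfl
    intro y _
    simp only [G.adj_comm]
  rw [h2]
  ring

/-- a subgraph with a prescribed number of edges -/
theorem exists_sub {V : Type} [Fintype V] (G : SimpleGraph V) (f : ℕ) (h : 2 * f ≤ D G univ) :
    ∃ G' ≤ G, D G' univ = 2 * f := by
  classical
  rw [D_univ, ← coe_edgeFinset, Set.ncard_coe_finset] at h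
  obtain ⟨E, hE, hc⟩ := Finset.exists_subset_card_eq (show f ≤ G.edgeFinset.card by omega)
  have hE' : (E : Set (Sym2 V)) ⊆ G.edgeSet := by
    rw [← coe_edgeFinset]
    exact_mod_cast hE
  have h1 : (fromEdgeSet (E : Set (Sym2 V))).edgeSet = (E : Set (Sym2 V)) := by
    rw [edgeSet_fromEdgeSet]
    ext e
    rw [Set.mem_sdiff]
    constructor
    · exact fun h => h.1
    · intro he
      exact ⟨he, G.not_isDiag_of_mem_edgeSet (hE' he)⟩
  refine ⟨fromEdgeSet (E : Set (Sym2 V)), ?_, ?_⟩
  · rw [← edgeSet_subset_edgeSet, h1]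
    exact hE'
  · rw [D_univ, h1, Set.ncard_coe_finset, hc]


end Pool.Agent.X51.Span
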